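import Pool.Agent.T9h38.Cyc.Rat

/-!
Regular forms on cyclic covers of projective space branched along hyperplanes in general position.
-/

set_option autoImplicit false
set_option linter.unusedSectionVars false

open FF Pool.Agent.W602.GT

namespace Pool.Agent.T9h38.Cyc

variable {k L : Type} [Field k] [IsAlgClosed k] [CharZero k] [Field L] [Algebra k L]

variable {n N m : ℕ} {c : Fin N → Fin (n + 1) → k} {a : Fin N → ℕ} {x : Fin n → L} {y : L}

/-- a form which is regular everywhere and is not zero -/
theorem exists_form (hm : 1 ≤ m) (hx : IsTranscendenceBasis k x) (hc : GenPos c)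
    (e : Fin N → ℕ) (he : ∀ i, e i < m) (hE : m * (n + 1) ≤ ∑ i, e i) {w : L} (hw0 : w ≠ 0)
    (hw : w ^ m = ∏ i, lin x (c i) ^ e i) :
    ∃ ω : (Fin n → Derivation k L L) → L, IsPluri 1 ω ∧ (∀ P : Place k L, RegAt P ω) ∧
      ∃ D, ω D ≠ 0 := by
  refine ⟨fun D => w⁻¹ * (Matrix.of fun a i => D a (x i)).det, fun A D => ?_, fun P D hD =>
    reg_form P hm hx.1 hc e he hE hw0 hw D hD, ?_⟩
  · have h1 : (Matrix.of fun a i => (∑ j, A a j • D j) (x i)) =
        A * Matrix.of fun a i => D a (x i) := by
      ext a i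
      rw [Matrix.mul_apply]
      change (∑ l, A a l • D l) (x i) = ∑ l, A a l * D l (x i)
      have h0 : ∀ (s : Finset (Fin n)) (c : Fin n → L), (∑ l ∈ s, c l • D l) (x i)
          = ∑ l ∈ s, c l * D l (x i) := by
        intro s c
        classical
        induction s using Finset.induction_on with
        | empty => simp
        | insert l s hl ih =>
          rw [Finset.sum_insert hl, Finset.sum_insert hl, Derivation.add_apply, ih]
          rfl
      exact h0 _ _
    change w⁻¹ * (Matrix.of fun a i => (∑ j, A a j • D j) (x i)).det =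
      A.det ^ 1 * (w⁻¹ * (Matrix.of fun a i => D a (x i)).det)
    rw [h1, Matrix.det_mul]
    ring
  · obtain ⟨D, hD⟩ := exists_dual hx
    refine ⟨D, ?_⟩
    change w⁻¹ * (Matrix.of fun a i => D a (x i)).det ≠ 0
    rw [hD, Matrix.det_one, mul_one]
    exact inv_ne_zero hw0

/-- **The geometric genus.** If a sum of the residues of the multiples of the exponents is larger
than `n m`, then there is a regular form. -/
theorem Cover.form (h : Cover m c a x y) (hc : GenPos c) (hm : 1 ≤ m) (hz : m ∣ ∑ i, a i) (j : ℕ)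
    (hj : n * m < ∑ i, (j * a i) % m) :
    ∃ ω : (Fin n → Derivation k L L) → L, IsPluri 1 ω ∧ (∀ P : Place k L, RegAt P ω) ∧
      ∃ D, ω D ≠ 0 := by
  have hlf : ∀ i, lin x (c i) ≠ 0 := fun i => lin_ne h.indep (hc.ne_zero i)
  let q : L := ∏ i, lin x (c i) ^ (j * a i / m)
  have hq : q ≠ 0 := Finset.prod_ne_zero_iff.2 fun i _ => pow_ne_zero _ (hlf i)
  have hy := h.y_ne hc (by omega)
  refine exists_form hm (h.basis (by omega)) hc (fun i => (j * a i) % m)
    (fun i => Nat.mod_lt _ (by omega)) ?_ (w := y ^ j / q) (div_ne_zero (pow_ne_zero _ hy) hq) ?_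
  · have h1 : m ∣ ∑ i, (j * a i) % m := by
      rw [Nat.dvd_iff_mod_eq_zero, ← Finset.sum_nat_mod, ← Finset.mul_sum]
      exact Nat.mod_eq_zero_of_dvd (hz.mul_left j)
    obtain ⟨t, ht⟩ := h1
    rw [ht] at hj ⊢
    refine Nat.mul_le_mul_left m ?_
    rw [mul_comm m t] at hj
    exact Nat.lt_of_mul_lt_mul_right hj
  · have h1 : (y ^ j) ^ m = (∏ i, lin x (c i) ^ ((j * a i) % m)) * q ^ m := by
      rw [← pow_mul, mul_comm j m, pow_mul, h.root, ← Finset.prod_pow, ← Finset.prod_pow,
        ← Finset.prod_mul_distrib]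
      refine Finset.prod_congr rfl fun i _ => ?_
      rw [← pow_mul, ← pow_mul, ← pow_add]
      congr 1
      rw [mul_comm (a i) j]
      have := Nat.mod_add_div (j * a i) m
      rw [mul_comm (j * a i / m) m]
      omega
    rw [div_pow, h1, mul_div_cancel_right₀ _ (pow_ne_zero _ hq)]

/-- at most `n + 1` hyperplanes -/
theorem Cover.few (h : Cover m c a x y) (hc : GenPos c) (hm : 1 ≤ m) (hz : m ∣ ∑ i, a i)
    (hN : N ≤ n + 1) : ∃ t : Fin n → L, IntermediateField.adjoin k (Set.range t) = ⊤ := by
  classical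
  have h1 := hc Finset.univ (by simpa using hN)
  have hinj : Function.Injective c := by
    intro i j hij
    have h2 := h1.injective (a₁ := (⟨i, Finset.mem_univ i⟩ : (Finset.univ : Finset (Fin N))))
      (a₂ := ⟨j, Finset.mem_univ j⟩) hij
    exact congrArg Subtype.val h2
  have h2 : LinearIndepOn k id (Set.range c) := by
    have h3 : (Set.range fun i : (Finset.univ : Finset (Fin N)) => c i) = Set.range c := by
      ext d
      simp
    rw [← h3]
    exact h1.linearIndepOn_id
  -- a basis which contains the vectors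
  obtain ⟨v, hv, hvc⟩ : ∃ v : Fin (n + 1) → Fin (n + 1) → k, LinearIndependent k v ∧
      Set.range c ⊆ Set.range v := by
    rcases Set.eq_empty_or_nonempty (Set.range c) with h3 | ⟨u, hu⟩
    · rw [h3]
      exact ⟨fun i => Pi.single i 1, Pi.linearIndependent_single_one _ k, Set.empty_subset _⟩
    · obtain ⟨v, hv, -, hvs⟩ := exists_basis h2 hu
      exact ⟨v, hv, hvs⟩
  choose φ hφ using fun i => hvc ⟨i, rfl⟩
  have hφinj : Function.Injective φ := fun i j hij => hinj (by rw [← hφ i, ← hφ j, hij])
  let a' : Fin (n + 1) → ℕ := fun j => ∑ i ∈ Finset.univ.filter fun i => φ i = j, a i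
  have hv' : GenPos v := fun s _ => hv.comp _ Subtype.val_injective
  have hcov : Cover m v a' x y := by
    refine ⟨h.indep, ?_, h.gen⟩
    rw [h.root, ← Finset.prod_fiberwise Finset.univ φ]
    refine Finset.prod_congr rfl fun j _ => ?_
    rw [← Finset.prod_pow_eq_pow_sum]
    refine Finset.prod_congr rfl fun i hi => ?_
    rw [← hφ i, (Finset.mem_filter.1 hi).2]
  have hsub : ∀ b b' : Fin (0 + 1), b = b' := fun b b' => Fin.ext (by omega)
  refine hcov.gens hv' (by omega) (l := 0) rfl (fun _ => 0) (fun b => ⟨0, hsub _ _⟩) fun b => ?_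
  · have h3 : (Finset.univ.filter fun _ : Fin (n + 1) => (0 : Fin (0 + 1)) = b) = Finset.univ := by
      rw [Finset.filter_true_of_mem]
      intro i _
      exact hsub _ _
    rw [h3]
    change m ∣ ∑ j, ∑ i ∈ Finset.univ.filter fun i => φ i = j, a i
    rw [Finset.sum_fiberwise]
    exact hz

end Pool.Agent.T9h38.Cyc
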