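import Pool.Agent.T9h38.Cyc.Seven
import Pool.Agent.T9h38.Cyc.Genus
import Pool.Agent.TH466.QG.Low
import Pool.Agent.W602.GT.KPsefS

/-!
Rationality of cyclic covers of projective space branched along hyperplanes in general position.
-/

set_option autoImplicit false
set_option linter.overlappingInstances false
set_option linter.unusedSectionVars false

open FF Pool.Agent.W602.GT
open Pool.Agent.W619.PQ (IsUniruled)
open Pool.Agent.W619.TW (IsUnirational)

namespace Pool.Agent.T9h38.Cyc

variable (k L : Type) [Field k] [Field L] [Algebra k L]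

/-- The variety of dimension `n` with function field `L` is birational to projective space. -/
def IsRational (n : ℕ) : Prop := Nonempty (L ≃ₐ[k] FractionRing (MvPolynomial (Fin n) k))

/-- The geometric genus of the variety of dimension `n` with function field `L` is zero: a canonical
form which is regular at all prime divisors is zero. -/
def GenusZero (n : ℕ) : Prop :=
  ∀ ω : (Fin n → Derivation k L L) → L, IsPluri 1 ω →
    (∀ P : Place k L, Divisorial n P → RegAt P ω) → ∀ D, ω D = 0

variable {k L}

section

open scoped IntermediateField.algebraAdjoinAdjoin in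
/-- unirational varieties of positive dimension are uniruled -/
theorem uniruled_of_unirational [IsAlgClosed k] [CharZero k] {n : ℕ} (hn : 1 ≤ n)
    (h : IsUnirational k L n) : IsUniruled k L n := by
  classical
  obtain ⟨φ⟩ := h
  let R := FractionRing (MvPolynomial (Fin n) k)
  let i1 : Algebra L R := φ.toRingHom.toAlgebra
  have i2 : IsScalarTower k L R := IsScalarTower.of_algebraMap_eq fun a => (φ.commutes a).symm
  have hal : Algebra.IsAlgebraic (MvPolynomial (Fin n) k) R :=
    IsLocalization.isAlgebraic _ (nonZeroDivisors (MvPolynomial (Fin n) k))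
  have hX : IsTranscendenceBasis k (fun i : Fin n => algebraMap (MvPolynomial (Fin n) k) R
      (MvPolynomial.X i)) := (IsTranscendenceBasis.mvPolynomial (Fin n) k).algebraMap_comp
  have hgen : IntermediateField.adjoin k (Set.range fun i : Fin n =>
      algebraMap (MvPolynomial (Fin n) k) R (MvPolynomial.X i)) = ⊤ := by
    rw [eq_top_iff]
    intro g _
    obtain ⟨a, b, hb, rfl⟩ := IsFractionRing.div_surjective (A := MvPolynomial (Fin n) k) g
    have h1 : ∀ p : MvPolynomial (Fin n) k, algebraMap (MvPolynomial (Fin n) k) R p ∈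
        IntermediateField.adjoin k (Set.range fun i : Fin n =>
          algebraMap (MvPolynomial (Fin n) k) R (MvPolynomial.X i)) := by
      intro p
      induction p using MvPolynomial.induction_on with
      | C a =>
        have h2 : algebraMap (MvPolynomial (Fin n) k) R (MvPolynomial.C a) = algebraMap k R a := rfl
        rw [h2]
        exact IntermediateField.algebraMap_mem _ a
      | add p q hp hq =>
        rw [map_add]
        exact add_mem hp hq
      | mul_X p i hp =>
        rw [map_mul]
        exact mul_mem hp (IntermediateField.subset_adjoin k _ ⟨i, rfl⟩)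
    exact div_mem (h1 a) (h1 b)
  have hess : Algebra.EssFiniteType k R := by
    rw [← IntermediateField.fg_top_iff, ← hgen]
    exact ⟨Finset.univ.image fun i : Fin n => algebraMap (MvPolynomial (Fin n) k) R
      (MvPolynomial.X i), by rw [Finset.coe_image, Finset.coe_univ, Set.image_univ]⟩
  have htr : Algebra.trdeg k R = (n : ℕ) := by
    rw [← hX.cardinalMk_eq_trdeg]
    simp
  have hR : Ruled k R := by
    let i0 : Fin n := ⟨0, hn⟩
    refine ⟨IntermediateField.adjoin k ((fun i : Fin n => algebraMap (MvPolynomial (Fin n) k) R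
      (MvPolynomial.X i)) '' {i0}ᶜ), algebraMap (MvPolynomial (Fin n) k) R (MvPolynomial.X i0), ?_,
      ?_⟩
    · intro halg
      have h1 := hX.1.transcendental_adjoin (s := {i0}ᶜ) (i := i0) (by simp)
      apply h1
      exact (IsFractionRing.isAlgebraic_iff (Algebra.adjoin k ((fun i : Fin n =>
        algebraMap (MvPolynomial (Fin n) k) R (MvPolynomial.X i)) '' {i0}ᶜ))
          (IntermediateField.adjoin k ((fun i : Fin n => algebraMap (MvPolynomial (Fin n) k) R
            (MvPolynomial.X i)) '' {i0}ᶜ)) R).2 halg
    · rw [eq_top_iff]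
      intro z _
      have h2 : (⊤ : IntermediateField k R) ≤ (IntermediateField.adjoin
          (IntermediateField.adjoin k ((fun i : Fin n => algebraMap (MvPolynomial (Fin n) k) R
            (MvPolynomial.X i)) '' {i0}ᶜ))
          {algebraMap (MvPolynomial (Fin n) k) R (MvPolynomial.X i0)}).restrictScalars k := by
        rw [← hgen, IntermediateField.adjoin_le_iff]
        rintro _ ⟨i, rfl⟩
        by_cases hi : i = i0
        · rw [hi]
          exact IntermediateField.subset_adjoin (IntermediateField.adjoin k _) _ rfl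
        · have h3 : algebraMap (MvPolynomial (Fin n) k) R (MvPolynomial.X i) ∈
              IntermediateField.adjoin k ((fun i : Fin n =>
                algebraMap (MvPolynomial (Fin n) k) R (MvPolynomial.X i)) '' {i0}ᶜ) :=
            IntermediateField.subset_adjoin k _ ⟨i, hi, rfl⟩
          exact IntermediateField.algebraMap_mem _ (⟨_, h3⟩ : IntermediateField.adjoin k
            ((fun i : Fin n => algebraMap (MvPolynomial (Fin n) k) R
              (MvPolynomial.X i)) '' {i0}ᶜ))
      exact h2 (show z ∈ (⊤ : IntermediateField k R) from trivial)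
  exact Pool.Agent.TH466.QG.uniruled_below (F := L) (K := R) htr hR

/-- the implications which hold for all varieties -/
theorem negative_chain [IsAlgClosed k] [CharZero k] [Algebra.EssFiniteType k L] {n : ℕ}
    (hL : Algebra.trdeg k L = n) :
    (IsUniruled k L n → ¬ Psef k L n (fun _ => False)) ∧
    (¬ Psef k L n (fun _ => False) → ¬ KodGe k L n (fun _ => False) 0) ∧
    (¬ KodGe k L n (fun _ => False) 0 → GenusZero k L n) := by
  refine ⟨fun hU => ?_, fun h h' => h (psef_of_kodGe h'), fun h ω hω hreg D => ?_⟩
  · rw [Pool.Agent.TH466.QG.psef_iff n]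
    exact (Pool.Agent.W619.Y.uniruled_neg n hL hU).1
  · by_contra hne
    apply h
    refine ⟨1, one_pos, fun _ => ω, fun _ => ⟨hω, fun P hP D hD => ?_, fun P hP _ => hreg P hP⟩,
      D, hne, ?_⟩
    · exact hreg P hP D fun i => (fun f hf => by
        by_cases hf0 : f = 0
        · rw [hf0, map_zero]
          exact P.reg_zero
        · have h1 := hD i f
          have h2 : D i f = D i f / f * f := (div_mul_cancel₀ _ hf0).symm
          rw [h2]
          exact P.reg_mul h1 hf)
    · exact algebraicIndependent_empty_type_iff.2 (algebraMap k L).injective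

end

section

variable [IsAlgClosed k] [CharZero k] {n N m : ℕ} {c : Fin N → Fin (n + 1) → k} {a : Fin N → ℕ}
  {x : Fin n → L} {y : L}

theorem Cover.ess (h : Cover m c a x y) : Algebra.EssFiniteType k L := by
  classical
  rw [← IntermediateField.fg_top_iff, ← h.gen]
  exact ⟨insert y (Finset.univ.image x), by simp⟩

/-- **Zero-sum blocks give rationality**, for all `m`. -/
theorem Cover.rational_of_blocks (h : Cover m c a x y) (hc : GenPos c) (hm : 1 ≤ m)
    (hz : m ∣ ∑ i, a i) (hb : ∀ l, N = n + (l + 1) → Blocks m a Finset.univ (l + 1)) :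
    IsRational k L n := by
  rcases Nat.lt_or_ge n N with hN | hN
  · obtain ⟨l, hl⟩ : ∃ l, N = n + (l + 1) := ⟨N - n - 1, by omega⟩
    obtain ⟨f, hf1, hf2, hf3⟩ := (hb l hl).fibres
    obtain ⟨t, ht⟩ := h.gens hc (by omega) hl (fun i => ⟨f i, hf1 i (Finset.mem_univ i)⟩)
      (fun b => by
        obtain ⟨i, -, hi⟩ := hf2 b b.2
        exact ⟨i, Fin.ext hi⟩) (fun b => by
        have h1 := hf3 b b.2
        have h2 : (Finset.univ.filter fun i => (⟨f i, hf1 i (Finset.mem_univ i)⟩ : Fin (l + 1)) = b) =
            Finset.univ.filter fun i => f i = b := Finset.filter_congr fun i _ => by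
          rw [Fin.ext_iff]
        rw [h2]
        exact h1)
    exact rational_of_gens (h.trdeg (by omega)) t ht
  · obtain ⟨t, ht⟩ := h.few hc hm hz (by omega)
    exact rational_of_gens (h.trdeg (by omega)) t ht

/-- the implications which hold for all `m` -/
theorem Cover.tfae_of (h : Cover m c a x y) (hn : 1 ≤ n) (hc : GenPos c) (hm : 1 ≤ m)
    (hz : m ∣ ∑ i, a i)
    (hR : (∀ j : ℕ, ∑ i, (j * a i) % m ≤ n * m) → IsRational k L n) :
    [IsRational k L n, IsUnirational k L n, IsUniruled k L n, ¬ Psef k L n (fun _ => False),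
      ¬ KodGe k L n (fun _ => False) 0, GenusZero k L n,
      ∀ j : ℕ, ∑ i, (j * a i) % m ≤ n * m].TFAE := by
  have := h.ess
  obtain ⟨h34, h45, h56⟩ := negative_chain (h.trdeg (by omega))
  tfae_have 1 → 2 := fun ⟨e⟩ => ⟨e⟩
  tfae_have 2 → 3 := uniruled_of_unirational hn
  tfae_have 3 → 4 := h34
  tfae_have 4 → 5 := h45
  tfae_have 5 → 6 := h56
  tfae_have 6 → 7 := by
    intro hg j
    by_contra hj
    obtain ⟨ω, h1, h2, D, hD⟩ := h.form hc hm hz j (by omega)
    exact hD (hg ω h1 (fun P _ => h2 P) D)
  tfae_have 7 → 1 := hR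
  tfae_finish

/-- **Cyclic covers of degree at most five or seven, or with exponents `0`, `1` and `-1`.** -/
theorem Cover.tfae_small (h : Cover m c a x y) (hn : 1 ≤ n) (hc : GenPos c) (hm : 1 ≤ m)
    (hma : m ≤ 5 ∨ m = 7 ∨ ∀ i, (a i : ZMod m) = 0 ∨ (a i : ZMod m) = 1 ∨ (a i : ZMod m) = -1)
    (hz : m ∣ ∑ i, a i) :
    [IsRational k L n, IsUnirational k L n, IsUniruled k L n, ¬ Psef k L n (fun _ => False),
      ¬ KodGe k L n (fun _ => False) 0, GenusZero k L n,
      ∀ j : ℕ, ∑ i, (j * a i) % m ≤ n * m].TFAE := by
  refine h.tfae_of hn hc hm hz fun hj => h.rational_of_blocks hc hm hz fun l hl =>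
    blocks_of_sums hm a ?_ hj (l + 1) (by omega) (by omega)
  by_cases hm5 : m ≤ 5
  · exact exists_blocks hm hm5 a Finset.univ hz
  by_cases hm7 : m = 7
  · subst hm7
    exact exists_blocks_seven a Finset.univ hz
  · refine exists_blocks_pm (by omega) a (fun i => ?_) Finset.univ hz
    rcases (hma.resolve_left hm5).resolve_left hm7 i with h1 | h1 | h1
    · left
      rwa [ZMod.natCast_eq_zero_iff] at h1
    · right; left
      have h2 : ((a i : ℕ) : ZMod m) = ((1 : ℕ) : ZMod m) := by rw [h1, Nat.cast_one]
      rw [ZMod.natCast_eq_natCast_iff'] at h2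
      rw [h2]
      exact Nat.mod_eq_of_lt (by omega)
    · right; right
      have h2 : ((a i + 1 : ℕ) : ZMod m) = 0 := by
        push_cast
        rw [h1]
        ring
      rwa [ZMod.natCast_eq_zero_iff] at h2

/-- zero-sum classes give rationality -/
theorem Cover.rational_of_classes (h : Cover m c a x y) (hc : GenPos c) (hm : 1 ≤ m) (hN : n < N)
    (f : Fin N → Fin (N - n)) (hf : Function.Surjective f)
    (hf0 : ∀ b, m ∣ ∑ i ∈ Finset.univ.filter fun i => f i = b, a i) : IsRational k L n := by
  obtain ⟨l, hl⟩ : ∃ l, N = n + (l + 1) := ⟨N - n - 1, by omega⟩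
  have h1 : N - n = l + 1 := by omega
  obtain ⟨t, ht⟩ := h.gens hc (by omega) hl (fun i => Fin.cast h1 (f i)) (fun b => by
    obtain ⟨i, hi⟩ := hf (Fin.cast h1.symm b)
    refine ⟨i, ?_⟩
    change Fin.cast h1 (f i) = b
    rw [hi]
    exact Fin.ext rfl) (fun b => by
    have h2 := hf0 (Fin.cast h1.symm b)
    have h3 : (Finset.univ.filter fun i => Fin.cast h1 (f i) = b) =
        Finset.univ.filter fun i => f i = Fin.cast h1.symm b := Finset.filter_congr fun i _ => by
      rw [Fin.ext_iff, Fin.ext_iff]
      rfl
    rw [h3]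
    exact h2)
  exact rational_of_gens (h.trdeg (by omega)) t ht

end

end Pool.Agent.T9h38.Cyc
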