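import Mathlib

/-!
The linear system for the scale factors of the blocks.
-/

set_option autoImplicit false
set_option linter.unusedSectionVars false

open MvPolynomial

namespace Pool.Agent.T9h38.Cyc

variable {k L : Type} [Field k] [Field L] [Algebra k L]

/-- the solution of a linear system with coefficients in a subfield -/
theorem cramer_mem {J : Type} [Fintype J] [DecidableEq J] (F : IntermediateField k L)
    (A : Matrix J J L) (hA : ∀ i j, A i j ∈ F) (hdet : A.det ≠ 0) (s r : J → L)
    (hr : ∀ i, r i ∈ F) (h : ∀ i, ∑ j, A i j * s j = r i) (j : J) : s j ∈ F := by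
  let B : Matrix J J F := fun i j => ⟨A i j, hA i j⟩
  have h1 : A = B.map (algebraMap F L) := by
    ext i j; rfl
  have h2 : A.det = algebraMap F L B.det := by
    rw [h1]
    exact (RingHom.map_det (algebraMap F L) B).symm
  have h3 : IsUnit B.det := by
    rw [isUnit_iff_ne_zero]
    intro h
    rw [h, map_zero] at h2
    exact hdet h2
  have h4 : B⁻¹.map (algebraMap F L) * A = 1 := by
    rw [h1, ← Matrix.map_mul, Matrix.nonsing_inv_mul B h3]
    exact Matrix.map_one _ (map_zero _) (map_one _)
  have h5 : A.mulVec s = r := funext h
  have h6 : s = (B⁻¹.map (algebraMap F L)).mulVec r := by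
    rw [← h5, Matrix.mulVec_mulVec, h4, Matrix.one_mulVec]
  rw [h6]
  change ∑ i, (algebraMap F L (B⁻¹ j i)) * r i ∈ F
  exact sum_mem fun i _ => mul_mem (B⁻¹ j i).2 (hr i)

/-- **The scale factors are rational functions of the quotients.** -/
theorem scale_mem {I J : Type} [Fintype I] [Fintype J] [DecidableEq J]
    {z : I → L} (hz : AlgebraicIndependent k z) (b : I → Option J) (β : J → I → k) (β0 : J → k)
    (hβ0 : ∀ j, β0 j ≠ 0) (s : Option J → L) (hs0 : s none = 1)
    (hs : ∀ j, s (some j) = algebraMap k L (β0 j) + ∑ i, algebraMap k L (β j i) * z i)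
    (F : IntermediateField k L) (hF : ∀ i, z i / s (b i) ∈ F) (j : J) : s (some j) ∈ F := by
  classical
  have hinj : Function.Injective (aeval z : MvPolynomial I k →ₐ[k] L) := hz
  have hsne : ∀ j, s (some j) ≠ 0 := by
    intro j h
    have h1 : (aeval z : MvPolynomial I k →ₐ[k] L) (C (β0 j) + ∑ i, C (β j i) * X i) = 0 := by
      rw [← h, hs j]
      simp
    have h2 := (map_eq_zero_iff _ hinj).1 h1
    have h3 := congrArg constantCoeff h2
    simp at h3
    exact hβ0 j h3
  have hsne' : ∀ o, s o ≠ 0 := by
    intro o
    cases o with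
    | none => rw [hs0]; exact one_ne_zero
    | some j => exact hsne j
  let u : I → L := fun i => z i / s (b i)
  have hu : ∀ i, z i = u i * s (b i) := fun i => (div_mul_cancel₀ _ (hsne' _)).symm
  let A : Matrix J J L := Matrix.of fun j j' => (if j = j' then 1 else 0) -
    ∑ i ∈ Finset.univ.filter fun i => b i = some j', algebraMap k L (β j i) * u i
  let A' : Matrix J J L := Matrix.of fun j j' => (if j = j' then s (some j') else 0) -
    ∑ i ∈ Finset.univ.filter fun i => b i = some j', algebraMap k L (β j i) * z i
  let Q : Matrix J J (MvPolynomial I k) := Matrix.of fun j j' =>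
    (if j = j' then C (β0 j') + ∑ i, C (β j' i) * X i else 0) -
    ∑ i ∈ Finset.univ.filter fun i => b i = some j', C (β j i) * X i
  have hAA : A'.det = (∏ j, s (some j)) * A.det := by
    have h1 : A' = Matrix.of fun j j' => s (some j') * A j j' := by
      ext j j'
      simp only [A, A', Matrix.of_apply]
      rw [mul_sub, Finset.mul_sum]
      congr 1
      · split_ifs <;> simp
      · refine Finset.sum_congr rfl fun i hi => ?_
        rw [hu i, (Finset.mem_filter.1 hi).2]
        ring
    rw [h1, Matrix.det_mul_row]
  have hQ : aeval z Q.det = A'.det := by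
    have h1 : A' = (aeval z : MvPolynomial I k →ₐ[k] L).toRingHom.mapMatrix Q := by
      ext j j'
      simp only [A', Q, Matrix.of_apply, RingHom.mapMatrix_apply, Matrix.map_apply,
        AlgHom.toRingHom_eq_coe, RingHom.coe_coe, map_sub, map_sum, map_mul, aeval_C, aeval_X]
      congr 1
      split_ifs with h
      · rw [hs]
        simp
      · simp
    rw [h1, ← RingHom.map_det]
    rfl
  have hQ0 : Q.det ≠ 0 := by
    intro h
    have h1 := congrArg (constantCoeff (σ := I) (R := k)) h
    rw [RingHom.map_det, map_zero] at h1
    have h2 : (constantCoeff (σ := I) (R := k)).mapMatrix Q = Matrix.diagonal β0 := by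
      ext j j'
      simp only [Q, RingHom.mapMatrix_apply, Matrix.map_apply, Matrix.of_apply, map_sub, map_sum,
        map_mul, constantCoeff_C, constantCoeff_X, mul_zero, Finset.sum_const_zero, sub_zero,
        Matrix.diagonal_apply]
      split_ifs with h
      · rw [h]
        simp
      · simp
    rw [h2, Matrix.det_diagonal] at h1
    exact (Finset.prod_ne_zero_iff.2 fun j _ => hβ0 j) h1
  have hA : A.det ≠ 0 := by
    intro h
    rw [h, mul_zero] at hAA
    rw [hAA] at hQ
    exact hQ0 ((map_eq_zero_iff _ hinj).1 hQ)
  let r : J → L := fun j => algebraMap k L (β0 j) +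
    ∑ i ∈ Finset.univ.filter fun i => b i = none, algebraMap k L (β j i) * u i
  refine cramer_mem F A (fun j j' => ?_) hA (fun j => s (some j)) r (fun j => ?_) (fun j => ?_) j
  · refine sub_mem ?_ (sum_mem fun i _ => mul_mem (F.algebraMap_mem _) (hF i))
    split_ifs
    · exact one_mem F
    · exact zero_mem F
  · exact add_mem (F.algebraMap_mem _) (sum_mem fun i _ => mul_mem (F.algebraMap_mem _) (hF i))
  · have h1 : ∑ j', A j j' * s (some j') = s (some j) - ∑ j', ∑ i ∈ Finset.univ.filter
        fun i => b i = some j', algebraMap k L (β j i) * z i := by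
      have h2 : ∀ j', A j j' * s (some j') = (if j = j' then s (some j') else 0) -
          ∑ i ∈ Finset.univ.filter fun i => b i = some j', algebraMap k L (β j i) * z i := by
        intro j'
        simp only [A, Matrix.of_apply]
        rw [sub_mul, Finset.sum_mul]
        congr 1
        · split_ifs <;> simp
        · refine Finset.sum_congr rfl fun i hi => ?_
          rw [hu i, (Finset.mem_filter.1 hi).2]
          ring
      rw [Finset.sum_congr rfl fun j' _ => h2 j', Finset.sum_sub_distrib]
      simp
    have h3 : ∑ i, algebraMap k L (β j i) * z i =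
        (∑ i ∈ Finset.univ.filter fun i => b i = none, algebraMap k L (β j i) * u i) +
        ∑ j', ∑ i ∈ Finset.univ.filter fun i => b i = some j',
          algebraMap k L (β j i) * z i := by
      have h4 : ∑ i, algebraMap k L (β j i) * z i = ∑ o : Option J,
          ∑ i ∈ Finset.univ.filter fun i => b i = o, algebraMap k L (β j i) * z i :=
        (Finset.sum_fiberwise _ b _).symm
      rw [h4, Fintype.sum_option]
      congr 1
      refine Finset.sum_congr rfl fun i hi => ?_
      rw [hu i, (Finset.mem_filter.1 hi).2, hs0, mul_one]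
    rw [h1, hs j, h3]
    change _ = algebraMap k L (β0 j) + _
    ring

end Pool.Agent.T9h38.Cyc
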