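import Mathlib

/-!
Partitions of sequences with sum zero modulo `m`, `m ≤ 5`, into blocks with sum zero.
-/

set_option autoImplicit false

namespace Pool.Agent.T9h38.Cyc

variable {ι : Type} [DecidableEq ι]

/-- `S` is a disjoint union of `k` nonempty sets on which the sum of `a` is divisible by `m`. -/
inductive Blocks (m : ℕ) (a : ι → ℕ) : Finset ι → ℕ → Prop
  | nil : Blocks m a ∅ 0
  | cons {T S : Finset ι} {k : ℕ} (hT : T.Nonempty) (hd : Disjoint T S)
      (hz : m ∣ ∑ i ∈ T, a i) (h : Blocks m a S k) : Blocks m a (T ∪ S) (k + 1)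

theorem Blocks.dvd {m : ℕ} {a : ι → ℕ} {S : Finset ι} {k : ℕ} (h : Blocks m a S k) :
    m ∣ ∑ i ∈ S, a i := by
  induction h with
  | nil => simp
  | cons hT hd hz h ih =>
    rw [Finset.sum_union hd]
    exact dvd_add hz ih

theorem Blocks.nonempty {m : ℕ} {a : ι → ℕ} {S : Finset ι} {k : ℕ} (h : Blocks m a S (k + 1)) :
    S.Nonempty := by
  cases h with
  | cons hT hd hz h => exact hT.mono Finset.subset_union_left

/-- two blocks can be merged -/
theorem Blocks.merge {m : ℕ} {a : ι → ℕ} {S : Finset ι} {k : ℕ} (h : Blocks m a S (k + 2)) :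
    Blocks m a S (k + 1) := by
  cases h with
  | @cons T S k hT hd hz h =>
    cases h with
    | @cons T' S' k hT' hd' hz' h =>
      rw [← Finset.union_assoc]
      rw [Finset.disjoint_union_right] at hd
      refine Blocks.cons (hT.mono Finset.subset_union_left) ?_ ?_ h
      · rw [Finset.disjoint_union_left]
        exact ⟨hd.2, hd'⟩
      · rw [Finset.sum_union hd.1]
        exact dvd_add hz hz'

theorem Blocks.reduce {m : ℕ} {a : ι → ℕ} {S : Finset ι} {k l : ℕ} (h : Blocks m a S k)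
    (hl : 1 ≤ l) (hlk : l ≤ k) : Blocks m a S l := by
  induction k, hlk using Nat.le_induction with
  | base => exact h
  | succ k hk ih =>
    obtain ⟨k, rfl⟩ : ∃ k', k = k' + 1 := ⟨k - 1, by omega⟩
    exact ih h.merge

/-- the blocks as the fibres of a function -/
theorem Blocks.fibres {m : ℕ} {a : ι → ℕ} {S : Finset ι} {k : ℕ} (h : Blocks m a S k) :
    ∃ f : ι → ℕ, (∀ i ∈ S, f i < k) ∧ (∀ b < k, ∃ i ∈ S, f i = b) ∧
      ∀ b < k, m ∣ ∑ i ∈ S with f i = b, a i := by
  induction h with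
  | nil => exact ⟨fun _ => 0, by simp, by simp, by simp⟩
  | @cons T S k hT hd hz h ih =>
    obtain ⟨f, h1, h2, h3⟩ := ih
    have hTS : ∀ i ∈ S, i ∉ T := fun i hi hT' => (Finset.disjoint_left.1 hd) hT' hi
    refine ⟨fun i => if i ∈ T then k else f i, ?_, ?_, ?_⟩
    · intro i hi
      rcases Finset.mem_union.1 hi with hi | hi
      · simp [hi]
      · simp only [hTS i hi, if_false]
        exact (h1 i hi).trans (Nat.lt_succ_self k)
    · intro b hb
      rcases Nat.lt_succ_iff_lt_or_eq.1 hb with hb | rfl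
      · obtain ⟨i, hi, hfi⟩ := h2 b hb
        exact ⟨i, Finset.mem_union_right _ hi, by simp [hTS i hi, hfi]⟩
      · obtain ⟨i, hi⟩ := hT
        exact ⟨i, Finset.mem_union_left _ hi, by simp [hi]⟩
    · intro b hb
      rcases Nat.lt_succ_iff_lt_or_eq.1 hb with hb | rfl
      · have h4 : ((T ∪ S).filter fun i => (if i ∈ T then k else f i) = b) =
            S.filter fun i => f i = b := by
          ext i
          simp only [Finset.mem_filter, Finset.mem_union]
          constructor
          · rintro ⟨hi | hi, h5⟩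
            · simp only [hi, if_true] at h5
              omega
            · simp only [hTS i hi, if_false] at h5
              exact ⟨hi, h5⟩
          · rintro ⟨hi, h5⟩
            simp [hTS i hi, hi, h5]
        rw [h4]
        exact h3 b hb
      · have h4 : ((T ∪ S).filter fun i => (if i ∈ T then b else f i) = b) = T := by
          ext i
          simp only [Finset.mem_filter, Finset.mem_union]
          constructor
          · rintro ⟨hi | hi, h5⟩
            · exact hi
            · simp only [hTS i hi, if_false] at h5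
              have := h1 i hi
              omega
          · intro hi
            simp [hi]
        rw [h4]
        exact hz

/-- `m` times the contribution of the residue class of `x` to the number of blocks -/
def q (m c x : ℕ) : ℕ := if m ∣ c * x then m else (c * x) % m

theorem q_zero {m c x : ℕ} (h : m ∣ x) : q m c x = m := by
  rw [q, if_pos (h.mul_left c)]

theorem q_pair {m c x y : ℕ} (hc : Nat.Coprime m c) (hx : ¬ m ∣ x) (hxy : m ∣ x + y) :
    q m c x + q m c y = m := by
  have hm : 0 < m := by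
    rcases Nat.eq_zero_or_pos m with rfl | h
    · exfalso
      apply hx
      have := Nat.eq_zero_of_zero_dvd hxy
      have h2 : x = 0 := by omega
      rw [h2]
    · exact h
  have h1 : ¬ m ∣ c * x := fun h => hx (hc.dvd_of_dvd_mul_left h)
  have hy : ¬ m ∣ y := fun h => hx ((Nat.dvd_add_left h).1 hxy)
  have h2 : ¬ m ∣ c * y := fun h => hy (hc.dvd_of_dvd_mul_left h)
  rw [q, q, if_neg h1, if_neg h2]
  have h3 : m ∣ c * x + c * y := by rw [← mul_add]; exact hxy.mul_left c
  have h4 : 0 < (c * x) % m := Nat.pos_of_ne_zero fun h => h1 (Nat.dvd_of_mod_eq_zero h)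
  have h5 : (c * x) % m < m := Nat.mod_lt _ hm
  have h6 : (c * y) % m < m := Nat.mod_lt _ hm
  have h7 : m ∣ (c * x) % m + (c * y) % m := by
    rw [Nat.dvd_iff_mod_eq_zero, ← Nat.add_mod]
    exact Nat.mod_eq_zero_of_dvd h3
  obtain ⟨t, ht⟩ := h7
  have h8 : t < 2 := by
    by_contra h
    have : m * 2 ≤ m * t := Nat.mul_le_mul_left m (by omega)
    omega
  have h9 : 0 < t := by
    rcases Nat.eq_zero_or_pos t with rfl | h
    · omega
    · exact h
  have h10 : t = 1 := by omega
  rw [ht, h10, mul_one]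

omit [DecidableEq ι] in
/-- the sum over a block -/
theorem dvd_of_sum {m c : ℕ} (hc : Nat.Coprime m c) (a : ι → ℕ) (T : Finset ι)
    (h : m ∣ ∑ i ∈ T, (c * a i) % m) : m ∣ ∑ i ∈ T, a i := by
  apply hc.dvd_of_dvd_mul_left
  rw [Finset.mul_sum, Nat.dvd_iff_mod_eq_zero, Finset.sum_nat_mod]
  rw [Nat.dvd_iff_mod_eq_zero] at h
  exact h

/-- Sequences of residues `1` and `2` and (for `m = 5`) `1` and `3`: induction step. -/
theorem greedy {m c : ℕ} (hm : 0 < m) (hc : Nat.Coprime m c) (a : ι → ℕ)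
    (C : Finset ι → Prop)
    (step : ∀ S : Finset ι, C S → S.Nonempty → m ∣ ∑ i ∈ S, (c * a i) % m →
      ∃ T ⊆ S, ∑ i ∈ T, (c * a i) % m = m ∧ C (S \ T)) :
    ∀ (n : ℕ) (S : Finset ι), S.card = n → C S → m ∣ ∑ i ∈ S, (c * a i) % m →
      ∃ k, Blocks m a S k ∧ k * m = ∑ i ∈ S, (c * a i) % m := by
  intro n
  induction n using Nat.strong_induction_on with
  | _ n ih =>
    intro S hn hS hdvd
    rcases S.eq_empty_or_nonempty with rfl | hne
    · exact ⟨0, Blocks.nil, by simp⟩
    · obtain ⟨T, hTS, hT, hC⟩ := step S hS hne hdvd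
      have hTne : T.Nonempty := by
        rw [Finset.nonempty_iff_ne_empty]
        rintro rfl
        simp at hT
        omega
      have hsum : ∑ i ∈ S \ T, (c * a i) % m + ∑ i ∈ T, (c * a i) % m =
          ∑ i ∈ S, (c * a i) % m := Finset.sum_sdiff hTS
      have hlt : (S \ T).card < n := by
        rw [Finset.card_sdiff_of_subset hTS]
        have h1 := Finset.card_le_card hTS
        have h2 := hTne.card_pos
        omega
      have hd2 : m ∣ ∑ i ∈ S \ T, (c * a i) % m := by
        rw [← hsum, hT] at hdvd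
        exact (Nat.dvd_add_left (dvd_refl m)).1 hdvd
      obtain ⟨k, hk, hkm⟩ := ih _ hlt (S \ T) rfl hC hd2
      refine ⟨k + 1, ?_, ?_⟩
      · have h3 : S = T ∪ (S \ T) := (Finset.union_sdiff_of_subset hTS).symm
        rw [h3]
        exact Blocks.cons hTne Finset.disjoint_sdiff (dvd_of_sum hc a T (by rw [hT])) hk
      · rw [← hsum, hT, add_mul, hkm, one_mul]

omit [DecidableEq ι] in
/-- the sum over a set on which `r` has two values -/
theorem sum_two {x y : ℕ} (hxy : x ≠ y) (r : ι → ℕ) (S : Finset ι)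
    (hS : ∀ i ∈ S, r i = x ∨ r i = y) :
    ∑ i ∈ S, r i = (S.filter fun i => r i = x).card * x + (S.filter fun i => r i = y).card * y := by
  have h1 : ∑ i ∈ S, r i = ∑ i ∈ S, ((if r i = x then x else 0) + (if r i = y then y else 0)) := by
    refine Finset.sum_congr rfl fun i hi => ?_
    rcases hS i hi with h | h
    · rw [h, if_pos rfl, if_neg hxy, add_zero]
    · rw [h, if_pos rfl, if_neg hxy.symm, zero_add]
  rw [h1, Finset.sum_add_distrib, ← Finset.sum_filter, ← Finset.sum_filter, Finset.sum_const,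
    Finset.sum_const, smul_eq_mul, smul_eq_mul]

/-- choose a block with given numbers of residues -/
theorem pick {x y : ℕ} (hxy : x ≠ y) (r : ι → ℕ) (S : Finset ι) (p s : ℕ) (hp : p ≤ (S.filter fun i => r i = x).card)
    (hs : s ≤ (S.filter fun i => r i = y).card) :
    ∃ T ⊆ S, ∑ i ∈ T, r i = p * x + s * y ∧
      ((S \ T).filter fun i => r i = x).card + p = (S.filter fun i => r i = x).card ∧
      ((S \ T).filter fun i => r i = y).card + s = (S.filter fun i => r i = y).card := by
  obtain ⟨U, hU, hUc⟩ := Finset.exists_subset_card_eq hp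
  obtain ⟨V, hV, hVc⟩ := Finset.exists_subset_card_eq hs
  have hUx : ∀ i ∈ U, i ∈ S ∧ r i = x := fun i hi => Finset.mem_filter.1 (hU hi)
  have hVy : ∀ i ∈ V, i ∈ S ∧ r i = y := fun i hi => Finset.mem_filter.1 (hV hi)
  have hd : Disjoint U V := by
    rw [Finset.disjoint_left]
    intro i h1 h2
    exact hxy ((hUx i h1).2.symm.trans (hVy i h2).2)
  have hsub : U ∪ V ⊆ S := by
    intro i hi
    rcases Finset.mem_union.1 hi with h | h
    · exact (hUx i h).1
    · exact (hVy i h).1
  refine ⟨U ∪ V, hsub, ?_, ?_, ?_⟩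
  · rw [Finset.sum_union hd, Finset.sum_congr rfl fun i hi => (hUx i hi).2,
      Finset.sum_congr rfl fun i hi => (hVy i hi).2, Finset.sum_const, Finset.sum_const,
      smul_eq_mul, smul_eq_mul, hUc, hVc]
  · have h1 : ((S \ (U ∪ V)).filter fun i => r i = x) = (S.filter fun i => r i = x) \ U := by
      ext i
      simp only [Finset.mem_filter, Finset.mem_sdiff, Finset.mem_union, not_or]
      constructor
      · rintro ⟨⟨h1, h2, h3⟩, h4⟩
        exact ⟨⟨h1, h4⟩, h2⟩
      · rintro ⟨⟨h1, h4⟩, h2⟩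
        exact ⟨⟨h1, h2, fun h3 => hxy (h4.symm.trans (hVy i h3).2)⟩, h4⟩
    rw [h1, Finset.card_sdiff_of_subset hU, hUc]
    omega
  · have h1 : ((S \ (U ∪ V)).filter fun i => r i = y) = (S.filter fun i => r i = y) \ V := by
      ext i
      simp only [Finset.mem_filter, Finset.mem_sdiff, Finset.mem_union, not_or]
      constructor
      · rintro ⟨⟨h1, h2, h3⟩, h4⟩
        exact ⟨⟨h1, h4⟩, h3⟩
      · rintro ⟨⟨h1, h4⟩, h3⟩
        exact ⟨⟨h1, fun h2 => hxy ((hUx i h2).2.symm.trans h4), h3⟩, h4⟩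
    rw [h1, Finset.card_sdiff_of_subset hV, hVc]
    omega

omit [DecidableEq ι] in
theorem two_pos {x y : ℕ} (r : ι → ℕ) (S : Finset ι)
    (hS : ∀ i ∈ S, r i = x ∨ r i = y) (hne : S.Nonempty) :
    0 < (S.filter fun i => r i = x).card + (S.filter fun i => r i = y).card := by
  obtain ⟨i, hi⟩ := hne
  rcases hS i hi with h | h
  · have : 0 < (S.filter fun i => r i = x).card :=
      Finset.card_pos.2 ⟨i, Finset.mem_filter.2 ⟨hi, h⟩⟩
    omega
  · have : 0 < (S.filter fun i => r i = y).card :=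
      Finset.card_pos.2 ⟨i, Finset.mem_filter.2 ⟨hi, h⟩⟩
    omega

/-- all residues are `1` -/
theorem ones {m c : ℕ} (hm : 0 < m) (hc : Nat.Coprime m c) (a : ι → ℕ) (S : Finset ι)
    (h1 : ∀ i ∈ S, (c * a i) % m = 1) (hz : m ∣ ∑ i ∈ S, (c * a i) % m) :
    ∃ k, Blocks m a S k ∧ k * m = ∑ i ∈ S, (c * a i) % m := by
  refine greedy hm hc a (fun S => ∀ i ∈ S, (c * a i) % m = 1) ?_ _ S rfl h1 hz
  intro S hS hne hdvd
  have h2 : ∑ i ∈ S, (c * a i) % m = S.card := by
    rw [Finset.sum_congr rfl hS]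
    simp
  rw [h2] at hdvd
  obtain ⟨T, hT, hTc⟩ := Finset.exists_subset_card_eq (Nat.le_of_dvd hne.card_pos hdvd)
  refine ⟨T, hT, ?_, fun i hi => hS i (Finset.mem_sdiff.1 hi).1⟩
  rw [Finset.sum_congr rfl fun i hi => hS i (hT hi)]
  simpa using hTc

theorem four {c : ℕ} (hc : Nat.Coprime 4 c) (a : ι → ℕ) (S : Finset ι)
    (h1 : ∀ i ∈ S, (c * a i) % 4 = 1 ∨ (c * a i) % 4 = 2)
    (h2 : (S.filter fun i => (c * a i) % 4 = 2).card ≤ 1)
    (hz : 4 ∣ ∑ i ∈ S, (c * a i) % 4) :
    ∃ k, Blocks 4 a S k ∧ k * 4 = ∑ i ∈ S, (c * a i) % 4 := by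
  refine greedy (by norm_num) hc a (fun S => (∀ i ∈ S, (c * a i) % 4 = 1 ∨ (c * a i) % 4 = 2) ∧
    (S.filter fun i => (c * a i) % 4 = 2).card ≤ 1) ?_ _ S rfl ⟨h1, h2⟩ hz
  intro S hS hne hdvd
  obtain ⟨hS, h2⟩ := hS
  have h3 := sum_two (by norm_num) (fun i => (c * a i) % 4) S hS
  have h4 := two_pos (fun i => (c * a i) % 4) S hS hne
  rw [h3] at hdvd
  rcases Nat.eq_zero_or_pos (S.filter fun i => (c * a i) % 4 = 2).card with h5 | h5
  · obtain ⟨T, hT, hTs, hT1, hT2⟩ := pick (x := 1) (y := 2) (by norm_num) (fun i => (c * a i) % 4) S 4 0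
      (by omega) (by omega)
    exact ⟨T, hT, hTs, fun i hi => hS i (Finset.mem_sdiff.1 hi).1, by omega⟩
  · obtain ⟨T, hT, hTs, hT1, hT2⟩ := pick (x := 1) (y := 2) (by norm_num) (fun i => (c * a i) % 4) S 2 1
      (by omega) (by omega)
    exact ⟨T, hT, hTs, fun i hi => hS i (Finset.mem_sdiff.1 hi).1, by omega⟩

theorem five_a {c : ℕ} (hc : Nat.Coprime 5 c) (a : ι → ℕ) (S : Finset ι)
    (h1 : ∀ i ∈ S, (c * a i) % 5 = 1 ∨ (c * a i) % 5 = 2)
    (h2 : (S.filter fun i => (c * a i) % 5 = 2).card ≤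
      2 * (S.filter fun i => (c * a i) % 5 = 1).card)
    (hz : 5 ∣ ∑ i ∈ S, (c * a i) % 5) :
    ∃ k, Blocks 5 a S k ∧ k * 5 = ∑ i ∈ S, (c * a i) % 5 := by
  refine greedy (by norm_num) hc a (fun S => (∀ i ∈ S, (c * a i) % 5 = 1 ∨ (c * a i) % 5 = 2) ∧
    (S.filter fun i => (c * a i) % 5 = 2).card ≤
      2 * (S.filter fun i => (c * a i) % 5 = 1).card) ?_ _ S rfl ⟨h1, h2⟩ hz
  intro S hS hne hdvd
  obtain ⟨hS, h2⟩ := hS
  have h3 := sum_two (by norm_num) (fun i => (c * a i) % 5) S hS
  have h4 := two_pos (fun i => (c * a i) % 5) S hS hne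
  rw [h3] at hdvd
  rcases Nat.lt_or_ge (S.filter fun i => (c * a i) % 5 = 2).card 2 with h5 | h5
  · rcases Nat.eq_zero_or_pos (S.filter fun i => (c * a i) % 5 = 2).card with h6 | h6
    · obtain ⟨T, hT, hTs, hT1, hT2⟩ := pick (x := 1) (y := 2) (by norm_num) (fun i => (c * a i) % 5) S 5 0
        (by omega) (by omega)
      exact ⟨T, hT, hTs, fun i hi => hS i (Finset.mem_sdiff.1 hi).1, by omega⟩
    · obtain ⟨T, hT, hTs, hT1, hT2⟩ := pick (x := 1) (y := 2) (by norm_num) (fun i => (c * a i) % 5) S 3 1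
        (by omega) (by omega)
      exact ⟨T, hT, hTs, fun i hi => hS i (Finset.mem_sdiff.1 hi).1, by omega⟩
  · obtain ⟨T, hT, hTs, hT1, hT2⟩ := pick (x := 1) (y := 2) (by norm_num) (fun i => (c * a i) % 5) S 1 2
      (by omega) (by omega)
    exact ⟨T, hT, hTs, fun i hi => hS i (Finset.mem_sdiff.1 hi).1, by omega⟩

theorem five_b {c : ℕ} (hc : Nat.Coprime 5 c) (a : ι → ℕ) (S : Finset ι)
    (h1 : ∀ i ∈ S, (c * a i) % 5 = 3 ∨ (c * a i) % 5 = 1)
    (h2 : 2 * (S.filter fun i => (c * a i) % 5 = 3).card ≤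
      (S.filter fun i => (c * a i) % 5 = 1).card)
    (hz : 5 ∣ ∑ i ∈ S, (c * a i) % 5) :
    ∃ k, Blocks 5 a S k ∧ k * 5 = ∑ i ∈ S, (c * a i) % 5 := by
  refine greedy (by norm_num) hc a (fun S => (∀ i ∈ S, (c * a i) % 5 = 3 ∨ (c * a i) % 5 = 1) ∧
    2 * (S.filter fun i => (c * a i) % 5 = 3).card ≤
      (S.filter fun i => (c * a i) % 5 = 1).card) ?_ _ S rfl ⟨h1, h2⟩ hz
  intro S hS hne hdvd
  obtain ⟨hS, h2⟩ := hS
  have h3 := sum_two (by norm_num) (fun i => (c * a i) % 5) S hS
  have h4 := two_pos (fun i => (c * a i) % 5) S hS hne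
  rw [h3] at hdvd
  rcases Nat.eq_zero_or_pos (S.filter fun i => (c * a i) % 5 = 3).card with h6 | h6
  · obtain ⟨T, hT, hTs, hT1, hT2⟩ := pick (x := 3) (y := 1) (by norm_num) (fun i => (c * a i) % 5) S 0 5
      (by omega) (by omega)
    exact ⟨T, hT, hTs, fun i hi => hS i (Finset.mem_sdiff.1 hi).1, by omega⟩
  · obtain ⟨T, hT, hTs, hT1, hT2⟩ := pick (x := 3) (y := 1) (by norm_num) (fun i => (c * a i) % 5) S 1 2
      (by omega) (by omega)
    exact ⟨T, hT, hTs, fun i hi => hS i (Finset.mem_sdiff.1 hi).1, by omega⟩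

/-- no zero residues and no complementary pairs -/
def Red (m : ℕ) (a : ι → ℕ) (S : Finset ι) : Prop :=
  (∀ i ∈ S, ¬ m ∣ a i) ∧ ∀ i ∈ S, ∀ j ∈ S, i ≠ j → ¬ m ∣ a i + a j

/-- it suffices to consider the reduced sequences -/
theorem reduce_step {m : ℕ} (a : ι → ℕ)
    (base : ∀ S : Finset ι, m ∣ ∑ i ∈ S, a i → Red m a S →
      ∃ c, Nat.Coprime m c ∧ ∃ k, Blocks m a S k ∧ ∑ i ∈ S, q m c (a i) ≤ k * m) :
    ∀ (n : ℕ) (S : Finset ι), S.card = n → m ∣ ∑ i ∈ S, a i →
      ∃ c, Nat.Coprime m c ∧ ∃ k, Blocks m a S k ∧ ∑ i ∈ S, q m c (a i) ≤ k * m := by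
  intro n
  induction n using Nat.strong_induction_on with
  | _ n ih =>
    intro S hn hdvd
    by_cases hR : Red m a S
    · exact base S hdvd hR
    · rw [Red, not_and_or] at hR
      rcases hR with hR | hR
      · push Not at hR
        obtain ⟨i, hi, hdi⟩ := hR
        have h1 : a i + ∑ j ∈ S.erase i, a j = ∑ j ∈ S, a j := Finset.add_sum_erase S a hi
        have h2 : m ∣ ∑ j ∈ S.erase i, a j := (Nat.dvd_add_right hdi).1 (h1 ▸ hdvd)
        obtain ⟨c, hc, k, hk, hq⟩ := ih _ (by
          rw [← hn]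
          exact Finset.card_erase_lt_of_mem hi) (S.erase i) rfl h2
        refine ⟨c, hc, k + 1, ?_, ?_⟩
        · have h3 : S = {i} ∪ S.erase i := by
            rw [← Finset.insert_eq, Finset.insert_erase hi]
          rw [h3]
          exact Blocks.cons (Finset.singleton_nonempty i)
            (Finset.disjoint_singleton_left.2 (Finset.notMem_erase i S)) (by simpa using hdi) hk
        · rw [← Finset.add_sum_erase S (fun j => q m c (a j)) hi, q_zero hdi, add_mul, one_mul,
            add_comm]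
          omega
      · push Not at hR
        obtain ⟨i, hi, j, hj, hij, hdij⟩ := hR
        by_cases hdi : m ∣ a i
        · have h1 : a i + ∑ j ∈ S.erase i, a j = ∑ j ∈ S, a j := Finset.add_sum_erase S a hi
          have h2 : m ∣ ∑ j ∈ S.erase i, a j := (Nat.dvd_add_right hdi).1 (h1 ▸ hdvd)
          obtain ⟨c, hc, k, hk, hq⟩ := ih _ (by
            rw [← hn]
            exact Finset.card_erase_lt_of_mem hi) (S.erase i) rfl h2
          refine ⟨c, hc, k + 1, ?_, ?_⟩
          · have h3 : S = {i} ∪ S.erase i := by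
              rw [← Finset.insert_eq, Finset.insert_erase hi]
            rw [h3]
            exact Blocks.cons (Finset.singleton_nonempty i)
              (Finset.disjoint_singleton_left.2 (Finset.notMem_erase i S)) (by simpa using hdi) hk
          · rw [← Finset.add_sum_erase S (fun j => q m c (a j)) hi, q_zero hdi, add_mul, one_mul,
              add_comm]
            omega
        · have hj' : j ∈ S.erase i := Finset.mem_erase.2 ⟨hij.symm, hj⟩
          have h1 : a i + ∑ j ∈ S.erase i, a j = ∑ j ∈ S, a j := Finset.add_sum_erase S a hi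
          have h1' : a j + ∑ l ∈ (S.erase i).erase j, a l = ∑ l ∈ S.erase i, a l :=
            Finset.add_sum_erase _ a hj'
          have h2 : m ∣ ∑ l ∈ (S.erase i).erase j, a l := by
            refine (Nat.dvd_add_right hdij).1 ?_
            rw [add_assoc, h1', h1]
            exact hdvd
          have hlt : ((S.erase i).erase j).card < n := by
            have h3 := Finset.card_erase_lt_of_mem hi
            have h4 := Finset.card_erase_lt_of_mem hj'
            omega
          obtain ⟨c, hc, k, hk, hq⟩ := ih _ hlt ((S.erase i).erase j) rfl h2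
          refine ⟨c, hc, k + 1, ?_, ?_⟩
          · have h3 : S = {i, j} ∪ (S.erase i).erase j := by
              ext l
              simp only [Finset.mem_union, Finset.mem_insert, Finset.mem_singleton,
                Finset.mem_erase]
              constructor
              · intro hl
                by_cases h5 : l = i
                · exact Or.inl (Or.inl h5)
                · by_cases h6 : l = j
                  · exact Or.inl (Or.inr h6)
                  · exact Or.inr ⟨h6, h5, hl⟩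
              · rintro ((rfl | rfl) | ⟨-, -, h⟩)
                · exact hi
                · exact hj
                · exact h
            rw [h3]
            refine Blocks.cons ⟨i, by simp⟩ ?_ ?_ hk
            · rw [Finset.disjoint_left]
              intro l hl
              simp only [Finset.mem_insert, Finset.mem_singleton] at hl
              simp only [Finset.mem_erase, not_and]
              rcases hl with rfl | rfl
              · intro _ h
                exact absurd rfl h
              · intro h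
                exact absurd rfl h
            · rw [Finset.sum_pair hij]
              exact hdij
          · rw [← Finset.add_sum_erase S (fun j => q m c (a j)) hi,
              ← Finset.add_sum_erase _ (fun j => q m c (a j)) hj', ← add_assoc,
              q_pair hc hdi hdij, add_mul, one_mul, add_comm]
            omega

omit [DecidableEq ι] in
theorem q_eq {m c : ℕ} (hc : Nat.Coprime m c) (a : ι → ℕ) {S : Finset ι}
    (h : ∀ i ∈ S, ¬ m ∣ a i) : ∑ i ∈ S, q m c (a i) = ∑ i ∈ S, (c * a i) % m := by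
  refine Finset.sum_congr rfl fun i hi => ?_
  rw [q, if_neg fun h2 => h i hi (hc.dvd_of_dvd_mul_left h2)]

omit [DecidableEq ι] in
theorem dvd_mod_sum {m : ℕ} (c : ℕ) (a : ι → ℕ) {S : Finset ι} (h : m ∣ ∑ i ∈ S, a i) :
    m ∣ ∑ i ∈ S, (c * a i) % m := by
  rw [Nat.dvd_iff_mod_eq_zero, ← Finset.sum_nat_mod, ← Finset.mul_sum]
  exact Nat.mod_eq_zero_of_dvd (h.mul_left c)

theorem base_of {m : ℕ} (a : ι → ℕ) {S : Finset ι} (h : ∀ i ∈ S, ¬ m ∣ a i)
    (h2 : ∃ c, Nat.Coprime m c ∧ ∃ k, Blocks m a S k ∧ k * m = ∑ i ∈ S, (c * a i) % m) :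
    ∃ c, Nat.Coprime m c ∧ ∃ k, Blocks m a S k ∧ ∑ i ∈ S, q m c (a i) ≤ k * m := by
  obtain ⟨c, hc, k, hk, hkm⟩ := h2
  exact ⟨c, hc, k, hk, by rw [q_eq hc a h, hkm]⟩

omit [DecidableEq ι] in
/-- the residues in a reduced set -/
theorem red_or {m : ℕ} {a : ι → ℕ} {S : Finset ι} (h : Red m a S) (x y : ℕ) (hxy : x ≠ y)
    (hs : m ∣ x + y) : (∀ i ∈ S, a i % m ≠ x) ∨ ∀ i ∈ S, a i % m ≠ y := by
  by_contra hcon
  push Not at hcon
  obtain ⟨⟨i, hi, hix⟩, j, hj, hjy⟩ := hcon
  refine h.2 i hi j hj ?_ ?_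
  · rintro rfl
    exact hxy (hix.symm.trans hjy)
  · rw [Nat.dvd_iff_mod_eq_zero, Nat.add_mod, hix, hjy]
    exact Nat.mod_eq_zero_of_dvd hs

theorem base_five (a : ι → ℕ) (S : Finset ι) (hz : 5 ∣ ∑ i ∈ S, a i) (h : Red 5 a S) :
    ∃ c, Nat.Coprime 5 c ∧ ∃ k, Blocks 5 a S k ∧ k * 5 = ∑ i ∈ S, (c * a i) % 5 := by
  have key : ∀ c, Nat.Coprime 5 c → (∀ i ∈ S, (c * a i) % 5 = 1 ∨ (c * a i) % 5 = 2) →
      ∃ c, Nat.Coprime 5 c ∧ ∃ k, Blocks 5 a S k ∧ k * 5 = ∑ i ∈ S, (c * a i) % 5 := by
    intro c hc h1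
    rcases le_total (S.filter fun i => (c * a i) % 5 = 2).card
      (2 * (S.filter fun i => (c * a i) % 5 = 1).card) with h2 | h2
    · exact ⟨c, hc, five_a hc a S h1 h2 (dvd_mod_sum c a hz)⟩
    · have hc3 : Nat.Coprime 5 (3 * c) := Nat.Coprime.mul_right (by norm_num) hc
      have e1 : ∀ i, (3 * c * a i) % 5 = (3 * ((c * a i) % 5)) % 5 := fun i => by
        rw [mul_assoc]
        omega
      refine ⟨3 * c, hc3, five_b hc3 a S (fun i hi => ?_) ?_ (dvd_mod_sum _ a hz)⟩
      · rw [e1]
        rcases h1 i hi with h3 | h3 <;> rw [h3] <;> norm_num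
      · have e2 : (S.filter fun i => (3 * c * a i) % 5 = 3) =
            S.filter fun i => (c * a i) % 5 = 1 := by
          refine Finset.filter_congr fun i hi => ?_
          rw [e1]
          rcases h1 i hi with h3 | h3 <;> rw [h3] <;> norm_num
        have e3 : (S.filter fun i => (3 * c * a i) % 5 = 1) =
            S.filter fun i => (c * a i) % 5 = 2 := by
          refine Finset.filter_congr fun i hi => ?_
          rw [e1]
          rcases h1 i hi with h3 | h3 <;> rw [h3] <;> norm_num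
        rw [e2, e3]
        exact h2
  have h0 : ∀ i ∈ S, a i % 5 ≠ 0 := fun i hi h5 => h.1 i hi (Nat.dvd_of_mod_eq_zero h5)
  rcases red_or h 1 4 (by norm_num) (by norm_num) with h14 | h14 <;>
    rcases red_or h 2 3 (by norm_num) (by norm_num) with h23 | h23
  · exact key 4 (by norm_num) fun i hi => by
      have := h0 i hi
      have := h14 i hi
      have := h23 i hi
      have h5 : a i % 5 = 3 ∨ a i % 5 = 4 := by omega
      rcases h5 with h5 | h5 <;> omega
  · exact key 3 (by norm_num) fun i hi => by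
      have := h0 i hi
      have := h14 i hi
      have := h23 i hi
      omega
  · exact key 2 (by norm_num) fun i hi => by
      have := h0 i hi
      have := h14 i hi
      have := h23 i hi
      omega
  · exact key 1 (by norm_num) fun i hi => by
      have := h0 i hi
      have := h14 i hi
      have := h23 i hi
      omega

theorem base_four (a : ι → ℕ) (S : Finset ι) (hz : 4 ∣ ∑ i ∈ S, a i) (h : Red 4 a S) :
    ∃ c, Nat.Coprime 4 c ∧ ∃ k, Blocks 4 a S k ∧ k * 4 = ∑ i ∈ S, (c * a i) % 4 := by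
  have h0 : ∀ i ∈ S, a i % 4 ≠ 0 := fun i hi h5 => h.1 i hi (Nat.dvd_of_mod_eq_zero h5)
  have h2 : (S.filter fun i => a i % 4 = 2).card ≤ 1 := by
    rw [Finset.card_le_one]
    intro i hi j hj
    by_contra hij
    rw [Finset.mem_filter] at hi hj
    exact h.2 i hi.1 j hj.1 hij (by omega)
  rcases red_or h 1 3 (by norm_num) (by norm_num) with h13 | h13
  · refine ⟨3, by norm_num, four (by norm_num) a S (fun i hi => ?_) ?_ (dvd_mod_sum _ a hz)⟩
    · have := h0 i hi
      have := h13 i hi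
      omega
    · have e : (S.filter fun i => (3 * a i) % 4 = 2) = S.filter fun i => a i % 4 = 2 :=
        Finset.filter_congr fun i hi => by omega
      rw [e]
      exact h2
  · refine ⟨1, by norm_num, four (by norm_num) a S (fun i hi => ?_) ?_ (dvd_mod_sum _ a hz)⟩
    · have := h0 i hi
      have := h13 i hi
      omega
    · have e : (S.filter fun i => (1 * a i) % 4 = 2) = S.filter fun i => a i % 4 = 2 :=
        Finset.filter_congr fun i hi => by omega
      rw [e]
      exact h2

theorem base_three (a : ι → ℕ) (S : Finset ι) (hz : 3 ∣ ∑ i ∈ S, a i) (h : Red 3 a S) :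
    ∃ c, Nat.Coprime 3 c ∧ ∃ k, Blocks 3 a S k ∧ k * 3 = ∑ i ∈ S, (c * a i) % 3 := by
  have h0 : ∀ i ∈ S, a i % 3 ≠ 0 := fun i hi h5 => h.1 i hi (Nat.dvd_of_mod_eq_zero h5)
  rcases red_or h 1 2 (by norm_num) (by norm_num) with h13 | h13
  · refine ⟨2, by norm_num, ones (by norm_num) (by norm_num) a S (fun i hi => ?_)
      (dvd_mod_sum _ a hz)⟩
    have := h0 i hi
    have := h13 i hi
    omega
  · refine ⟨1, by norm_num, ones (by norm_num) (by norm_num) a S (fun i hi => ?_)
      (dvd_mod_sum _ a hz)⟩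
    have := h0 i hi
    have := h13 i hi
    omega

theorem base_two (a : ι → ℕ) (S : Finset ι) (hz : 2 ∣ ∑ i ∈ S, a i) (h : Red 2 a S) :
    ∃ c, Nat.Coprime 2 c ∧ ∃ k, Blocks 2 a S k ∧ k * 2 = ∑ i ∈ S, (c * a i) % 2 := by
  refine ⟨1, by norm_num, ones (by norm_num) (by norm_num) a S (fun i hi => ?_)
    (dvd_mod_sum _ a hz)⟩
  have : a i % 2 ≠ 0 := fun h5 => h.1 i hi (Nat.dvd_of_mod_eq_zero h5)
  omega

/-- **Partitions into blocks.** For `1 ≤ m ≤ 5` there are a `c` prime to `m` and a partition of `S`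
into at least `∑ q m c (a i) / m` blocks. -/
theorem exists_blocks {m : ℕ} (hm : 1 ≤ m) (hm5 : m ≤ 5) (a : ι → ℕ) (S : Finset ι)
    (hz : m ∣ ∑ i ∈ S, a i) :
    ∃ c, Nat.Coprime m c ∧ ∃ k, Blocks m a S k ∧ ∑ i ∈ S, q m c (a i) ≤ k * m := by
  refine reduce_step a (fun S hz h => base_of a h.1 ?_) _ S rfl hz
  obtain rfl | rfl | rfl | rfl | rfl : m = 1 ∨ m = 2 ∨ m = 3 ∨ m = 4 ∨ m = 5 := by omega
  · refine ⟨1, by norm_num, 0, ?_, ?_⟩
    · have h1 : S = ∅ := by
        rw [Finset.eq_empty_iff_forall_notMem]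
        intro i hi
        exact h.1 i hi (one_dvd _)
      rw [h1]
      exact Blocks.nil
    · simp [Nat.mod_one]
  · exact base_two a S hz h
  · exact base_three a S hz h
  · exact base_four a S hz h
  · exact base_five a S hz h

theorem base_pm {m : ℕ} (hm : 2 ≤ m) (a : ι → ℕ) (S : Finset ι) (hz : m ∣ ∑ i ∈ S, a i)
    (h : Red m a S) (hpm : ∀ i, m ∣ a i ∨ a i % m = 1 ∨ m ∣ a i + 1) :
    ∃ c, Nat.Coprime m c ∧ ∃ k, Blocks m a S k ∧ k * m = ∑ i ∈ S, (c * a i) % m := by
  by_cases h1 : ∃ i ∈ S, a i % m = 1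
  · obtain ⟨i0, hi0, h0⟩ := h1
    refine ⟨1, by simp, ones (by omega) (by simp) a S (fun i hi => ?_) (dvd_mod_sum _ a hz)⟩
    rw [one_mul]
    rcases hpm i with h2 | h2 | h2
    · exact absurd h2 (h.1 i hi)
    · exact h2
    · by_cases hii : i = i0
      · rw [hii]
        exact h0
      · exfalso
        refine h.2 i hi i0 hi0 hii ?_
        rw [Nat.dvd_iff_mod_eq_zero, Nat.add_mod, h0]
        rw [Nat.dvd_iff_mod_eq_zero, Nat.add_mod, Nat.mod_eq_of_lt (show 1 < m by omega)] at h2
        exact h2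
  · push Not at h1
    have hc : Nat.Coprime m (m - 1) := by
      have h2 : Nat.Coprime (m - 1 + 1) (m - 1) := by simp
      rwa [Nat.sub_add_cancel (by omega)] at h2
    refine ⟨m - 1, hc, ones (by omega) hc a S (fun i hi => ?_) (dvd_mod_sum _ a hz)⟩
    rcases hpm i with h2 | h2 | h2
    · exact absurd h2 (h.1 i hi)
    · exact absurd h2 (h1 i hi)
    · obtain ⟨t, ht⟩ := h2
      have ht0 : 0 < t := by
        rcases Nat.eq_zero_or_pos t with rfl | h
        · omega
        · exact h
      obtain ⟨t, rfl⟩ : ∃ t', t = t' + 1 := ⟨t - 1, by omega⟩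
      obtain ⟨m', rfl⟩ : ∃ m', m = m' + 1 := ⟨m - 1, by omega⟩
      have h3 : a i = (m' + 1) * t + m' := by
        have : (m' + 1) * (t + 1) = (m' + 1) * t + m' + 1 := by ring
        omega
      simp only [Nat.add_sub_cancel]
      have h4 : m' * a i = 1 + (m' + 1) * (m' * t + (m' - 1)) := by
        rw [h3]
        obtain ⟨m'', rfl⟩ : ∃ m'', m' = m'' + 1 := ⟨m' - 1, by omega⟩
        simp only [Nat.add_sub_cancel]
        ring
      rw [h4, Nat.add_mul_mod_self_left]
      exact Nat.mod_eq_of_lt (by omega)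

/-- partitions into blocks for exponents `0`, `1`, `-1` -/
theorem exists_blocks_pm {m : ℕ} (hm : 2 ≤ m) (a : ι → ℕ)
    (hpm : ∀ i, m ∣ a i ∨ a i % m = 1 ∨ m ∣ a i + 1) (S : Finset ι) (hz : m ∣ ∑ i ∈ S, a i) :
    ∃ c, Nat.Coprime m c ∧ ∃ k, Blocks m a S k ∧ ∑ i ∈ S, q m c (a i) ≤ k * m :=
  reduce_step a (fun S hz h => base_of a h.1 (base_pm hm a S hz h hpm)) _ S rfl hz

/-- the condition on the genus gives blocks -/
theorem blocks_of_sums {m N n : ℕ} (hm : 1 ≤ m) (a : Fin N → ℕ)
    (hex : ∃ c, Nat.Coprime m c ∧ ∃ k, Blocks m a Finset.univ k ∧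
      ∑ i, q m c (a i) ≤ k * m) (h : ∀ j : ℕ, ∑ i, (j * a i) % m ≤ n * m) (l : ℕ) (hl : 1 ≤ l)
    (hN : N = n + l) : Blocks m a Finset.univ l := by
  obtain ⟨c, hc, k, hk, hq⟩ := hex
  have h1 : ∀ i, (c * (m - 1) * a i) % m + q m c (a i) = m := by
    intro i
    have e : c * (m - 1) * a i + c * a i = m * (c * a i) := by
      obtain ⟨m, rfl⟩ : ∃ m', m = m' + 1 := ⟨m - 1, by omega⟩
      simp only [Nat.add_sub_cancel]
      ring
    rw [q]
    split_ifs with h2
    · have h3 : m ∣ c * (m - 1) * a i := by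
        rw [mul_right_comm]
        exact h2.mul_right _
      rw [Nat.mod_eq_zero_of_dvd h3, zero_add]
    · have h4 : 0 < (c * a i) % m := Nat.pos_of_ne_zero fun h => h2 (Nat.dvd_of_mod_eq_zero h)
      have h5 : (c * a i) % m < m := Nat.mod_lt _ (by omega)
      have h6 : (c * (m - 1) * a i) % m < m := Nat.mod_lt _ (by omega)
      have h7 : m ∣ (c * (m - 1) * a i) % m + (c * a i) % m := by
        rw [Nat.dvd_iff_mod_eq_zero, ← Nat.add_mod, e]
        exact Nat.mul_mod_right _ _
      obtain ⟨t, ht⟩ := h7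
      have h8 : t < 2 := by
        by_contra h
        have : m * 2 ≤ m * t := Nat.mul_le_mul_left m (by omega)
        omega
      have h9 : 0 < t := by
        rcases Nat.eq_zero_or_pos t with rfl | h
        · omega
        · exact h
      have h10 : t = 1 := by omega
      rw [ht, h10, mul_one]
  have h2 : ∑ i, (c * (m - 1) * a i) % m + ∑ i, q m c (a i) = N * m := by
    rw [← Finset.sum_add_distrib, Finset.sum_congr rfl fun i _ => h1 i]
    simp
  have h3 := h (c * (m - 1))
  have h5 : (n + l) * m ≤ n * m + k * m := by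
    rw [← hN, ← h2]
    omega
  have h6 : l * m ≤ k * m := by
    rw [add_mul] at h5
    omega
  exact hk.reduce hl (Nat.le_of_mul_le_mul_right h6 (by omega))

end Pool.Agent.T9h38.Cyc
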