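import Pool.Agent.W602.GT.Sys

/-!
Regularity of the forms `w⁻¹ dx₁ ∧ ⋯ ∧ dxₙ`, where `w ^ m` is a product of powers of linear forms in
general position.
-/

set_option autoImplicit false
set_option linter.unusedSectionVars false

open FF Pool.Agent.W602.GT

namespace Pool.Agent.T9h38.Cyc

variable {k L : Type} [Field k] [Field L] [Algebra k L]

theorem reg_det {ι : Type} [Fintype ι] [DecidableEq ι] (P : Place k L) (A : Matrix ι ι L)
    (hA : ∀ i j, P.Reg (A i j)) : P.Reg A.det := by
  let B : Matrix ι ι P.O := fun i j => ⟨A i j, hA i j⟩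
  have h : A = P.O.subtype.mapMatrix B := by
    ext i j; rfl
  have h1 : A.det = (B.det : L) := by
    conv_lhs => rw [h]
    exact (RingHom.map_det P.O.subtype B).symm
  rw [h1]
  exact B.det.2

theorem ord_prod (P : Place k L) {ι : Type} (s : Finset ι) (f : ι → L) (hf : ∀ i ∈ s, f i ≠ 0) :
    P.ord (∏ i ∈ s, f i) = ∑ i ∈ s, P.ord (f i) := by
  classical
  induction s using Finset.induction_on with
  | empty => simp [P.ord_one]
  | insert i s hi ih =>
    rw [Finset.prod_insert hi, Finset.sum_insert hi, P.ord_mul (hf i (Finset.mem_insert_self i s))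
      (Finset.prod_ne_zero_iff.2 fun j hj => hf j (Finset.mem_insert_of_mem hj)),
      ih fun j hj => hf j (Finset.mem_insert_of_mem hj)]

/-- **Logarithmic forms have at most simple poles.** -/
theorem log_det (P : Place k L) {n : ℕ} (f : Fin n → L) (hf : ∀ i, f i ≠ 0)
    (D : Fin n → Derivation k L L) (hD : ∀ a, DerReg P (D a)) (t : L) (ht : t ≠ 0)
    (ht1 : P.ord t = 1) :
    P.Reg (t * (Matrix.of fun a j => D a (f j) / f j).det) := by
  let g : Fin n → L := fun j => f j / t ^ (P.ord (f j))
  have htz : ∀ z : ℤ, t ^ z ≠ 0 := fun z => zpow_ne_zero z ht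
  have hg : ∀ j, g j ≠ 0 := fun j => div_ne_zero (hf j) (htz _)
  have hg0 : ∀ j, P.ord (g j) = 0 := fun j => by
    change P.ord (f j / t ^ (P.ord (f j))) = 0
    rw [P.ord_div (hf j) (htz _), P.ord_zpow, ht1]
    ring
  have hfg : ∀ j, f j = t ^ (P.ord (f j)) * g j := fun j => by
    change f j = t ^ (P.ord (f j)) * (f j / t ^ (P.ord (f j)))
    rw [mul_div_cancel₀ _ (htz _)]
  have hz : ∀ (a : Fin n) (z : ℤ), D a (t ^ z) / t ^ z = (z : L) * (D a t / t) := by
    intro a z
    have h1 : D a (t ^ z) = (z : L) * (t ^ z * (t⁻¹ * D a t)) := by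
      cases z with
      | ofNat z =>
        rw [Int.ofNat_eq_natCast, zpow_natCast, (D a).leibniz_pow, smul_eq_mul]
        rcases Nat.eq_zero_or_pos z with rfl | hz
        · simp
        · obtain ⟨z, rfl⟩ : ∃ z', z = z' + 1 := ⟨z - 1, by omega⟩
          simp only [Nat.add_sub_cancel, nsmul_eq_mul, pow_succ]
          push_cast
          field_simp
      | negSucc z =>
        rw [zpow_negSucc, Derivation.leibniz_inv, (D a).leibniz_pow]
        simp only [smul_eq_mul, nsmul_eq_mul, Nat.add_sub_cancel]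
        push_cast
        field_simp
        ring
    rw [h1]
    field_simp
  have hlog : ∀ a j, D a (f j) / f j = (P.ord (f j) : L) * (D a t / t) + D a (g j) / g j := by
    intro a j
    rw [← hz]
    have h0 := hfg j
    have h2 := htz (P.ord (f j))
    have h3 := hg j
    generalize P.ord (f j) = e at h0 h2 ⊢
    rw [h0, (D a).leibniz, smul_eq_mul, smul_eq_mul]
    field_simp
    ring
  have hR : ∀ a j, P.Reg (D a (g j) / g j) := by
    intro a j
    rw [div_eq_mul_inv]
    exact P.reg_mul (hD a _ (Or.inr (hg0 j).ge)) (Or.inr (by rw [P.ord_inv, hg0]; simp))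
  let A : Matrix Unit Unit L := Matrix.of fun _ _ => t
  have hA : A.det = t := by simp [A]
  have hAu : IsUnit A := (Matrix.isUnit_iff_isUnit_det A).2 (by rw [hA]; exact isUnit_iff_ne_zero.2 ht)
  let iA : Invertible A := hAu.invertible
  let B : Matrix Unit (Fin n) L := Matrix.of fun _ j => -(P.ord (f j) : L)
  let C : Matrix (Fin n) Unit L := Matrix.of fun a _ => D a t
  let R : Matrix (Fin n) (Fin n) L := Matrix.of fun a j => D a (g j) / g j
  have hinv : ⅟A = Matrix.of fun _ _ => t⁻¹ := by
    apply invOf_eq_right_inv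
    ext i j
    simp [A, Matrix.mul_apply, ht]
  have h1 : (Matrix.of fun a j => D a (f j) / f j) = R - C * ⅟A * B := by
    rw [hinv]
    ext a j
    simp only [Matrix.of_apply, Matrix.sub_apply, Matrix.mul_apply, R, C, B, Finset.univ_unique,
      Finset.sum_singleton]
    rw [hlog]
    ring
  have h2 : t * (Matrix.of fun a j => D a (f j) / f j).det = (Matrix.fromBlocks A B C R).det := by
    rw [Matrix.det_fromBlocks₁₁, hA, h1]
  rw [h2]
  apply reg_det
  rintro (i | i) (j | j)
  · exact Or.inr (by change 0 ≤ P.ord t; omega)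
  · change P.Reg (-(P.ord (f j) : L))
    apply P.reg_neg
    have h3 : ((P.ord (f j) : ℤ) : L) = algebraMap k L (P.ord (f j) : k) := by simp
    rw [h3]
    exact P.reg_const _
  · exact hD i t (Or.inr (by omega))
  · exact hR i j

/-- the matrix of the values and of the derivatives of the functions `v i` -/
def vm {n : ℕ} (v : Fin (n + 1) → L) (D : Fin n → Derivation k L L) :
    Matrix (Fin (n + 1)) (Fin (n + 1)) L :=
  Matrix.of fun r i => (Fin.cons (v i) (fun a => D a (v i)) : Fin (n + 1) → L) r

theorem vm_one {n : ℕ} (v : Fin (n + 1) → L) (D : Fin n → Derivation k L L) (h : v 0 = 1) :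
    (vm v D).det = (Matrix.of fun a (i : Fin n) => D a (v i.succ)).det := by
  rw [Matrix.det_succ_column_zero, Fin.sum_univ_succ]
  have h1 : ∑ i : Fin n, (-1 : L) ^ ((i.succ : Fin (n + 1)) : ℕ) * vm v D i.succ 0 *
      ((vm v D).submatrix i.succ.succAbove Fin.succ).det = 0 := by
    refine Finset.sum_eq_zero fun i _ => ?_
    have h2 : vm v D i.succ 0 = 0 := by
      change D i (v 0) = 0
      rw [h]
      simp
    rw [h2]
    ring
  rw [h1, add_zero]
  have h3 : vm v D 0 0 = 1 := h
  rw [h3]
  simp only [Fin.val_zero, pow_zero, one_mul]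
  rfl

theorem vm_scale {n : ℕ} (g : L) (v : Fin (n + 1) → L) (D : Fin n → Derivation k L L) :
    (vm (fun i => g * v i) D).det = g ^ (n + 1) * (vm v D).det := by
  let T : Matrix (Fin (n + 1)) (Fin (n + 1)) L := Matrix.of fun r s =>
    if r = s then g else if s = 0 then (Fin.cons 0 (fun a => D a g) : Fin (n + 1) → L) r else 0
  have hT : T.det = g ^ (n + 1) := by
    rw [Matrix.det_of_isLowerTriangular T]
    · simp [T]
    · intro i j hij
      have hij' : i < j := hij
      have h1 : i ≠ j := hij'.ne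
      have h2 : j ≠ 0 := fun h => by
        rw [h] at hij'
        exact absurd hij' (Fin.not_lt_zero i)
      simp [T, h1, h2]
  have h1 : vm (fun i => g * v i) D = T * vm v D := by
    ext r i
    rw [Matrix.mul_apply]
    refine Fin.cases ?_ (fun a => ?_) r
    · rw [Fin.sum_univ_succ]
      have h2 : ∑ j : Fin n, T 0 j.succ * vm v D j.succ i = 0 :=
        Finset.sum_eq_zero fun j _ => by
          have h3 : T 0 j.succ = 0 := by
            simp [T, (Fin.succ_ne_zero j).symm]
          rw [h3, zero_mul]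
      rw [h2, add_zero]
      simp [T, vm]
    · have h2 : ∑ j : Fin (n + 1), T a.succ j * vm v D j i =
          D a g * v i + g * D a (v i) := by
        rw [Fin.sum_univ_succ]
        have h3 : T a.succ 0 = D a g := by
          simp [T, Fin.succ_ne_zero a]
        have h4 : ∑ j : Fin n, T a.succ j.succ * vm v D j.succ i = g * D a (v i) := by
          rw [Finset.sum_eq_single a]
          · simp [T, vm]
          · intro j _ hj
            have h5 : T a.succ j.succ = 0 := by
              have h6 : ¬ a = j := fun h => hj h.symm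
              simp [T, h6, Fin.succ_ne_zero j]
            rw [h5, zero_mul]
          · intro h
            exact absurd (Finset.mem_univ a) h
        rw [h3, h4]
        rfl
      rw [h2]
      change D a (g * v i) = _
      rw [(D a).leibniz, smul_eq_mul, smul_eq_mul]
      ring
  rw [h1, Matrix.det_mul, hT]

theorem vm_lin {n : ℕ} (A : Matrix (Fin (n + 1)) (Fin (n + 1)) k) (X : Fin (n + 1) → L)
    (D : Fin n → Derivation k L L) :
    (vm (fun i => ∑ j, A i j • X j) D).det = algebraMap k L A.det * (vm X D).det := by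
  have h1 : vm (fun i => ∑ j, A i j • X j) D = vm X D * (A.map (algebraMap k L)).transpose := by
    ext r i
    rw [Matrix.mul_apply]
    refine Fin.cases ?_ (fun a => ?_) r
    · change ∑ j, A i j • X j = ∑ j, X j * (algebraMap k L) (A i j)
      exact Finset.sum_congr rfl fun j _ => by rw [Algebra.smul_def, mul_comm]
    · change D a (∑ j, A i j • X j) = ∑ j, D a (X j) * (algebraMap k L) (A i j)
      rw [map_sum]
      exact Finset.sum_congr rfl fun j _ => by rw [(D a).map_smul, Algebra.smul_def, mul_comm]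
  rw [h1, Matrix.det_mul, Matrix.det_transpose, mul_comm]
  congr 1
  exact (RingHom.map_det (algebraMap k L) A).symm

/-- the homogeneous coordinates -/
def hom {n : ℕ} (x : Fin n → L) : Fin (n + 1) → L := Fin.cons 1 x

/-- the linear form with the coefficients `c` -/
def lin {n : ℕ} (x : Fin n → L) (c : Fin (n + 1) → k) : L := ∑ j, c j • hom x j

theorem lin_ne {n : ℕ} {x : Fin n → L} (hx : AlgebraicIndependent k x) {c : Fin (n + 1) → k}
    (hc : c ≠ 0) : lin x c ≠ 0 := by
  intro h
  apply hc
  have h1 : MvPolynomial.aeval x (MvPolynomial.C (c 0) +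
      ∑ j : Fin n, MvPolynomial.C (c j.succ) * MvPolynomial.X j) = 0 := by
    rw [← h, lin, Fin.sum_univ_succ]
    simp [hom, Algebra.smul_def]
  have h2 := (algebraicIndependent_iff.1 hx) _ h1
  have h3 : ∀ j : Fin n, c j.succ = 0 := by
    intro j
    have h4 := congrArg (MvPolynomial.coeff (Finsupp.single j 1)) h2
    rw [MvPolynomial.coeff_add, MvPolynomial.coeff_sum, MvPolynomial.coeff_zero] at h4
    rw [MvPolynomial.coeff_C, if_neg (by
      intro h5
      have := congrArg (fun f => f j) h5
      simp at this), zero_add] at h4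
    rw [Finset.sum_eq_single j] at h4
    · rw [MvPolynomial.coeff_C_mul, MvPolynomial.coeff_X, if_pos rfl, mul_one] at h4
      exact h4
    · intro i _ hij
      rw [MvPolynomial.coeff_C_mul, MvPolynomial.coeff_X, if_neg, mul_zero]
      intro h5
      exact hij (Finsupp.single_left_injective one_ne_zero h5)
    · intro h5
      exact absurd (Finset.mem_univ j) h5
  have h4 : c 0 = 0 := by
    have h5 : ∑ j : Fin n, MvPolynomial.C (c j.succ) * (MvPolynomial.X j : MvPolynomial _ k) = 0 :=
      Finset.sum_eq_zero fun j _ => by rw [h3 j, MvPolynomial.C_0, zero_mul]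
    rw [h5, add_zero] at h2
    exact MvPolynomial.C_eq_zero.1 h2
  funext j
  refine Fin.cases h4 (fun j => h3 j) j

/-- the vectors `c i` are in general position -/
def GenPos {N n : ℕ} (c : Fin N → Fin (n + 1) → k) : Prop :=
  ∀ s : Finset (Fin N), s.card ≤ n + 1 → LinearIndependent k (fun i : s => c i)

theorem GenPos.ne_zero {N n : ℕ} {c : Fin N → Fin (n + 1) → k} (h : GenPos c) (i : Fin N) :
    c i ≠ 0 := by
  have h1 := h {i} (by simp)
  exact h1.ne_zero (⟨i, Finset.mem_singleton_self i⟩ : ({i} : Finset (Fin N)))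

theorem lin_single {n : ℕ} (x : Fin n → L) (j : Fin (n + 1)) :
    lin x (Pi.single j (1 : k)) = hom x j := by
  rw [lin, Finset.sum_eq_single j]
  · simp
  · intro i _ hij
    simp [Pi.single_eq_of_ne hij]
  · intro h
    exact absurd (Finset.mem_univ j) h

theorem lin_add {n : ℕ} (x : Fin n → L) (c d : Fin (n + 1) → k) :
    lin x (c + d) = lin x c + lin x d := by
  simp only [lin, Pi.add_apply, add_smul, Finset.sum_add_distrib]

theorem lin_smul {n : ℕ} (x : Fin n → L) (r : k) (c : Fin (n + 1) → k) :
    lin x (r • c) = r • lin x c := by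
  simp only [lin, Pi.smul_apply, smul_eq_mul, mul_smul, Finset.smul_sum]

theorem lin_zero {n : ℕ} (x : Fin n → L) : lin x (0 : Fin (n + 1) → k) = 0 := by
  simp [lin]

theorem ge_add (P : Place k L) {f g : L} {a : ℤ} (hf : f = 0 ∨ a ≤ P.ord f)
    (hg : g = 0 ∨ a ≤ P.ord g) : f + g = 0 ∨ a ≤ P.ord (f + g) := by
  by_cases h1 : f = 0
  · rwa [h1, zero_add]
  by_cases h2 : g = 0
  · rwa [h2, add_zero]
  by_cases h3 : f + g = 0
  · exact Or.inl h3
  · exact Or.inr ((le_min (hf.resolve_left h1) (hg.resolve_left h2)).trans (P.ord_add h1 h2 h3))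

theorem ge_smul (P : Place k L) {f : L} {a : ℤ} (r : k) (hf : f = 0 ∨ a ≤ P.ord f) :
    r • f = 0 ∨ a ≤ P.ord (r • f) := by
  by_cases hr : r = 0
  · left; simp [hr]
  by_cases h1 : f = 0
  · left; simp [h1]
  · right
    rw [Algebra.smul_def, P.ord_mul (by simpa using hr) h1, P.ord_const hr, zero_add]
    exact hf.resolve_left h1

theorem ge_sum (P : Place k L) {ι : Type} (s : Finset ι) (f : ι → L) {a : ℤ}
    (h : ∀ i ∈ s, f i = 0 ∨ a ≤ P.ord (f i)) : ∑ i ∈ s, f i = 0 ∨ a ≤ P.ord (∑ i ∈ s, f i) := by
  classical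
  induction s using Finset.induction_on with
  | empty => left; simp
  | insert i s hi ih =>
    rw [Finset.sum_insert hi]
    exact ge_add P (h i (Finset.mem_insert_self i s))
      (ih fun j hj => h j (Finset.mem_insert_of_mem hj))

/-- a basis which begins with a given vector and contains given vectors -/
theorem exists_basis {n : ℕ} {s : Set (Fin (n + 1) → k)} (hs : LinearIndepOn k id s)
    {u : Fin (n + 1) → k} (hu : u ∈ s) :
    ∃ v : Fin (n + 1) → Fin (n + 1) → k, LinearIndependent k v ∧ v 0 = u ∧ s ⊆ Set.range v := by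
  classical
  let b := Module.Basis.extend hs
  have hfin : Fintype (hs.extend (Set.subset_univ s)) := FiniteDimensional.fintypeBasisIndex b
  have hcard : Fintype.card (hs.extend (Set.subset_univ s)) = n + 1 := by
    rw [← Module.finrank_eq_card_basis b]
    simp
  let e : Fin (n + 1) ≃ (hs.extend (Set.subset_univ s)) := (Fintype.equivFinOfCardEq hcard).symm
  let u' : hs.extend (Set.subset_univ s) := ⟨u, hs.subset_extend _ hu⟩
  let e' : Fin (n + 1) ≃ (hs.extend (Set.subset_univ s)) := (Equiv.swap 0 (e.symm u')).trans e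
  refine ⟨fun i => b (e' i), b.linearIndependent.comp _ e'.injective, ?_, ?_⟩
  · change b (e (Equiv.swap 0 (e.symm u') 0)) = u
    rw [Equiv.swap_apply_left, Equiv.apply_symm_apply, Module.Basis.extend_apply_self]
  · intro v hv
    refine ⟨e'.symm ⟨v, hs.subset_extend _ hv⟩, ?_⟩
    change b (e' (e'.symm _)) = v
    rw [Equiv.apply_symm_apply, Module.Basis.extend_apply_self]

/-- **Regularity.** The form `w⁻¹ dx₁ ∧ ⋯ ∧ dxₙ` is regular, if `w ^ m` is a product of powers with
exponents less than `m` of linear forms in general position, of total degree at least `m (n + 1)`. -/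
theorem reg_form (P : Place k L) {n N m : ℕ} (hm : 1 ≤ m) {x : Fin n → L} (hx : AlgebraicIndependent k x)
    {c : Fin N → Fin (n + 1) → k} (hc : GenPos c) (e : Fin N → ℕ) (he : ∀ i, e i < m)
    (hE : m * (n + 1) ≤ ∑ i, e i) {w : L} (hw0 : w ≠ 0)
    (hw : w ^ m = ∏ i, lin x (c i) ^ e i) (D : Fin n → Derivation k L L)
    (hD : ∀ a, DerReg P (D a)) :
    P.Reg (w⁻¹ * (Matrix.of fun a i => D a (x i)).det) := by
  classical
  -- the linear form of the smallest order
  obtain ⟨k0, hk0⟩ := Finite.exists_min fun j : Fin (n + 1) => P.ord (hom x j)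
  have hsingle : (Pi.single k0 (1 : k) : Fin (n + 1) → k) ≠ 0 := fun h => by
    have := congrFun h k0
    simp at this
  set v0 : L := hom x k0 with hv0
  have hv0l : lin x (Pi.single k0 (1 : k)) = v0 := lin_single x k0
  have hv0ne : v0 ≠ 0 := by
    rw [← hv0l]
    exact lin_ne hx hsingle
  have hv0le : P.ord v0 ≤ 0 := by
    have h1 := hk0 0
    have h2 : hom x 0 = 1 := rfl
    rw [h2, P.ord_one] at h1
    exact h1
  have hmin : ∀ d : Fin (n + 1) → k, d ≠ 0 → P.ord v0 ≤ P.ord (lin x d) := by
    intro d hd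
    have h1 := ge_sum P Finset.univ (fun j => d j • hom x j) (a := P.ord v0)
      fun j _ => ge_smul P (d j) (Or.inr (hk0 j))
    exact h1.resolve_left (lin_ne hx hd)
  -- the hyperplanes through the centre
  let S : Finset (Fin N) := Finset.univ.filter fun i => P.ord v0 < P.ord (lin x (c i))
  have hspan : ∀ (s : Finset (Fin N)), s ⊆ S → ∀ d ∈ Submodule.span k (c '' s),
      lin x d = 0 ∨ P.ord v0 + 1 ≤ P.ord (lin x d) := by
    intro s hs d hd
    induction hd using Submodule.span_induction with
    | mem d hd =>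
      obtain ⟨i, hi, rfl⟩ := hd
      have h1 : P.ord v0 < P.ord (lin x (c i)) := (Finset.mem_filter.1 (hs hi)).2
      exact Or.inr (by omega)
    | zero => exact Or.inl (lin_zero x)
    | add f g _ _ hf hg =>
      rw [lin_add]
      exact ge_add P hf hg
    | smul r f _ hf =>
      rw [lin_smul]
      exact ge_smul P r hf
  have hnot : ∀ (s : Finset (Fin N)), s ⊆ S →
      (Pi.single k0 (1 : k) : Fin (n + 1) → k) ∉ Submodule.span k (c '' s) := by
    intro s hs h
    rcases hspan s hs _ h with h1 | h1
    · exact lin_ne hx hsingle h1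
    · rw [hv0l] at h1
      omega
  have hScard : S.card ≤ n := by
    by_contra hcon
    obtain ⟨s, hs, hsc⟩ := Finset.exists_subset_card_eq (show n + 1 ≤ S.card by omega)
    have h1 := hc s (by omega)
    have h2 : Submodule.span k (Set.range fun i : s => c i) = ⊤ := by
      apply h1.span_eq_top_of_card_eq_finrank'
      simp [hsc]
    apply hnot s hs
    have h3 : (Set.range fun i : s => c i) = c '' s := by
      ext d
      simp
    rw [← h3, h2]
    trivial
  have hSind := hc S (by omega)
  have hSinj : ∀ i ∈ S, ∀ j ∈ S, c i = c j → i = j := by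
    intro i hi j hj hij
    have h1 := hSind.injective (a₁ := (⟨i, hi⟩ : S)) (a₂ := (⟨j, hj⟩ : S)) hij
    exact congrArg Subtype.val h1
  have himg : (Set.range fun i : S => c i) = c '' (S : Set (Fin N)) := by
    ext d
    simp
  have hset : LinearIndepOn k id (insert (Pi.single k0 (1 : k)) (c '' (S : Set (Fin N)))) := by
    refine LinearIndepOn.id_insert ?_ (hnot S (Finset.Subset.refl S))
    rw [← himg]
    exact hSind.linearIndepOn_id
  obtain ⟨v, hv, hv00, hvS⟩ := exists_basis hset (Set.mem_insert _ _)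
  have hvne : ∀ j, v j ≠ 0 := fun j => hv.ne_zero j
  -- the index of a hyperplane through the centre in the basis
  have hex : ∀ i : S, ∃ j : Fin n, v j.succ = c i := by
    intro i
    obtain ⟨j, hj⟩ := hvS (Set.mem_insert_of_mem _ ⟨i, i.2, rfl⟩)
    have hj' : v j = c i := hj
    refine Fin.cases (fun h => ?_) (fun j h => ⟨j, h⟩) j hj'
    exfalso
    rw [hv00] at h
    apply hnot {(i : Fin N)} (Finset.singleton_subset_iff.2 i.2)
    rw [h]
    exact Submodule.subset_span ⟨i, by simp, rfl⟩
  choose φ hφ using hex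
  have hφinj : Function.Injective φ := by
    intro i j hij
    have h1 : c i = c j := by rw [← hφ i, ← hφ j, hij]
    exact Subtype.ext (hSinj i i.2 j j.2 h1)
  -- the coordinates
  let f : Fin n → L := fun j => lin x (v j.succ) / v0
  have hf0 : ∀ j, f j ≠ 0 := fun j => div_ne_zero (lin_ne hx (hvne _)) hv0ne
  have hford : ∀ j, P.ord (f j) = P.ord (lin x (v j.succ)) - P.ord v0 := fun j =>
    P.ord_div (lin_ne hx (hvne _)) hv0ne
  have hfge : ∀ j, 0 ≤ P.ord (f j) := fun j => by
    rw [hford]
    have := hmin _ (hvne j.succ)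
    omega
  let W : ℤ := ∑ j, P.ord (f j)
  have hW0 : 0 ≤ W := Finset.sum_nonneg fun j _ => hfge j
  -- the determinants
  let A : Matrix (Fin (n + 1)) (Fin (n + 1)) k := Matrix.of v
  have hA : A.det ≠ 0 := by
    have h1 : LinearIndependent k A.row := hv
    rw [Matrix.linearIndependent_rows_iff_isUnit, Matrix.isUnit_iff_isUnit_det] at h1
    exact h1.ne_zero
  have hdet : algebraMap k L A.det * (Matrix.of fun a i => D a (x i)).det =
      v0 ^ (n + 1) * (Matrix.of fun a i => D a (f i)).det := by
    have h1 : (vm (hom x) D).det = (Matrix.of fun a i => D a (x i)).det := by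
      rw [vm_one _ _ rfl]
      rfl
    rw [← h1, ← vm_lin]
    have h2 : (fun i => ∑ j, A i j • hom x j) = fun i => v0 * (lin x (v i) / v0) := by
      funext i
      rw [mul_div_cancel₀ _ hv0ne]
      rfl
    rw [h2, vm_scale, vm_one _ _ (by rw [hv00, hv0l, div_self hv0ne])]
  have hval : (Matrix.of fun a i => D a (x i)).det =
      algebraMap k L A.det⁻¹ * (v0 ^ (n + 1) * (Matrix.of fun a i => D a (f i)).det) := by
    rw [← hdet, ← mul_assoc, ← map_mul, inv_mul_cancel₀ hA, map_one, one_mul]
  -- the order of the last determinant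
  have hord : (Matrix.of fun a i => D a (f i)).det = 0 ∨
      (if W = 0 then 0 else W - 1) ≤ P.ord (Matrix.of fun a i => D a (f i)).det := by
    by_cases hdz : (Matrix.of fun a i => D a (f i)).det = 0
    · exact Or.inl hdz
    right
    split_ifs with hW
    · have h1 : ∀ j, P.ord (f j) = 0 := fun j =>
        (Finset.sum_eq_zero_iff_of_nonneg fun j _ => hfge j).1 hW j (Finset.mem_univ j)
      have h2 : P.Reg (Matrix.of fun a i => D a (f i)).det :=
        reg_det P _ fun a j => hD a _ (Or.inr (h1 j).ge)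
      exact (P.reg_iff hdz).1 h2
    · obtain ⟨t, ht, ht1⟩ := P.surj
      have h1 := log_det P f hf0 D hD t ht ht1
      have h2 : (Matrix.of fun a i => D a (f i)).det =
          (∏ j, f j) * (Matrix.of fun a j => D a (f j) / f j).det := by
        have h3 : (Matrix.of fun a i => D a (f i)) =
            Matrix.of fun a j => f j * (Matrix.of fun a j => D a (f j) / f j) a j := by
          ext a j
          rw [Matrix.of_apply, Matrix.of_apply, Matrix.of_apply, mul_div_cancel₀ _ (hf0 j)]
        rw [h3, Matrix.det_mul_row]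
      have h3 : (Matrix.of fun a j => D a (f j) / f j).det ≠ 0 := by
        intro h
        apply hdz
        rw [h2, h, mul_zero]
      have h4 := (P.reg_iff (mul_ne_zero ht h3)).1 h1
      rw [P.ord_mul ht h3, ht1] at h4
      rw [h2, P.ord_mul (Finset.prod_ne_zero_iff.2 fun j _ => hf0 j) h3,
        ord_prod P _ _ fun j _ => hf0 j]
      change W - 1 ≤ W + _
      omega
  rcases hord with hord | hord
  · left
    rw [hval, hord, mul_zero, mul_zero, mul_zero]
  by_cases hdz : (Matrix.of fun a i => D a (f i)).det = 0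
  · left
    rw [hval, hdz, mul_zero, mul_zero, mul_zero]
  right
  have hAi : algebraMap k L A.det⁻¹ ≠ 0 := by simpa using hA
  rw [hval, P.ord_mul (inv_ne_zero hw0) (mul_ne_zero hAi (mul_ne_zero (pow_ne_zero _ hv0ne) hdz)),
    P.ord_mul hAi (mul_ne_zero (pow_ne_zero _ hv0ne) hdz), P.ord_const (inv_ne_zero hA),
    P.ord_mul (pow_ne_zero _ hv0ne) hdz, P.ord_pow, P.ord_inv]
  -- the order of `w`
  have hwo : (m : ℤ) * P.ord w = ∑ i, (e i : ℤ) * P.ord (lin x (c i)) := by
    rw [← P.ord_pow, hw, ord_prod P _ _ fun i _ => pow_ne_zero _ (lin_ne hx (hc.ne_zero i))]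
    exact Finset.sum_congr rfl fun i _ => P.ord_pow _ _
  have hwo2 : ∑ i, (e i : ℤ) * P.ord (lin x (c i)) =
      (∑ i, (e i : ℤ)) * P.ord v0 + ∑ i ∈ S, (e i : ℤ) * (P.ord (lin x (c i)) - P.ord v0) := by
    have h1 : ∑ i ∈ S, (e i : ℤ) * (P.ord (lin x (c i)) - P.ord v0) =
        ∑ i, (e i : ℤ) * (P.ord (lin x (c i)) - P.ord v0) := by
      refine Finset.sum_subset (Finset.subset_univ S) fun i _ hi => ?_
      have h2 : ¬ P.ord v0 < P.ord (lin x (c i)) := fun h => hi (Finset.mem_filter.2
        ⟨Finset.mem_univ i, h⟩)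
      have h3 := hmin _ (hc.ne_zero i)
      have h4 : P.ord (lin x (c i)) - P.ord v0 = 0 := by omega
      rw [h4, mul_zero]
    rw [h1, Finset.sum_mul, ← Finset.sum_add_distrib]
    exact Finset.sum_congr rfl fun i _ => by ring
  have hwo3 : ∑ i ∈ S, (e i : ℤ) * (P.ord (lin x (c i)) - P.ord v0) ≤ ((m : ℤ) - 1) * W := by
    have h1 : ∑ i ∈ S, (e i : ℤ) * (P.ord (lin x (c i)) - P.ord v0) ≤
        ∑ i ∈ S, ((m : ℤ) - 1) * (P.ord (lin x (c i)) - P.ord v0) := by
      refine Finset.sum_le_sum fun i hi => ?_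
      have h2 : P.ord v0 < P.ord (lin x (c i)) := (Finset.mem_filter.1 hi).2
      have h3 : (e i : ℤ) ≤ (m : ℤ) - 1 := by
        have := he i
        omega
      exact mul_le_mul_of_nonneg_right h3 (by omega)
    have h2 : ∑ i ∈ S, (P.ord (lin x (c i)) - P.ord v0) ≤ W := by
      have h3 : ∑ i ∈ S, (P.ord (lin x (c i)) - P.ord v0) = ∑ i : S, P.ord (f (φ i)) := by
        rw [← Finset.sum_coe_sort S]
        refine Finset.sum_congr rfl fun i _ => ?_
        rw [hford, hφ]
      have h4 : ∑ i : S, P.ord (f (φ i)) = ∑ j ∈ Finset.univ.image φ, P.ord (f j) := by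
        rw [Finset.sum_image fun i _ j _ hij => hφinj hij]
      rw [h3, h4]
      exact Finset.sum_le_sum_of_subset_of_nonneg (Finset.subset_univ _) fun j _ _ => hfge j
    rw [← Finset.mul_sum] at h1
    exact h1.trans (mul_le_mul_of_nonneg_left h2 (by omega))
  have hEz : (m : ℤ) * ((n : ℤ) + 1) ≤ ∑ i, (e i : ℤ) := by
    have h1 : ((m * (n + 1) : ℕ) : ℤ) ≤ ((∑ i, e i : ℕ) : ℤ) := by exact_mod_cast hE
    push_cast at h1
    exact h1
  rw [hwo2] at hwo
  push_cast
  generalize P.ord w = ow at hwo ⊢
  generalize P.ord (Matrix.of fun a i => D a (f i)).det = o at hord ⊢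
  generalize ∑ i ∈ S, (e i : ℤ) * (P.ord (lin x (c i)) - P.ord v0) = T at hwo hwo3
  generalize ∑ i, (e i : ℤ) = E' at hwo hEz
  generalize P.ord v0 = v' at hwo hv0le ⊢
  have hmz : (1 : ℤ) ≤ m := by exact_mod_cast hm
  have h1 : 0 ≤ (E' - (m : ℤ) * ((n : ℤ) + 1)) * (-v') :=
    mul_nonneg (by linarith) (by linarith)
  by_contra hneg
  push Not at hneg
  have h2 : (m : ℤ) * (-ow + (0 + (((n : ℤ) + 1) * v' + o))) ≤ -m := by
    have h3 : -ow + (0 + (((n : ℤ) + 1) * v' + o)) ≤ -1 := by omega
    nlinarith
  split_ifs at hord with hW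
  · have h3 : 0 ≤ (m : ℤ) * o := mul_nonneg (by linarith) hord
    rw [hW] at hwo3
    nlinarith
  · have h3 : (m : ℤ) * (W - 1) ≤ m * o := mul_le_mul_of_nonneg_left hord (by linarith)
    have h4 : 1 ≤ W := by omega
    nlinarith

end Pool.Agent.T9h38.Cyc
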