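import Pool.Agent.T9h38.Cyc.ZeroFree

/-!
Long sequences with sum zero in `ℤ/m`: the maximal number of classes is the minimal norm.
-/

set_option autoImplicit false

namespace Pool.Agent.T9h38.Cyc

variable {ι : Type} [DecidableEq ι]

section blocks

variable {m : ℕ} {a b : ι → ℕ} {S S' : Finset ι} {k k' : ℕ}

theorem Blocks.union (h : Blocks m a S k) (h' : Blocks m a S' k') (hd : Disjoint S S') :
    Blocks m a (S ∪ S') (k + k') := by
  induction h with
  | nil => rwa [Finset.empty_union, Nat.zero_add]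
  | @cons T S k hT hd' hz h ih =>
    rw [Finset.disjoint_union_left] at hd
    rw [Finset.union_assoc, Nat.add_right_comm]
    refine Blocks.cons hT ?_ hz (ih hd.2)
    rw [Finset.disjoint_union_right]
    exact ⟨hd', hd.1⟩

theorem Blocks.congr (hab : ∀ T : Finset ι, m ∣ ∑ i ∈ T, a i → m ∣ ∑ i ∈ T, b i)
    (h : Blocks m a S k) : Blocks m b S k := by
  induction h with
  | nil => exact Blocks.nil
  | cons hT hd hz h ih => exact Blocks.cons hT hd (hab _ hz) ih

theorem Blocks.one (hS : S.Nonempty) (hz : m ∣ ∑ i ∈ S, a i) : Blocks m a S 1 := by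
  have h := Blocks.cons hS (Finset.disjoint_empty_right S) hz Blocks.nil
  rwa [Finset.union_empty] at h

theorem Blocks.card_le (h : Blocks m a S k) : k ≤ S.card := by
  induction h with
  | nil => simp
  | @cons T S k hT hd hz h ih =>
    rw [Finset.card_union_of_disjoint hd]
    have := hT.card_pos
    omega

theorem Blocks.zero (h : Blocks m a S 0) : S = ∅ := by
  cases h with
  | nil => rfl

theorem Blocks.singletons (Z : Finset ι) (h : ∀ i ∈ Z, m ∣ a i) : Blocks m a Z Z.card := by
  induction Z using Finset.induction_on with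
  | empty => exact Blocks.nil
  | insert i Z hi ih =>
    rw [Finset.card_insert_of_notMem hi, Finset.insert_eq]
    refine Blocks.cons (Finset.singleton_nonempty i) (Finset.disjoint_singleton_left.2 hi) ?_
      (ih fun j hj => h j (Finset.mem_insert_of_mem hj))
    rw [Finset.sum_singleton]
    exact h i (Finset.mem_insert_self i Z)

/-- a large class -/
theorem Blocks.large {h0 : ℕ} (h : Blocks m a S k) (hc : k * h0 + 1 ≤ S.card) :
    ∃ T ⊆ S, T.Nonempty ∧ m ∣ ∑ i ∈ T, a i ∧ h0 + 1 ≤ T.card ∧ Blocks m a (S \ T) (k - 1) := by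
  induction h with
  | nil => simp at hc
  | @cons T S k hT hd hz h ih =>
    rcases Nat.lt_or_ge h0 T.card with h1 | h1
    · refine ⟨T, Finset.subset_union_left, hT, hz, h1, ?_⟩
      rw [Finset.union_sdiff_cancel_left hd]
      exact h
    · rw [Finset.card_union_of_disjoint hd] at hc
      have h2 : k * h0 + 1 ≤ S.card := by
        rw [add_mul, one_mul] at hc
        omega
      obtain ⟨T', hT', h3, h4, h5, h6⟩ := ih h2
      have hk : k ≠ 0 := by
        rintro rfl
        have := h.zero
        rw [this] at h2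
        simp at h2
      refine ⟨T', hT'.trans Finset.subset_union_right, h3, h4, h5, ?_⟩
      have h7 : (T ∪ S) \ T' = T ∪ (S \ T') := by
        rw [Finset.union_sdiff_distrib, Finset.sdiff_eq_self_of_disjoint
          (hd.mono_right hT')]
      rw [h7]
      have h8 := Blocks.cons hT (hd.mono_right Finset.sdiff_subset) hz h6
      have h9 : k - 1 + 1 = k + 1 - 1 := by omega
      rwa [h9] at h8

/-- three classes -/
theorem three_blocks {W1 W2 : Finset ι} (h1 : W1 ⊆ S) (h2 : W2 ⊆ S) (hd : Disjoint W1 W2)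
    (hn1 : W1.Nonempty) (hn2 : W2.Nonempty) (hz1 : m ∣ ∑ i ∈ W1, a i) (hz2 : m ∣ ∑ i ∈ W2, a i)
    (hz : m ∣ ∑ i ∈ S, a i) (hne : (S \ (W1 ∪ W2)).Nonempty) : Blocks m a S 3 := by
  have h3 : m ∣ ∑ i ∈ S \ (W1 ∪ W2), a i := by
    have h4 := Finset.sum_sdiff (f := a) (Finset.union_subset h1 h2)
    rw [Finset.sum_union hd] at h4
    rw [← h4] at hz
    exact (Nat.dvd_add_left (dvd_add hz1 hz2)).1 hz
  have h5 : S = W1 ∪ (W2 ∪ (S \ (W1 ∪ W2))) := by
    rw [← Finset.union_assoc, Finset.union_sdiff_of_subset (Finset.union_subset h1 h2)]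
  rw [h5]
  refine Blocks.cons hn1 ?_ hz1 (Blocks.cons hn2 ?_ hz2 (Blocks.one hne h3))
  · rw [Finset.disjoint_union_right]
    exact ⟨hd, Finset.disjoint_sdiff.mono_left Finset.subset_union_left⟩
  · exact Finset.disjoint_sdiff.mono_left Finset.subset_union_right

end blocks

section fill

/-- all terms of a sum of positive numbers -/
theorem term_le (r : ι → ℕ) {B : Finset ι} (hpos : ∀ i ∈ B, 1 ≤ r i) {i : ι} (hi : i ∈ B) :
    r i + B.card ≤ ∑ j ∈ B, r j + 1 := by
  rw [← Finset.sum_erase_add B r hi, ← Finset.card_erase_add_one hi]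
  have : (B.erase i).card ≤ ∑ j ∈ B.erase i, r j := by
    rw [Finset.card_eq_sum_ones]
    exact Finset.sum_le_sum fun j hj => hpos j (Finset.mem_erase.1 hj).2
  omega

/-- **Filling three bins.** -/
theorem fill (r : ι → ℕ) (n : ℕ) : ∀ (B : Finset ι) (x y z : ℕ), B.card = n →
    (∀ i ∈ B, 1 ≤ r i) → ∑ i ∈ B, r i + 2 ≤ 2 * B.card → x + y + z = ∑ i ∈ B, r i →
    (∀ i ∈ B, r i ≤ x ∨ r i ≤ y ∨ r i ≤ z) →
    ∃ X Y, X ⊆ B ∧ Y ⊆ B ∧ Disjoint X Y ∧ ∑ i ∈ X, r i = x ∧ ∑ i ∈ Y, r i = y := by
  induction n with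
  | zero =>
    intro B x y z h0 hpos hc
    omega
  | succ n ih =>
    intro B x y z hn hpos hc hxyz hmax
    by_cases hall : ∀ i ∈ B, r i ≤ 1
    · have h1 : ∀ i ∈ B, r i = 1 := fun i hi => le_antisymm (hall i hi) (hpos i hi)
      have hsum : ∀ U ⊆ B, ∑ i ∈ U, r i = U.card := fun U hU => by
        rw [Finset.card_eq_sum_ones]
        exact Finset.sum_congr rfl fun i hi => h1 i (hU hi)
      rw [hsum B subset_rfl] at hxyz
      obtain ⟨X, hX, hXc⟩ := Finset.exists_subset_card_eq (s := B) (n := x) (by omega)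
      obtain ⟨Y, hY, hYc⟩ := Finset.exists_subset_card_eq (s := B \ X) (n := y) (by
        rw [Finset.card_sdiff_of_subset hX]
        omega)
      refine ⟨X, Y, hX, hY.trans Finset.sdiff_subset, Finset.disjoint_sdiff.mono_right hY, ?_, ?_⟩
      · rw [hsum X hX, hXc]
      · rw [hsum Y (hY.trans Finset.sdiff_subset), hYc]
    · push Not at hall
      obtain ⟨j, hj, hj2⟩ := hall
      obtain ⟨i0, hi0, hi0m⟩ := Finset.exists_max_image B r ⟨j, hj⟩
      have h2 : 2 ≤ r i0 := le_trans hj2 (hi0m j hj)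
      have hcard := Finset.card_erase_add_one hi0
      have hsum := Finset.sum_erase_add B r hi0
      have hpos' : ∀ i ∈ B.erase i0, 1 ≤ r i := fun i hi => hpos i (Finset.mem_erase.1 hi).2
      have hkey : ∀ i ∈ B.erase i0, 3 * r i ≤ ∑ i ∈ B.erase i0, r i + 2 := by
        intro i hi
        have h3 := term_le r hpos' hi
        have h4 := hi0m i (Finset.mem_erase.1 hi).2
        omega
      rcases hmax i0 hi0 with h3 | h3 | h3
      · obtain ⟨X, Y, hX, hY, hd, hXs, hYs⟩ := ih (B.erase i0) (x - r i0) y z (by omega) hpos'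
          (by omega) (by omega) (fun i hi => by
            have := hkey i hi
            omega)
        have h5 : i0 ∉ X := fun h => (Finset.mem_erase.1 (hX h)).1 rfl
        have h6 : i0 ∉ Y := fun h => (Finset.mem_erase.1 (hY h)).1 rfl
        refine ⟨insert i0 X, Y, Finset.insert_subset hi0 (hX.trans (Finset.erase_subset _ _)),
          hY.trans (Finset.erase_subset _ _), ?_, ?_, hYs⟩
        · rw [Finset.disjoint_insert_left]
          exact ⟨h6, hd⟩
        · rw [Finset.sum_insert h5, hXs]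
          omega
      · obtain ⟨X, Y, hX, hY, hd, hXs, hYs⟩ := ih (B.erase i0) x (y - r i0) z (by omega) hpos'
          (by omega) (by omega) (fun i hi => by
            have := hkey i hi
            omega)
        have h5 : i0 ∉ X := fun h => (Finset.mem_erase.1 (hX h)).1 rfl
        have h6 : i0 ∉ Y := fun h => (Finset.mem_erase.1 (hY h)).1 rfl
        refine ⟨X, insert i0 Y, hX.trans (Finset.erase_subset _ _),
          Finset.insert_subset hi0 (hY.trans (Finset.erase_subset _ _)), ?_, hXs, ?_⟩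
        · rw [Finset.disjoint_insert_right]
          exact ⟨h5, hd⟩
        · rw [Finset.sum_insert h6, hYs]
          omega
      · obtain ⟨X, Y, hX, hY, hd, hXs, hYs⟩ := ih (B.erase i0) x y (z - r i0) (by omega) hpos'
          (by omega) (by omega) (fun i hi => by
            have := hkey i hi
            omega)
        exact ⟨X, Y, hX.trans (Finset.erase_subset _ _), hY.trans (Finset.erase_subset _ _), hd,
          hXs, hYs⟩

end fill

section pair

variable {m k : ℕ} {b : ι → ℕ} {T1 T2 : Finset ι}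

theorem rho_insert {V : Finset ι} {j : ι} (hj : j ∉ V) (hb : b j < m) :
    ((∑ i ∈ V, b i) % m + b j < m →
      (∑ i ∈ insert j V, b i) % m = (∑ i ∈ V, b i) % m + b j) ∧
    (m ≤ (∑ i ∈ V, b i) % m + b j →
      (∑ i ∈ insert j V, b i) % m + m = (∑ i ∈ V, b i) % m + b j) := by
  have hm : 0 < m := by omega
  have h1 : (∑ i ∈ insert j V, b i) % m = ((∑ i ∈ V, b i) % m + b j) % m := by
    rw [Finset.sum_insert hj, add_comm, Nat.add_mod, Nat.mod_eq_of_lt hb]
  have h2 : (∑ i ∈ V, b i) % m < m := Nat.mod_lt _ hm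
  constructor
  · intro h
    rw [h1, Nat.mod_eq_of_lt h]
  · intro h
    rw [h1, Nat.mod_eq_sub_mod h, Nat.mod_eq_of_lt (by omega)]
    omega

/-- two disjoint parts of the second class whose residues have a large sum -/
theorem no_bad (hd : Disjoint T1 T2) (h1pos : ∀ i ∈ T1, 1 ≤ b i) (h1sum : ∑ i ∈ T1, b i = m)
    (h1card : m + 2 ≤ 2 * T1.card) (hk : ∀ i ∈ T1, b i ≤ k)
    (h2z : m ∣ ∑ i ∈ T2, b i) (hns : ¬ Blocks m b (T1 ∪ T2) 3) {U V : Finset ι} (hU : U ⊆ T2)
    (hV : V ⊆ T2) (hUn : U.Nonempty) (hVn : V.Nonempty) (hUV : Disjoint U V)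
    (hne : (T2 \ (U ∪ V)).Nonempty) (h : m ≤ (∑ i ∈ U, b i) % m + (∑ i ∈ V, b i) % m) :
    m < (∑ i ∈ U, b i) % m + k ∧ m < (∑ i ∈ V, b i) % m + k ∧
      (∑ i ∈ U, b i) % m + (∑ i ∈ V, b i) % m < m + k := by
  have hm : 0 < m := by
    rw [← h1sum]
    exact Finset.sum_pos (fun i hi => h1pos i hi) (Finset.card_pos.1 (by omega))
  have hu : (∑ i ∈ U, b i) % m < m := Nat.mod_lt _ hm
  have hv : (∑ i ∈ V, b i) % m < m := Nat.mod_lt _ hm
  by_contra hcon
  apply hns
  obtain ⟨X, Y, hX, hY, hXY, hXs, hYs⟩ := fill b _ T1 (m - (∑ i ∈ U, b i) % m)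
    (m - (∑ i ∈ V, b i) % m) ((∑ i ∈ U, b i) % m + (∑ i ∈ V, b i) % m - m) rfl h1pos
    (by omega) (by omega) (fun i hi => by
      have := hk i hi
      omega)
  have hdiv : ∀ {s t : ℕ}, t = m - s % m → m ∣ t + s := by
    intro s t ht
    have h3 : s % m < m := Nat.mod_lt _ hm
    have h4 := Nat.mod_add_div s m
    refine ⟨1 + s / m, ?_⟩
    rw [mul_add, mul_one]
    omega
  refine three_blocks (W1 := X ∪ U) (W2 := Y ∪ V) ?_ ?_ ?_ ?_ ?_ ?_ ?_ ?_ ?_
  · exact Finset.union_subset_union hX hU
  · exact Finset.union_subset_union hY hV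
  · rw [Finset.disjoint_union_left, Finset.disjoint_union_right, Finset.disjoint_union_right]
    exact ⟨⟨hXY, hd.mono hX hV⟩, (hd.mono hY hU).symm, hUV⟩
  · exact hUn.mono Finset.subset_union_right
  · exact hVn.mono Finset.subset_union_right
  · rw [Finset.sum_union (hd.mono hX hU)]
    exact hdiv hXs
  · rw [Finset.sum_union (hd.mono hY hV)]
    exact hdiv hYs
  · rw [Finset.sum_union hd, h1sum]
    exact dvd_add (dvd_refl m) h2z
  · obtain ⟨i, hi⟩ := hne
    rw [Finset.mem_sdiff, Finset.mem_union] at hi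
    refine ⟨i, ?_⟩
    have h5 : i ∉ T1 := fun h => (Finset.disjoint_left.1 hd) h hi.1
    rw [Finset.mem_sdiff, Finset.mem_union, Finset.mem_union, Finset.mem_union, Finset.mem_union]
    refine ⟨Or.inr hi.1, ?_⟩
    rintro ((h6 | h6) | (h6 | h6))
    · exact h5 (hX h6)
    · exact hi.2 (Or.inl h6)
    · exact h5 (hY h6)
    · exact hi.2 (Or.inr h6)

/-- if no partial sum wraps around, then the total sum is `m` -/
theorem no_wrap (hm : 0 < m) (hn : T2.Nonempty) (h2pos : ∀ i ∈ T2, 1 ≤ b i)
    (h2lt : ∀ i ∈ T2, b i < m)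
    (h2z : m ∣ ∑ i ∈ T2, b i)
    (h : ∀ V ⊆ T2, ∀ j ∈ T2, V.Nonempty → j ∉ V → insert j V ≠ T2 → (∑ i ∈ V, b i) % m + b j < m) :
    ∑ i ∈ T2, b i = m := by
  have hclaim : ∀ V : Finset ι, V ⊆ T2 → V ≠ T2 → ∑ i ∈ V, b i < m := by
    intro V
    induction V using Finset.induction_on with
    | empty => intro _ _; simpa using hm
    | insert j V hj ih =>
      intro hV hne
      have hVT : V ⊆ T2 := (Finset.subset_insert j V).trans hV
      have hjT : j ∈ T2 := hV (Finset.mem_insert_self j V)
      have hVne : V ≠ T2 := fun h => hj (h ▸ hjT)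
      rcases V.eq_empty_or_nonempty with rfl | hVn
      · rw [Finset.sum_insert hj, Finset.sum_empty]
        exact h2lt j hjT
      · have h1 := h V hVT j hjT hVn hj hne
        rw [Nat.mod_eq_of_lt (ih hVT hVne)] at h1
        rw [Finset.sum_insert hj, add_comm]
        exact h1
  obtain ⟨j0, hj0⟩ := hn
  have h1 := hclaim (T2.erase j0) (Finset.erase_subset _ _) (fun h => by
    have h2 := Finset.notMem_erase j0 T2
    rw [h] at h2
    exact h2 hj0)
  have h2 := Finset.sum_erase_add T2 b hj0
  have h3 := h2lt j0 hj0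
  have h4 := h2pos j0 hj0
  obtain ⟨t, ht⟩ := h2z
  have h5 : t = 1 := by
    rcases Nat.lt_or_ge t 2 with h | h
    · interval_cases t
      · omega
      · rfl
    · have : m * 2 ≤ m * t := Nat.mul_le_mul_left _ h
      omega
  rw [ht, h5, mul_one]

/-- the second class is short if it contains a large residue -/
theorem short_of_big (hd : Disjoint T1 T2) (h1pos : ∀ i ∈ T1, 1 ≤ b i) (h1sum : ∑ i ∈ T1, b i = m)
    (h1card : m + 2 ≤ 2 * T1.card) (hk : ∀ i ∈ T1, b i ≤ k) (h2k : 2 * k < m)
    (h2pos : ∀ i ∈ T2, 1 ≤ b i) (h2lt : ∀ i ∈ T2, b i < m)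
    (h2z : m ∣ ∑ i ∈ T2, b i) (hns : ¬ Blocks m b (T1 ∪ T2) 3) {j1 : ι} (hj1 : j1 ∈ T2)
    (hbig : m < b j1 + k) (h2c : 2 ≤ T2.card) : T2.card ≤ k := by
  have hm : 0 < m := by omega
  have hno : ∀ {U : Finset ι} {j : ι}, U ⊆ T2 → j ∈ T2 → U.Nonempty → j ∉ U → insert j U ≠ T2 →
      m ≤ (∑ i ∈ U, b i) % m + b j →
      m < (∑ i ∈ U, b i) % m + k ∧ m < b j + k ∧ (∑ i ∈ U, b i) % m + b j < m + k := by
    intro U j hU hj hUn hjU hne h
    have h1 : (∑ i ∈ ({j} : Finset ι), b i) % m = b j := by
      rw [Finset.sum_singleton, Nat.mod_eq_of_lt (h2lt j hj)]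
    have h2 := no_bad hd h1pos h1sum h1card hk h2z hns hU (Finset.singleton_subset_iff.2 hj) hUn
      (Finset.singleton_nonempty j) (Finset.disjoint_singleton_right.2 hjU) (by
        rw [Finset.sdiff_nonempty]
        intro h3
        apply hne
        refine Finset.Subset.antisymm (Finset.insert_subset hj hU) (h3.trans ?_)
        rw [Finset.union_comm, ← Finset.insert_eq]) (by rw [h1]; exact h)
    rwa [h1] at h2
  have hclaim : ∀ V : Finset ι, V ⊆ T2.erase j1 → V.Nonempty →
      ((∑ i ∈ V, b i) % m + k ≤ m ∧ V.card ≤ (∑ i ∈ V, b i) % m) ∨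
      (m < (∑ i ∈ V, b i) % m + k ∧ V.card + m ≤ (∑ i ∈ V, b i) % m + k) := by
    intro V
    induction V using Finset.induction_on with
    | empty => intro _ h; exact absurd h Finset.not_nonempty_empty
    | insert j V hj ih =>
      intro hVe _
      have hV : insert j V ⊆ T2 := hVe.trans (Finset.erase_subset _ _)
      have hVT : V ⊆ T2 := (Finset.subset_insert j V).trans hV
      have hjT : j ∈ T2 := hV (Finset.mem_insert_self j V)
      have hjlt := h2lt j hjT
      have hjpos := h2pos j hjT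
      rcases V.eq_empty_or_nonempty with rfl | hVn
      · rw [Finset.sum_insert hj, Finset.sum_empty, add_zero, Nat.mod_eq_of_lt hjlt]
        rw [Finset.card_insert_of_notMem hj, Finset.card_empty]
        omega
      · have hj1W : j1 ∉ insert j V := fun h => (Finset.mem_erase.1 (hVe h)).1 rfl
        have hj1V : j1 ∉ V := fun h => hj1W (Finset.mem_insert_of_mem h)
        have hjj1 : j ≠ j1 := fun h => hj1W (h ▸ Finset.mem_insert_self j V)
        have hne : insert j V ≠ T2 := fun h => hj1W (h ▸ hj1)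
        have hne1 : insert j1 V ≠ T2 := fun h => by
          have h3 : j ∈ insert j1 V := h ▸ hjT
          rcases Finset.mem_insert.1 h3 with h4 | h4
          · exact hjj1 h4
          · exact hj h4
        have hIH := ih ((Finset.subset_insert j V).trans hVe) hVn
        have hrho := rho_insert hj hjlt
        have hp := hno hVT hjT hVn hj hne
        have hlt : (∑ i ∈ V, b i) % m < m := Nat.mod_lt _ hm
        have hltW : (∑ i ∈ insert j V, b i) % m < m := Nat.mod_lt _ hm
        rw [Finset.card_insert_of_notMem hj]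
        rcases hIH with ⟨hE1, hE2⟩ | ⟨hO1, hO2⟩
        · -- type E
          have h3 : (∑ i ∈ V, b i) % m + b j < m := by
            by_contra h
            have := hp (by omega)
            omega
          have h4 := hrho.1 h3
          by_cases hsmall : b j + k ≤ m
          · -- small
            left
            refine ⟨?_, by omega⟩
            by_contra hcon
            have hb1lt := h2lt j1 hj1
            by_cases hfull : insert j1 (insert j V) = T2
            · have h5 : ∑ i ∈ T2, b i = ∑ i ∈ insert j V, b i + b j1 := by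
                rw [← hfull, Finset.sum_insert hj1W, add_comm]
              rw [h5] at h2z
              have h6 : m ∣ (∑ i ∈ insert j V, b i) % m + b j1 := by
                rw [Nat.dvd_iff_mod_eq_zero] at h2z ⊢
                rw [Nat.mod_add_mod]
                exact h2z
              obtain ⟨t, ht⟩ := h6
              rcases Nat.lt_or_ge t 2 with h | h
              · interval_cases t <;> omega
              · have : m * 2 ≤ m * t := Nat.mul_le_mul_left _ h
                omega
            · have h5 : (∑ i ∈ V, b i) % m + b j1 < m := by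
                by_contra h
                have := hno hVT hj1 hVn hj1V hne1 (by omega)
                omega
              have h6 := (rho_insert hj1V hb1lt).1 h5
              have h7 : j ∉ insert j1 V := by
                rw [Finset.mem_insert]
                rintro (h | h)
                · exact hjj1 h
                · exact hj h
              have h8 : insert j (insert j1 V) ≠ T2 := by
                rw [Finset.insert_comm]
                exact hfull
              have h9 : (∑ i ∈ insert j1 V, b i) % m + b j < m := by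
                by_contra h
                have := hno (Finset.insert_subset hj1 hVT) hjT (Finset.insert_nonempty _ _) h7 h8
                  (by omega)
                omega
              omega
          · right
            omega
        · -- type O
          by_cases hsmall : b j + k ≤ m
          · right
            have h3 : (∑ i ∈ V, b i) % m + b j < m := by
              by_contra h
              have := hp (by omega)
              omega
            have h4 := hrho.1 h3
            omega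
          · left
            have h3 : m ≤ (∑ i ∈ V, b i) % m + b j := by omega
            have h4 := hrho.2 h3
            have h5 := hp h3
            omega
  have hcard := Finset.card_erase_add_one hj1
  have h3 := hclaim (T2.erase j1) subset_rfl (Finset.card_pos.1 (by omega))
  have h4 : (∑ i ∈ T2.erase j1, b i) % m + b j1 = m := by
    have h5 := Finset.sum_erase_add T2 b hj1
    rw [← h5] at h2z
    have h6 : m ∣ (∑ i ∈ T2.erase j1, b i) % m + b j1 := by
      rw [Nat.dvd_iff_mod_eq_zero] at h2z ⊢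
      rw [Nat.mod_add_mod]
      exact h2z
    have h7 : (∑ i ∈ T2.erase j1, b i) % m < m := Nat.mod_lt _ hm
    have h8 := h2lt j1 hj1
    have h9 := h2pos j1 hj1
    obtain ⟨t, ht⟩ := h6
    have h10 : t = 1 := by
      rcases Nat.lt_or_ge t 2 with h | h
      · interval_cases t
        · omega
        · rfl
      · have : m * 2 ≤ m * t := Nat.mul_le_mul_left _ h
        omega
    rw [ht, h10, mul_one]
  omega

/-- **Pairs of classes.** -/
theorem pair (hd : Disjoint T1 T2) (h1pos : ∀ i ∈ T1, 1 ≤ b i) (h1sum : ∑ i ∈ T1, b i = m)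
    (h1card : m + 2 ≤ 2 * T1.card) (hk : ∀ i ∈ T1, b i ≤ k) (h2k : 2 * k < m)
    (h2pos : ∀ i ∈ T2, 1 ≤ b i) (h2lt : ∀ i ∈ T2, b i < m)
    (h2z : m ∣ ∑ i ∈ T2, b i) (hns : ¬ Blocks m b (T1 ∪ T2) 3) (h2n : T2.Nonempty) :
    ∑ i ∈ T2, b i = m ∨ (T2.card ≤ k ∧ m + 3 ≤ 3 * k) := by
  have hm : 0 < m := by omega
  have h2c : 2 ≤ T2.card := by
    by_contra h
    have h1 : T2.card = 1 := by
      have := h2n.card_pos
      omega
    obtain ⟨i, hi⟩ := Finset.card_eq_one.1 h1
    rw [hi, Finset.sum_singleton] at h2z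
    have h2 := h2lt i (hi ▸ Finset.mem_singleton_self i)
    have h3 := h2pos i (hi ▸ Finset.mem_singleton_self i)
    have := Nat.le_of_dvd (by omega) h2z
    omega
  have hno : ∀ V ⊆ T2, ∀ j ∈ T2, V.Nonempty → j ∉ V → insert j V ≠ T2 →
      m ≤ (∑ i ∈ V, b i) % m + b j →
      m < (∑ i ∈ V, b i) % m + k ∧ m < b j + k ∧ (∑ i ∈ V, b i) % m + b j < m + k := by
    intro U hU j hj hUn hjU hne h
    have h1 : (∑ i ∈ ({j} : Finset ι), b i) % m = b j := by
      rw [Finset.sum_singleton, Nat.mod_eq_of_lt (h2lt j hj)]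
    have h2 := no_bad hd h1pos h1sum h1card hk h2z hns hU (Finset.singleton_subset_iff.2 hj) hUn
      (Finset.singleton_nonempty j) (Finset.disjoint_singleton_right.2 hjU) (by
        rw [Finset.sdiff_nonempty]
        intro h3
        apply hne
        refine Finset.Subset.antisymm (Finset.insert_subset hj hU) (h3.trans ?_)
        rw [Finset.union_comm, ← Finset.insert_eq]) (by rw [h1]; exact h)
    rwa [h1] at h2
  by_cases hbig : ∃ j ∈ T2, m < b j + k
  · by_cases h3k : m + 3 ≤ 3 * k
    · right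
      obtain ⟨j1, hj1, hj1b⟩ := hbig
      exact ⟨short_of_big hd h1pos h1sum h1card hk h2k h2pos h2lt h2z hns hj1 hj1b h2c, h3k⟩
    · left
      refine no_wrap hm h2n h2pos h2lt h2z fun V hV j hj hVn hjV hne => ?_
      by_contra h
      have h1 := hno V hV j hj hVn hjV hne (by omega)
      have h2 : (∑ i ∈ V, b i) % m < m := Nat.mod_lt _ hm
      omega
  · left
    push Not at hbig
    refine no_wrap hm h2n h2pos h2lt h2z fun V hV j hj hVn hjV hne => ?_
    by_contra h
    have h1 := hno V hV j hj hVn hjV hne (by omega)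
    have h2 := hbig j hj
    omega

/-- a subset with sum `k` and at least two elements -/
theorem exists_swap {T3 : Finset ι} (h3pos : ∀ i ∈ T3, 1 ≤ b i) (h3sum : ∑ i ∈ T3, b i = m)
    (h3card : m + 3 ≤ 2 * T3.card) (hk2 : 2 ≤ k) (h2k : 2 * k < m) :
    ∃ X ⊆ T3, ∑ i ∈ X, b i = k ∧ 2 ≤ X.card := by
  set B := T3.filter fun i => b i < k with hB
  set P := T3.filter fun i => ¬ b i < k with hP
  have hBP : B.card + P.card = T3.card := Finset.card_filter_add_card_filter_not _
  have hBPs : ∑ i ∈ B, b i + ∑ i ∈ P, b i = m := by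
    rw [← h3sum]
    exact Finset.sum_filter_add_sum_filter_not _ _ _
  have hPs : P.card * k ≤ ∑ i ∈ P, b i := by
    rw [← smul_eq_mul]
    apply Finset.card_nsmul_le_sum
    intro i hi
    exact Nat.le_of_not_lt (Finset.mem_filter.1 hi).2
  have hBpos : ∀ i ∈ B, 1 ≤ b i := fun i hi => h3pos i (Finset.mem_filter.1 hi).1
  have hBs : B.card ≤ ∑ i ∈ B, b i := by
    rw [Finset.card_eq_sum_ones]
    exact Finset.sum_le_sum fun j hj => hBpos j hj
  have h1 : P.card * 2 ≤ P.card * k := Nat.mul_le_mul_left _ hk2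
  have hBk : k ≤ B.card := by
    by_contra hcon
    push Not at hcon
    obtain ⟨κ, rfl⟩ : ∃ κ, k = κ + 1 := ⟨k - 1, by omega⟩
    have h2 : B.card ≤ κ := by omega
    have h3 : B.card + P.card * (κ + 1) ≤ m := by omega
    have h4 : m + 3 ≤ 2 * (B.card + P.card) := by omega
    have h5 : 1 ≤ κ := by omega
    -- P.card ≥ (m+3)/2 - κ
    have h6 : m + 3 ≤ 2 * κ + 2 * P.card := by omega
    have h7 : (B.card + P.card) + P.card * κ ≤ m := by
      rw [mul_add, mul_one] at h3
      omega
    have h8 : (m + 3) + 2 * (P.card * κ) ≤ 2 * m := by omega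
    have h9 : (m + 3) * κ ≤ (2 * κ + 2 * P.card) * κ := Nat.mul_le_mul_right _ h6
    obtain ⟨d, hd⟩ : ∃ d, m = 2 * κ + 3 + d := ⟨m - (2 * κ + 3), by omega⟩
    subst hd
    nlinarith
  obtain ⟨X, Y, hX, hY, hd, hXs, hYs⟩ := fill b _ B k (∑ i ∈ B, b i - k) 0 rfl hBpos (by omega)
    (by omega) (fun i hi => by
      have := (Finset.mem_filter.1 hi).2
      omega)
  refine ⟨X, hX.trans (Finset.filter_subset _ _), hXs, ?_⟩
  by_contra hcon
  have h2 : X.card = 0 ∨ X.card = 1 := by omega
  rcases h2 with h2 | h2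
  · rw [Finset.card_eq_zero.1 h2, Finset.sum_empty] at hXs
    omega
  · obtain ⟨i, hi⟩ := Finset.card_eq_one.1 h2
    rw [hi, Finset.sum_singleton] at hXs
    have := (Finset.mem_filter.1 (hX (hi ▸ Finset.mem_singleton_self i))).2
    omega

end pair

section main

variable {m k : ℕ} {b : ι → ℕ} {T1 : Finset ι}

/-- a class whose union with the first class is neither divisible into three classes nor into two
classes with a larger first one -/
theorem class_bound {i1 : ι} (hi1 : i1 ∈ T1) (hi1k : b i1 = k) (h1pos : ∀ i ∈ T1, 1 ≤ b i)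
    (h1sum : ∑ i ∈ T1, b i = m)
    (h1card : m + 3 ≤ 2 * T1.card) (hk : ∀ i ∈ T1, b i ≤ k) (h2k : 2 * k < m) {T2 : Finset ι}
    (hd : Disjoint T1 T2) (h2pos : ∀ i ∈ T2, 1 ≤ b i) (h2lt : ∀ i ∈ T2, b i < m)
    (h2z : m ∣ ∑ i ∈ T2, b i) (h2n : T2.Nonempty) (hns : ¬ Blocks m b (T1 ∪ T2) 3)
    (hsw : ∀ T1' T2' : Finset ι, Disjoint T1' T2' → T1' ∪ T2' = T1 ∪ T2 → m ∣ ∑ i ∈ T1', b i →
      T1.card < T1'.card → ¬ Blocks m b T2' 1) :
    (3 * k ≤ m + 2 → ∑ i ∈ T2, b i = m) ∧
    (m + 3 ≤ 3 * k → T2.card ≤ m / 2 + 1 ∧ (∑ i ∈ T2, b i = m ∨ T2.card ≤ k)) := by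
  have hp := pair hd h1pos h1sum (by omega) hk h2k h2pos h2lt h2z hns h2n
  refine ⟨fun h => by omega, fun h => ⟨?_, by omega⟩⟩
  by_contra hcon
  have h2sum : ∑ i ∈ T2, b i = m := by omega
  obtain ⟨X, hX, hXs, hX2⟩ := exists_swap (k := k) h2pos h2sum (by omega) (by omega) h2k
  have hXd : Disjoint (T1.erase i1) X := hd.mono (Finset.erase_subset _ _) hX
  have hi1T2 : i1 ∉ T2 := fun h => (Finset.disjoint_left.1 hd) hi1 h
  have hXn : X.Nonempty := Finset.card_pos.1 (by omega)
  refine hsw (T1.erase i1 ∪ X) (insert i1 (T2 \ X)) ?_ ?_ ?_ ?_ ?_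
  · rw [Finset.disjoint_insert_right, Finset.disjoint_union_left, Finset.mem_union]
    refine ⟨?_, ?_, Finset.disjoint_sdiff⟩
    · rintro (h3 | h3)
      · exact (Finset.mem_erase.1 h3).1 rfl
      · exact hi1T2 (hX h3)
    · exact hd.mono (Finset.erase_subset _ _) Finset.sdiff_subset
  · ext i
    simp only [Finset.mem_union, Finset.mem_erase, Finset.mem_insert, Finset.mem_sdiff]
    constructor
    · rintro ((h3 | h3) | (rfl | h3))
      · exact Or.inl h3.2
      · exact Or.inr (hX h3)
      · exact Or.inl hi1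
      · exact Or.inr h3.1
    · rintro (h3 | h3)
      · by_cases h4 : i = i1
        · exact Or.inr (Or.inl h4)
        · exact Or.inl (Or.inl ⟨h4, h3⟩)
      · by_cases h4 : i ∈ X
        · exact Or.inl (Or.inr h4)
        · exact Or.inr (Or.inr ⟨h3, h4⟩)
  · rw [Finset.sum_union hXd, hXs, ← hi1k, Finset.sum_erase_add T1 b hi1, h1sum]
  · rw [Finset.card_union_of_disjoint hXd]
    have := Finset.card_erase_add_one hi1
    omega
  · refine Blocks.one (Finset.insert_nonempty _ _) ?_
    rw [Finset.sum_insert (fun h => hi1T2 (Finset.sdiff_subset h)), hi1k]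
    have h3 := Finset.sum_sdiff (f := b) hX
    rw [hXs, h2sum] at h3
    rw [add_comm, h3]

theorem classes_bound {i1 : ι} (hi1 : i1 ∈ T1) (hi1k : b i1 = k) (h1pos : ∀ i ∈ T1, 1 ≤ b i)
    (h1sum : ∑ i ∈ T1, b i = m)
    (h1card : m + 3 ≤ 2 * T1.card) (hk : ∀ i ∈ T1, b i ≤ k) (h2k : 2 * k < m) {C : Finset ι} {K : ℕ}
    (hB : Blocks m b C K) :
    (hd : Disjoint T1 C) → (h2pos : ∀ i ∈ C, 1 ≤ b i) → (h2lt : ∀ i ∈ C, b i < m) →
    (hns : ¬ Blocks m b (T1 ∪ C) (K + 2)) →
    (hsw : ∀ T1' T2' : Finset ι, Disjoint T1' T2' → T1' ∪ T2' = T1 ∪ C → m ∣ ∑ i ∈ T1', b i →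
      T1.card < T1'.card → ¬ Blocks m b T2' K) →
    (3 * k ≤ m + 2 → ∑ i ∈ C, b i = K * m) ∧
    (m + 3 ≤ 3 * k → C.card ≤ K * (m / 2 + 1) ∧
      (∑ i ∈ C, b i = K * m ∨ C.card + (m / 2 + 1) ≤ k + K * (m / 2 + 1))) := by
  have h1z : m ∣ ∑ i ∈ T1, b i := by rw [h1sum]
  have h1n : T1.Nonempty := ⟨i1, hi1⟩
  induction hB with
  | nil =>
    intro hd h2pos h2lt hns hsw
    simp
  | @cons T S K hT hTS hz h ih =>
    intro hd h2pos h2lt hns hsw
    rw [Finset.disjoint_union_right] at hd
    have ihS := ih hd.2 (fun i hi => h2pos i (Finset.mem_union_right _ hi))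
      (fun i hi => h2lt i (Finset.mem_union_right _ hi)) (fun h3 => hns (by
        have h4 := h3.union (Blocks.one hT hz) (by
          rw [Finset.disjoint_union_left]
          exact ⟨hd.1, hTS.symm⟩)
        have h5 : T1 ∪ S ∪ T = T1 ∪ (T ∪ S) := by
          rw [Finset.union_assoc, Finset.union_comm S T]
        have h6 : K + 2 + 1 = K + 1 + 2 := by ring
        rwa [h5, h6] at h4)) (by
        intro T1' T2' hd' hu hz' hc' hB'
        have hTd : Disjoint (T1' ∪ T2') T := by
          rw [hu, Finset.disjoint_union_left]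
          exact ⟨hd.1, hTS.symm⟩
        rw [Finset.disjoint_union_left] at hTd
        refine hsw T1' (T2' ∪ T) ?_ ?_ hz' hc' ?_
        · rw [Finset.disjoint_union_right]
          exact ⟨hd', hTd.1⟩
        · rw [← Finset.union_assoc, hu, Finset.union_assoc, Finset.union_comm S T]
        · exact hB'.union (Blocks.one hT hz) hTd.2)
    have ihT := class_bound hi1 hi1k h1pos h1sum h1card hk h2k hd.1
      (fun i hi => h2pos i (Finset.mem_union_left _ hi))
      (fun i hi => h2lt i (Finset.mem_union_left _ hi)) hz hT (fun h3 => hns (by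
        have h4 := h3.union h (by
          rw [Finset.disjoint_union_left]
          exact ⟨hd.2, hTS⟩)
        have h6 : 3 + K = K + 1 + 2 := by ring
        rwa [Finset.union_assoc, h6] at h4)) (by
        intro T1' T2' hd' hu hz' hc' hB'
        have hTd : Disjoint (T1' ∪ T2') S := by
          rw [hu, Finset.disjoint_union_left]
          exact ⟨hd.2, hTS⟩
        rw [Finset.disjoint_union_left] at hTd
        refine hsw T1' (T2' ∪ S) ?_ ?_ hz' hc' ?_
        · rw [Finset.disjoint_union_right]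
          exact ⟨hd', hTd.1⟩
        · rw [← Finset.union_assoc, hu, Finset.union_assoc]
        · have h4 := hB'.union h hTd.2
          rwa [add_comm 1 K] at h4)
    rw [Finset.sum_union hTS, Finset.card_union_of_disjoint hTS]
    have e1 : (K + 1) * m = K * m + m := by ring
    have e2 : (K + 1) * (m / 2 + 1) = K * (m / 2 + 1) + (m / 2 + 1) := by ring
    rw [e1, e2]
    constructor
    · intro h3
      rw [ihT.1 h3, ihS.1 h3, add_comm]
    · intro h3
      obtain ⟨h4, h5⟩ := ihT.2 h3
      obtain ⟨h6, h7⟩ := ihS.2 h3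
      refine ⟨by omega, ?_⟩
      rcases h5 with h5 | h5
      · rcases h7 with h7 | h7
        · left
          omega
        · right
          omega
      · right
        omega

/-- **The norm of long sequences.** Let `S` be a sequence of nonzero elements of `ℤ/m` which can be
divided into `L`, but not into `L + 1` classes with sum zero, and let the length of `S` be larger than
`L (⌊m/2⌋ + 1)`. Then the terms of `S` are positive multiples of a generator, with total sum `L m`. -/
theorem long_index (hm : 0 < m) (a : ι → ℕ) (S : Finset ι) (hnz : ∀ i ∈ S, ¬ m ∣ a i) {L : ℕ}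
    (hB : Blocks m a S L) (hnB : ¬ Blocks m a S (L + 1))
    (hN : L * (m / 2 + 1) + 1 ≤ S.card) :
    ∃ c, Nat.Coprime m c ∧ ∑ i ∈ S, (c * a i) % m = L * m := by
  classical
  obtain ⟨T0, hT0S, hT0n, hT0z, hT0c, hT0B⟩ := hB.large hN
  have hL : 1 ≤ L := by
    by_contra h
    have h1 : L = 0 := by omega
    subst h1
    have := hB.zero
    rw [this] at hN
    simp at hN
  obtain ⟨T1, hT1, hT1max⟩ := Finset.exists_max_image
    (S.powerset.filter fun T => T.Nonempty ∧ m ∣ ∑ i ∈ T, a i ∧ Blocks m a (S \ T) (L - 1))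
    Finset.card ⟨T0, by
      rw [Finset.mem_filter, Finset.mem_powerset]
      exact ⟨hT0S, hT0n, hT0z, hT0B⟩⟩
  rw [Finset.mem_filter, Finset.mem_powerset] at hT1
  obtain ⟨hT1S, hT1n, hT1z, hT1B⟩ := hT1
  have hT1c : m / 2 + 2 ≤ T1.card := by
    have := hT1max T0 (by
      rw [Finset.mem_filter, Finset.mem_powerset]
      exact ⟨hT0S, hT0n, hT0z, hT0B⟩)
    omega
  have hT1d : Disjoint T1 (S \ T1) := Finset.disjoint_sdiff
  have hT1u : T1 ∪ (S \ T1) = S := Finset.union_sdiff_of_subset hT1S
  have hmin : ∀ U ⊆ T1, U ≠ T1 → U.Nonempty → ¬ m ∣ ∑ i ∈ U, a i := by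
    intro U hU hne hUn hUz
    apply hnB
    have h1 : m ∣ ∑ i ∈ T1 \ U, a i := by
      have h2 := Finset.sum_sdiff (f := a) hU
      rw [← h2] at hT1z
      exact (Nat.dvd_add_left hUz).1 hT1z
    have h2 : (T1 \ U).Nonempty := by
      rw [Finset.sdiff_nonempty]
      exact fun h => hne (Finset.Subset.antisymm hU h)
    have h3 := Blocks.cons h2 (hT1d.mono_left Finset.sdiff_subset) h1 hT1B
    have h4 := Blocks.cons hUn (by
      rw [Finset.disjoint_union_right]
      exact ⟨Finset.disjoint_sdiff, hT1d.mono_left hU⟩) hUz h3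
    rw [← Finset.union_assoc, Finset.union_sdiff_of_subset hU, hT1u] at h4
    have h5 : L - 1 + 1 + 1 = L + 1 := by omega
    rwa [h5] at h4
  obtain ⟨c, hc, hcs⟩ := index_one hm a T1 hT1z hmin hT1c
  refine ⟨c, hc, ?_⟩
  set b : ι → ℕ := fun i => (c * a i) % m with hb
  have hab : ∀ T : Finset ι, m ∣ ∑ i ∈ T, a i → m ∣ ∑ i ∈ T, b i := fun T h =>
    dvd_mod_sum c a h
  have hba : ∀ T : Finset ι, m ∣ ∑ i ∈ T, b i → m ∣ ∑ i ∈ T, a i := fun T h =>
    dvd_of_sum hc a T h
  have hbpos : ∀ i ∈ S, 1 ≤ b i := by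
    intro i hi
    by_contra h
    have h1 : (c * a i) % m = 0 := by
      change ¬ 1 ≤ (c * a i) % m at h
      omega
    exact hnz i hi (hc.dvd_of_dvd_mul_left (Nat.dvd_of_mod_eq_zero h1))
  have hblt : ∀ i ∈ S, b i < m := fun i _ => Nat.mod_lt _ hm
  obtain ⟨i1, hi1, hi1m⟩ := Finset.exists_max_image T1 b hT1n
  have h1pos : ∀ i ∈ T1, 1 ≤ b i := fun i hi => hbpos i (hT1S hi)
  have hkc := term_le b h1pos hi1
  rw [hcs] at hkc
  have hcl := classes_bound (k := b i1) hi1 rfl h1pos hcs (by omega) hi1m (by omega)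
    (hT1B.congr hab) hT1d (fun i hi => hbpos i (Finset.sdiff_subset hi))
    (fun i hi => hblt i (Finset.sdiff_subset hi)) (by
      rw [hT1u]
      intro h
      have h5 : L - 1 + 2 = L + 1 := by omega
      rw [h5] at h
      exact hnB (h.congr hba)) (by
      intro T1' T2' hd' hu hz' hc' hB'
      rw [hT1u] at hu
      have h6 : T2' = S \ T1' := by
        rw [← hu, Finset.union_sdiff_cancel_left hd']
      have h7 := hT1max T1' (by
        rw [Finset.mem_filter, Finset.mem_powerset]
        refine ⟨hu ▸ Finset.subset_union_left, Finset.card_pos.1 (by omega), hba _ hz', ?_⟩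
        rw [← h6]
        exact hB'.congr hba)
      omega)
  have hsum : ∑ i ∈ S, b i = m + ∑ i ∈ S \ T1, b i := by
    rw [← hT1u, Finset.sum_union hT1d, hT1u]
    exact congrArg (· + _) hcs
  have hcard : S.card = T1.card + (S \ T1).card := by
    rw [← hT1u, Finset.card_union_of_disjoint hT1d, hT1u]
  have e1 : L * m = (L - 1) * m + m := by
    obtain ⟨l, rfl⟩ : ∃ l, L = l + 1 := ⟨L - 1, by omega⟩
    rw [Nat.add_sub_cancel]
    ring
  have e2 : L * (m / 2 + 1) = (L - 1) * (m / 2 + 1) + (m / 2 + 1) := by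
    obtain ⟨l, rfl⟩ : ∃ l, L = l + 1 := ⟨L - 1, by omega⟩
    rw [Nat.add_sub_cancel]
    ring
  rw [e1, hsum]
  rw [e2] at hN
  rcases Nat.lt_or_ge (m + 2) (3 * b i1) with h | h
  · rcases (hcl.2 (by omega)).2 with h3 | h3
    · omega
    · exfalso
      omega
  · have := hcl.1 h
    omega

/-- the classes given by the numerical condition -/
theorem blocks_long {N n l : ℕ} (hm : 1 ≤ m) (a : Fin N → ℕ) (hz : m ∣ ∑ i, a i)
    (hN : N = n + (l + 1)) (hl : l * (m / 2) ≤ n)
    (hnum : ∀ j : ℕ, ∑ i, (j * a i) % m ≤ n * m) : Blocks m a Finset.univ (l + 1) := by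
  classical
  by_contra hnB
  set Z := Finset.univ.filter fun i => m ∣ a i with hZ
  set S := Finset.univ.filter fun i => ¬ m ∣ a i with hS
  have hZS : Z ∪ S = Finset.univ := Finset.filter_union_filter_not_eq _ _
  have hd : Disjoint Z S := Finset.disjoint_filter_filter_not _ _ _
  have hcard : Z.card + S.card = N := by
    rw [← Finset.card_union_of_disjoint hd, hZS, Finset.card_univ, Fintype.card_fin]
  have hzZ : m ∣ ∑ i ∈ Z, a i := Finset.dvd_sum fun i hi => (Finset.mem_filter.1 hi).2
  have hzS : m ∣ ∑ i ∈ S, a i := by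
    rw [← hZS, Finset.sum_union hd] at hz
    exact (Nat.dvd_add_right hzZ).1 hz
  have hBZ : Blocks m a Z Z.card := Blocks.singletons Z fun i hi => (Finset.mem_filter.1 hi).2
  obtain ⟨L, hBL, hnBL⟩ : ∃ L, Blocks m a S L ∧ ¬ Blocks m a S (L + 1) := by
    rcases S.eq_empty_or_nonempty with h | h
    · rw [h]
      refine ⟨0, Blocks.nil, fun h2 => ?_⟩
      exact absurd h2.nonempty Finset.not_nonempty_empty
    · by_contra hcon
      push Not at hcon
      have h2 : ∀ L, 1 ≤ L → Blocks m a S L := by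
        intro L hL
        induction L, hL using Nat.le_induction with
        | base => exact Blocks.one h hzS
        | succ L hL ih => exact hcon L ih
      have := (h2 (S.card + 1) (by omega)).card_le
      omega
  have hLl : Z.card + L ≤ l := by
    by_contra h
    apply hnB
    have h2 := hBZ.union hBL hd
    rw [hZS] at h2
    exact h2.reduce (by omega) (by omega)
  have hlong : L * (m / 2 + 1) + 1 ≤ S.card := by
    have h1 : (Z.card + L) * (m / 2) ≤ l * (m / 2) := Nat.mul_le_mul_right _ hLl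
    rw [add_mul] at h1
    rw [mul_add, mul_one]
    omega
  obtain ⟨c, hc, hcs⟩ := long_index hm a S (fun i hi => (Finset.mem_filter.1 hi).2) hBL hnBL hlong
  have h1 := hnum ((m - 1) * c)
  have h2 : ∀ i ∈ S, ((m - 1) * c * a i) % m + (c * a i) % m = m := by
    intro i hi
    have h3 : (c * a i) % m ≠ 0 := fun h =>
      (Finset.mem_filter.1 hi).2 (hc.dvd_of_dvd_mul_left (Nat.dvd_of_mod_eq_zero h))
    have h4 : m ∣ ((m - 1) * c * a i) % m + (c * a i) % m := by
      rw [Nat.dvd_iff_mod_eq_zero, ← Nat.add_mod]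
      apply Nat.mod_eq_zero_of_dvd
      refine ⟨c * a i, ?_⟩
      obtain ⟨m', rfl⟩ : ∃ m', m = m' + 1 := ⟨m - 1, by omega⟩
      rw [Nat.add_sub_cancel]
      ring
    have h5 : ((m - 1) * c * a i) % m < m := Nat.mod_lt _ hm
    have h6 : (c * a i) % m < m := Nat.mod_lt _ hm
    obtain ⟨t, ht⟩ := h4
    have h7 : t = 1 := by
      rcases Nat.lt_or_ge t 2 with h | h
      · interval_cases t
        · omega
        · rfl
      · have : m * 2 ≤ m * t := Nat.mul_le_mul_left _ h
        omega
    rw [ht, h7, mul_one]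
  have h3 : ∑ i ∈ S, ((m - 1) * c * a i) % m + L * m = S.card * m := by
    rw [← hcs, ← Finset.sum_add_distrib, Finset.sum_congr rfl h2, Finset.sum_const, smul_eq_mul]
  have h4 : ∑ i ∈ S, ((m - 1) * c * a i) % m ≤ ∑ i, ((m - 1) * c * a i) % m :=
    Finset.sum_le_sum_of_subset (Finset.subset_univ S)
  have h5 : (n + 1 + L) * m ≤ S.card * m := Nat.mul_le_mul_right m (by omega)
  have h6 : (n + 1 + L) * m = n * m + m + L * m := by ring
  omega

end main

end Pool.Agent.T9h38.Cyc
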