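import Pool.Agent.T9h38.Cyc.Main
import Pool.Agent.T9h38.Cyc.Long

/-!
Rationality of cyclic covers of projective spaces of large dimension.
-/

set_option autoImplicit false
set_option linter.overlappingInstances false
set_option linter.unusedSectionVars false

open FF Pool.Agent.W602.GT
open Pool.Agent.W619.PQ (IsUniruled)
open Pool.Agent.W619.TW (IsUnirational)

namespace Pool.Agent.T9h38.Cyc

variable {k L : Type} [Field k] [Field L] [Algebra k L]

variable [IsAlgClosed k] [CharZero k] {n N m : ℕ} {c : Fin N → Fin (n + 1) → k} {a : Fin N → ℕ}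
  {x : Fin n → L} {y : L}

/-- **Cyclic covers of projective spaces of large dimension.** -/
theorem Cover.tfae_long (h : Cover m c a x y) (hn : 1 ≤ n) (hc : GenPos c) (hm : 1 ≤ m)
    (hN : (N - n - 1) * (m / 2) ≤ n) (hz : m ∣ ∑ i, a i) :
    [IsRational k L n, IsUnirational k L n, IsUniruled k L n, ¬ Psef k L n (fun _ => False),
      ¬ KodGe k L n (fun _ => False) 0, GenusZero k L n,
      ∀ j : ℕ, ∑ i, (j * a i) % m ≤ n * m].TFAE := by
  refine h.tfae_of hn hc hm hz fun hj => h.rational_of_blocks hc hm hz fun l hl => ?_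
  refine blocks_long hm a hz hl ?_ hj
  have h1 : N - n - 1 = l := by omega
  rwa [h1] at hN

/-- the numerical condition holds in the Fano range -/
theorem sum_le_of_fano {m N n : ℕ} (hm : 1 ≤ m) (a : Fin N → ℕ) (hz : m ∣ ∑ i, a i)
    (hN : (N - n - 1) * (m - 1) ≤ n) (j : ℕ) : ∑ i, (j * a i) % m ≤ n * m := by
  have h1 : m ∣ ∑ i, (j * a i) % m := dvd_mod_sum j a hz
  have h2 : ∑ i, (j * a i) % m ≤ N * (m - 1) := by
    have h3 : ∑ i, (j * a i) % m ≤ ∑ _i : Fin N, (m - 1) := Finset.sum_le_sum fun i _ => by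
      have := Nat.mod_lt (j * a i) hm
      omega
    rwa [Finset.sum_const, Finset.card_univ, Fintype.card_fin, smul_eq_mul] at h3
  obtain ⟨m', rfl⟩ : ∃ m', m = m' + 1 := ⟨m - 1, by omega⟩
  rw [Nat.add_sub_cancel] at hN h2
  obtain ⟨t, ht⟩ := h1
  rw [ht] at h2 ⊢
  rcases Nat.lt_or_ge n t with h3 | h3
  · exfalso
    have h4 : (m' + 1) * (n + 1) ≤ (m' + 1) * t := Nat.mul_le_mul_left _ h3
    rcases Nat.lt_or_ge n N with h5 | h5
    · obtain ⟨l, hl⟩ : ∃ l, N = n + (l + 1) := ⟨N - n - 1, by omega⟩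
      have h6 : N - n - 1 = l := by omega
      rw [h6] at hN
      subst hl
      nlinarith
    · have h6 : N * m' ≤ n * m' := Nat.mul_le_mul_right _ h5
      nlinarith
  · rw [mul_comm]
    exact Nat.mul_le_mul_right _ h3

/-- rationality in the Fano range -/
theorem Cover.rational_fano (h : Cover m c a x y) (hn : 1 ≤ n) (hc : GenPos c) (hm : 1 ≤ m)
    (hN : (N - n - 1) * (m - 1) ≤ n) (hz : m ∣ ∑ i, a i) : IsRational k L n := by
  have h1 : (N - n - 1) * (m / 2) ≤ n := by
    refine le_trans (Nat.mul_le_mul_left _ ?_) hN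
    omega
  exact ((h.tfae_long hn hc hm h1 hz).out 0 6).2 (sum_le_of_fano hm a hz hN)

end Pool.Agent.T9h38.Cyc
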