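import Pool.Agent.T9h38.Cyc.Long

/-!
Sequences in `ℤ/m` with at most two different values up to sign: the maximal number of classes with
sum zero is the minimal norm.
-/

set_option autoImplicit false

namespace Pool.Agent.T9h38.Cyc

section lattice

/-- the next pair of vertices -/
theorem pair_step {m r s : ℕ} (hm : 0 < m) (u v : ℕ)
    (hx : (m : ℤ) ∣ r * u + s * v)
    (hdual : ∀ a b c d : ℤ, (m : ℤ) ∣ r * a + s * b → (m : ℤ) ∣ r * c + s * d →
      (m : ℤ) ∣ a * d - b * c) :
    ∀ (n : ℕ) (a b c d : ℤ), c.toNat = n → 0 ≤ c → c < a → 0 ≤ b → b < d → a * d - b * c = m →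
      (m : ℤ) ∣ r * a + s * b → (m : ℤ) ∣ r * c + s * d → b * u ≤ a * v →
      ∃ a b c d α β : ℤ, 0 ≤ c ∧ c < a ∧ 0 ≤ b ∧ b < d ∧ a * d - b * c = m ∧
        (m : ℤ) ∣ r * a + s * b ∧ (m : ℤ) ∣ r * c + s * d ∧ 0 ≤ α ∧ 0 ≤ β ∧
        (u : ℤ) = α * a + β * c ∧ (v : ℤ) = α * b + β * d := by
  intro n
  induction n using Nat.strong_induction_on with
  | _ n ih =>
    intro a b c d hn hc hca hb hbd hdet h1 h2 hx2
    have hmz : (0 : ℤ) < m := by exact_mod_cast hm
    rcases le_or_gt (c * v) (d * u) with h | h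
    · obtain ⟨α, hα⟩ := hdual u v c d hx h2
      obtain ⟨β, hβ⟩ := hdual a b u v h1 hx
      refine ⟨a, b, c, d, α, β, hc, hca, hb, hbd, hdet, h1, h2, ?_, ?_, ?_, ?_⟩
      · by_contra hneg
        push Not at hneg
        have : (m : ℤ) * α < 0 := mul_neg_of_pos_of_neg hmz hneg
        nlinarith
      · by_contra hneg
        push Not at hneg
        have : (m : ℤ) * β < 0 := mul_neg_of_pos_of_neg hmz hneg
        nlinarith
      · apply mul_left_cancel₀ hmz.ne'
        linear_combination (-(u : ℤ)) * hdet + a * hα + c * hβ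
      · apply mul_left_cancel₀ hmz.ne'
        linear_combination (-(v : ℤ)) * hdet + b * hα + d * hβ
    · have hc0 : 0 < c := by
        rcases hc.lt_or_eq with h3 | h3
        · exact h3
        · exfalso
          rw [← h3, zero_mul] at h
          have : 0 ≤ d * u := mul_nonneg (by omega) (by positivity)
          omega
      -- t = ⌈a / c⌉
      let t : ℤ := (a + c - 1) / c
      have ht1 : c * t ≤ a + c - 1 := Int.mul_ediv_self_le hc0.ne'
      have ht2 : a + c - 1 < c * t + c := by
        have := Int.lt_mul_ediv_self_add (x := a + c - 1) hc0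
        exact this
      have ht3 : 2 ≤ t := by
        by_contra h3
        have h4 : t ≤ 1 := by omega
        nlinarith
      refine ih ((t * c - a).toNat) ?_ c d (t * c - a) (t * d - b) rfl ?_ ?_ ?_ ?_ ?_ h2 ?_ ?_
      · rw [← hn]
        have h3 : t * c - a < c := by nlinarith
        omega
      · nlinarith
      · nlinarith
      · nlinarith
      · nlinarith
      · linear_combination hdet
      · have h3 : (r : ℤ) * (t * c - a) + s * (t * d - b) =
            t * (r * c + s * d) - (r * a + s * b) := by ring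
        rw [h3]
        exact dvd_sub (h2.mul_left t) h1
      · nlinarith

/-- the determinant of two vectors of the lattice -/
theorem dual_of_gcd {m r s : ℕ} (hg : ∃ A B C : ℤ, A * r + B * s + C * m = 1) (a b c d : ℤ)
    (h1 : (m : ℤ) ∣ r * a + s * b) (h2 : (m : ℤ) ∣ r * c + s * d) : (m : ℤ) ∣ a * d - b * c := by
  obtain ⟨A, B, C, hABC⟩ := hg
  obtain ⟨x, hx⟩ := h1
  obtain ⟨y, hy⟩ := h2
  -- r (a d - b c) = d (ra + sb) - b (rc + sd), s (a d - b c) = a (rc + sd) - c (ra + sb)
  refine ⟨A * (d * x - b * y) + B * (a * y - c * x) + C * (a * d - b * c), ?_⟩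
  have e1 : (r : ℤ) * (a * d - b * c) = m * (d * x - b * y) := by
    linear_combination d * hx - b * hy
  have e2 : (s : ℤ) * (a * d - b * c) = m * (a * y - c * x) := by
    linear_combination a * hy - c * hx
  linear_combination A * e1 + B * e2 - (a * d - b * c) * hABC

/-- **The plane case**: every vector of the lattice `r u + s v ≡ 0` in the quadrant is a sum of
vectors on which an admissible linear form has the value one. -/
theorem exists_pair {m r s : ℕ} (hm : 0 < m) (hg : ∃ A B C : ℤ, A * r + B * s + C * m = 1)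
    (u v : ℕ) (hx : m ∣ r * u + s * v) :
    ∃ a b c d α β : ℕ, 1 ≤ a ∧ 1 ≤ d ∧ m ∣ r * a + s * b ∧ m ∣ r * c + s * d ∧
      u = α * a + β * c ∧ v = α * b + β * d ∧
      ∃ j p q : ℕ, 1 ≤ p ∧ 1 ≤ q ∧ p * a + q * b = m ∧ p * c + q * d = m ∧
        (j * r) % m = p % m ∧ (j * s) % m = q % m := by
  have hmz : (0 : ℤ) < m := by exact_mod_cast hm
  have hdual := dual_of_gcd hg
  -- the first pair
  set g := Nat.gcd m r with hgdef
  have hg0 : 0 < g := Nat.gcd_pos_of_pos_left _ hm
  obtain ⟨m', hm'⟩ : g ∣ m := Nat.gcd_dvd_left _ _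
  obtain ⟨r', hr'⟩ : g ∣ r := Nat.gcd_dvd_right _ _
  have hm'0 : 0 < m' := Nat.pos_of_ne_zero fun h => by
    rw [h, mul_zero] at hm'
    omega
  have hcop : Nat.Coprime m' r' := by
    have h1 : g = g * Nat.gcd m' r' := by
      conv_lhs => rw [hgdef, hm', hr', Nat.gcd_mul_left]
    have h2 : g * Nat.gcd m' r' = g * 1 := by omega
    exact Nat.eq_of_mul_eq_mul_left hg0 h2
  obtain ⟨c0, hc0, hc0'⟩ : ∃ c0 : ℕ, c0 < m' ∧ m' ∣ r' * c0 + s := by
    have hne : NeZero m' := ⟨hm'0.ne'⟩
    let U : (ZMod m')ˣ := ZMod.unitOfCoprime r' hcop.symm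
    refine ⟨(-(s : ZMod m') * ((U⁻¹ : (ZMod m')ˣ) : ZMod m')).val, ZMod.val_lt _, ?_⟩
    rw [← ZMod.natCast_eq_zero_iff]
    push_cast
    rw [ZMod.natCast_zmod_val]
    have hU : ((r' : ℕ) : ZMod m') = (U : ZMod m') := (ZMod.coe_unitOfCoprime r' hcop.symm).symm
    rw [hU]
    have h3 : (U : ZMod m') * (-(s : ZMod m') * ((U⁻¹ : (ZMod m')ˣ) : ZMod m')) =
        -(s : ZMod m') * ((U : ZMod m') * ((U⁻¹ : (ZMod m')ˣ) : ZMod m')) := by ring
    rw [h3, Units.mul_inv]
    ring
  have hmg : (m : ℤ) = g * m' := by exact_mod_cast hm'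
  have hrg : (r : ℤ) = g * r' := by exact_mod_cast hr'
  obtain ⟨a, b, c, d, α, β, h1, h2, h3, h4, h5, h6, h7, h8, h9, h10, h11⟩ :=
    pair_step (r := r) (s := s) hm u v (by exact_mod_cast hx) hdual c0 m' 0 c0 g
      (by simp) (by positivity) (by exact_mod_cast hc0) le_rfl (by exact_mod_cast hg0)
      (by rw [hmg]; ring) (by
        rw [mul_zero, add_zero, hmg, hrg]
        exact ⟨r', by ring⟩) (by
        obtain ⟨t, ht⟩ := hc0'
        refine ⟨t, ?_⟩
        have ht' : (r' : ℤ) * c0 + s = m' * t := by exact_mod_cast ht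
        rw [hmg, hrg]
        linear_combination (g : ℤ) * ht') (by
        rw [zero_mul]
        positivity)
  lift c to ℕ using h1
  lift b to ℕ using h3
  lift a to ℕ using (by omega)
  lift d to ℕ using (by omega)
  lift α to ℕ using h8
  lift β to ℕ using h9
  refine ⟨a, b, c, d, α, β, by omega, by omega, by exact_mod_cast h6, by exact_mod_cast h7,
    by exact_mod_cast h10, by exact_mod_cast h11, ?_⟩
  obtain ⟨A, B, C, hABC⟩ := hg
  obtain ⟨p, hp⟩ : ∃ p : ℕ, d = b + p := ⟨d - b, by omega⟩
  obtain ⟨q, hq⟩ : ∃ q : ℕ, a = c + q := ⟨a - c, by omega⟩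
  subst hp hq
  push_cast at h2 h4 h5 h6 h7
  refine ⟨((A * p + B * q) % m).toNat, p, q, by omega, by omega, ?_, ?_, ?_, ?_⟩
  · have : (p : ℤ) * (c + q) + q * b = m := by linear_combination h5
    exact_mod_cast this
  · have : (p : ℤ) * c + q * (b + p) = m := by linear_combination h5
    exact_mod_cast this
  all_goals
    have hj : (((A * p + B * q) % m).toNat : ℤ) = (A * p + B * q) % m :=
      Int.toNat_of_nonneg (Int.emod_nonneg _ hmz.ne')
    have hj2 : (m : ℤ) ∣ (A * p + B * q) - (((A * p + B * q) % m).toNat : ℤ) := by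
      rw [hj]
      exact Int.dvd_self_sub_emod
    have hpq : (m : ℤ) ∣ p * s - q * r := by
      have h12 := dvd_sub h7 h6
      have h13 : (r : ℤ) * c + s * (b + p) - (r * (c + q) + s * b) = p * s - q * r := by ring
      rwa [h13] at h12
  · have h14 : (m : ℤ) ∣ (p : ℤ) - (((A * p + B * q) % m).toNat * r : ℕ) := by
      have h15 : (p : ℤ) - (((A * p + B * q) % m).toNat * r : ℕ) =
          ((A * p + B * q) - (((A * p + B * q) % m).toNat : ℤ)) * r + B * (p * s - q * r) +
            (p * C) * m := by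
        push_cast
        linear_combination (-(p : ℤ)) * hABC
      rw [h15]
      exact dvd_add (dvd_add (hj2.mul_right _) (hpq.mul_left _)) (Dvd.intro_left _ rfl)
    have h17 : ((((A * p + B * q) % m).toNat * r : ℕ) : ℤ) % m = (p : ℤ) % m :=
      (Int.emod_eq_emod_iff_emod_sub_eq_zero.2 (by
        rw [← neg_sub]
        exact Int.emod_eq_zero_of_dvd ((dvd_neg (a := (m : ℤ))).2 h14)))
    exact_mod_cast h17
  · have h14 : (m : ℤ) ∣ (q : ℤ) - (((A * p + B * q) % m).toNat * s : ℕ) := by
      have h15 : (q : ℤ) - (((A * p + B * q) % m).toNat * s : ℕ) =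
          ((A * p + B * q) - (((A * p + B * q) % m).toNat : ℤ)) * s - A * (p * s - q * r) +
            (q * C) * m := by
        push_cast
        linear_combination (-(q : ℤ)) * hABC
      rw [h15]
      exact dvd_add (dvd_sub (hj2.mul_right _) (hpq.mul_left _)) (Dvd.intro_left _ rfl)
    have h17 : ((((A * p + B * q) % m).toNat * s : ℕ) : ℤ) % m = (q : ℤ) % m :=
      (Int.emod_eq_emod_iff_emod_sub_eq_zero.2 (by
        rw [← neg_sub]
        exact Int.emod_eq_zero_of_dvd ((dvd_neg (a := (m : ℤ))).2 h14)))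
    exact_mod_cast h17

end lattice

section blocks

variable {ι : Type} [DecidableEq ι]

omit [DecidableEq ι] in
theorem sum_const_mod {m r : ℕ} (a : ι → ℕ) (X : Finset ι) (h : ∀ i ∈ X, a i ≡ r [MOD m]) :
    ∑ i ∈ X, a i ≡ r * X.card [MOD m] := by
  have h1 : ∑ i ∈ X, a i ≡ ∑ _i ∈ X, r [MOD m] := by
    rw [Nat.ModEq, Finset.sum_nat_mod, Finset.sum_nat_mod X m fun _ => r]
    congr 1
    exact Finset.sum_congr rfl fun i hi => h i hi
  rwa [Finset.sum_const, smul_eq_mul, mul_comm] at h1

/-- classes of one type -/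
theorem blocks_type {m r s x y : ℕ} (a : ι → ℕ) (hxy : 1 ≤ x + y) (hz : m ∣ r * x + s * y) (α : ℕ) :
    ∀ R T : Finset ι, Disjoint R T → (∀ i ∈ R, a i ≡ r [MOD m]) → (∀ i ∈ T, a i ≡ s [MOD m]) →
      R.card = α * x → T.card = α * y → Blocks m a (R ∪ T) α := by
  induction α with
  | zero =>
    intro R T _ _ _ h1 h2
    rw [zero_mul, Finset.card_eq_zero] at h1 h2
    rw [h1, h2, Finset.union_empty]
    exact Blocks.nil
  | succ α ih =>
    intro R T hd hR hT h1 h2
    rw [add_mul, one_mul] at h1 h2
    obtain ⟨X, hX, hXc⟩ := Finset.exists_subset_card_eq (s := R) (n := x) (by omega)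
    obtain ⟨Y, hY, hYc⟩ := Finset.exists_subset_card_eq (s := T) (n := y) (by omega)
    have h3 := ih (R \ X) (T \ Y) (hd.mono Finset.sdiff_subset Finset.sdiff_subset)
      (fun i hi => hR i (Finset.sdiff_subset hi)) (fun i hi => hT i (Finset.sdiff_subset hi))
      (by rw [Finset.card_sdiff_of_subset hX]; omega)
      (by rw [Finset.card_sdiff_of_subset hY]; omega)
    have h4 : R ∪ T = (X ∪ Y) ∪ ((R \ X) ∪ (T \ Y)) := by
      rw [Finset.union_union_union_comm, Finset.union_sdiff_of_subset hX,
        Finset.union_sdiff_of_subset hY]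
    have h5 : Disjoint X Y := hd.mono hX hY
    rw [h4]
    refine Blocks.cons ?_ ?_ ?_ h3
    · rw [← Finset.card_pos, Finset.card_union_of_disjoint h5]
      omega
    · rw [Finset.disjoint_union_left, Finset.disjoint_union_right, Finset.disjoint_union_right]
      exact ⟨⟨Finset.disjoint_sdiff, hd.mono hX Finset.sdiff_subset⟩,
        (hd.symm.mono hY Finset.sdiff_subset), Finset.disjoint_sdiff⟩
    · rw [Finset.sum_union h5]
      have h6 := sum_const_mod a X fun i hi => hR i (hX hi)
      have h7 := sum_const_mod a Y fun i hi => hT i (hY hi)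
      rw [hXc] at h6
      rw [hYc] at h7
      exact (Nat.ModEq.dvd_iff (Nat.ModEq.add h6 h7) (dvd_refl m)).2 hz

/-- **Two values.** -/
theorem two_values {m : ℕ} (hm : 0 < m) (a : ι → ℕ) (r s : ℕ) (hr : ¬ m ∣ r) (hs : ¬ m ∣ s)
    (R T : Finset ι) (hd : Disjoint R T) (hR : ∀ i ∈ R, a i ≡ r [MOD m])
    (hT : ∀ i ∈ T, a i ≡ s [MOD m]) (hz : m ∣ ∑ i ∈ R ∪ T, a i) :
    ∃ j, ¬ m ∣ j * r ∧ ¬ m ∣ j * s ∧
      ∃ k, Blocks m a (R ∪ T) k ∧ k * m = ∑ i ∈ R ∪ T, (j * a i) % m := by
  -- divide by the greatest common divisor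
  set g := Nat.gcd (Nat.gcd r s) m with hgdef
  have hg0 : 0 < g := Nat.gcd_pos_of_pos_right _ hm
  obtain ⟨m', hm'⟩ : g ∣ m := Nat.gcd_dvd_right _ _
  obtain ⟨r', hr'⟩ : g ∣ r := (Nat.gcd_dvd_left _ _).trans (Nat.gcd_dvd_left _ _)
  obtain ⟨s', hs'⟩ : g ∣ s := (Nat.gcd_dvd_left _ _).trans (Nat.gcd_dvd_right _ _)
  have hm'0 : 0 < m' := Nat.pos_of_ne_zero fun h => by
    rw [h, mul_zero] at hm'
    omega
  have hcop : Nat.gcd (Nat.gcd r' s') m' = 1 := by
    have h1 : g = g * Nat.gcd (Nat.gcd r' s') m' := by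
      conv_lhs => rw [hgdef, hm', hr', hs', Nat.gcd_mul_left, Nat.gcd_mul_left]
    have h2 : g * Nat.gcd (Nat.gcd r' s') m' = g * 1 := by omega
    exact Nat.eq_of_mul_eq_mul_left hg0 h2
  have hbez : ∃ A B C : ℤ, A * r' + B * s' + C * m' = 1 := by
    have h1 := Nat.gcd_eq_gcd_ab (Nat.gcd r' s') m'
    have h2 := Nat.gcd_eq_gcd_ab r' s'
    rw [hcop, h2] at h1
    refine ⟨(Nat.gcdA r' s') * (Nat.gcdA (Nat.gcd r' s') m'),
      (Nat.gcdB r' s') * (Nat.gcdA (Nat.gcd r' s') m'), Nat.gcdB (Nat.gcd r' s') m', ?_⟩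
    push_cast at h1
    linear_combination -h1
  have hsum : m ∣ r * R.card + s * T.card := by
    rw [Finset.sum_union hd] at hz
    exact (Nat.ModEq.dvd_iff (Nat.ModEq.add (sum_const_mod a R hR) (sum_const_mod a T hT))
      (dvd_refl m)).1 hz
  have hmul : ∀ x y : ℕ, m' ∣ r' * x + s' * y → m ∣ r * x + s * y := by
    rintro x y ⟨t, ht⟩
    refine ⟨t, ?_⟩
    rw [hm', hr', hs', mul_assoc, mul_assoc, mul_assoc, ← mul_add, ht]
  obtain ⟨x, y, z, w, α, β, hx1, hw1, h1, h2, hu, hv, j, p, q, hp, hq, h3, h4, hjr, hjs⟩ :=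
    exists_pair hm'0 hbez R.card T.card (by
      obtain ⟨t, ht⟩ := hsum
      refine ⟨t, Nat.eq_of_mul_eq_mul_left hg0 ?_⟩
      calc g * (r' * R.card + s' * T.card) = r * R.card + s * T.card := by rw [hr', hs']; ring
        _ = m * t := ht
        _ = g * (m' * t) := by rw [hm']; ring)
  -- `p` and `q` are smaller than `m'`
  have hpm : p < m' := by
    by_contra hcon
    push Not at hcon
    have h5 : p * 1 ≤ p * x := Nat.mul_le_mul_left _ hx1
    have h6 : q * y = 0 := by omega
    have h7 : y = 0 := by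
      rcases Nat.mul_eq_zero.1 h6 with h | h
      · omega
      · exact h
    have h8 : x = 1 := by
      by_contra h
      have : p * 2 ≤ p * x := Nat.mul_le_mul_left _ (by omega)
      omega
    subst h7 h8
    apply hr
    have := hmul 1 0 h1
    rwa [mul_one, mul_zero, add_zero] at this
  have hqm : q < m' := by
    by_contra hcon
    push Not at hcon
    have h5 : q * 1 ≤ q * w := Nat.mul_le_mul_left _ hw1
    have h6 : p * z = 0 := by omega
    have h7 : z = 0 := by
      rcases Nat.mul_eq_zero.1 h6 with h | h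
      · omega
      · exact h
    have h8 : w = 1 := by
      by_contra h
      have : q * 2 ≤ q * w := Nat.mul_le_mul_left _ (by omega)
      omega
    subst h7 h8
    apply hs
    have := hmul 0 1 h2
    rwa [mul_one, mul_zero, zero_add] at this
  have hres : ∀ (t t' x' : ℕ), t = g * t' → (j * t') % m' = x' % m' → x' < m' →
      (j * t) % m = g * x' := by
    intro t t' x' h5 h6 h7
    rw [h5, mul_left_comm, hm', Nat.mul_mod_mul_left, h6, Nat.mod_eq_of_lt h7]
  have hR2 : (j * r) % m = g * p := hres r r' p hr' hjr hpm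
  have hT2 : (j * s) % m = g * q := hres s s' q hs' hjs hqm
  refine ⟨j, ?_, ?_, α + β, ?_, ?_⟩
  · intro h
    rw [Nat.mod_eq_zero_of_dvd h] at hR2
    have : 0 < g * p := Nat.mul_pos hg0 hp
    omega
  · intro h
    rw [Nat.mod_eq_zero_of_dvd h] at hT2
    have : 0 < g * q := Nat.mul_pos hg0 hq
    omega
  · obtain ⟨X, hX, hXc⟩ := Finset.exists_subset_card_eq (s := R) (n := α * x) (by omega)
    obtain ⟨Y, hY, hYc⟩ := Finset.exists_subset_card_eq (s := T) (n := α * y) (by omega)
    have h5 := blocks_type (m := m) (r := r) (s := s) (x := x) (y := y) a (by omega) (hmul _ _ h1) α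
      X Y (hd.mono hX hY) (fun i hi => hR i (hX hi)) (fun i hi => hT i (hY hi)) hXc hYc
    have h6 := blocks_type (m := m) (r := r) (s := s) (x := z) (y := w) a (by omega) (hmul _ _ h2) β
      (R \ X) (T \ Y) (hd.mono Finset.sdiff_subset Finset.sdiff_subset)
      (fun i hi => hR i (Finset.sdiff_subset hi)) (fun i hi => hT i (Finset.sdiff_subset hi))
      (by rw [Finset.card_sdiff_of_subset hX]; omega)
      (by rw [Finset.card_sdiff_of_subset hY]; omega)
    have h7 := h5.union h6 (by
      rw [Finset.disjoint_union_left, Finset.disjoint_union_right, Finset.disjoint_union_right]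
      exact ⟨⟨Finset.disjoint_sdiff, hd.mono hX Finset.sdiff_subset⟩,
        (hd.symm.mono hY Finset.sdiff_subset), Finset.disjoint_sdiff⟩)
    have h8 : X ∪ Y ∪ ((R \ X) ∪ (T \ Y)) = R ∪ T := by
      rw [Finset.union_union_union_comm, Finset.union_sdiff_of_subset hX,
        Finset.union_sdiff_of_subset hY]
    rwa [h8] at h7
  · have h5 : ∀ i ∈ R, (j * a i) % m = g * p := fun i hi => by
      rw [← hR2]
      exact Nat.ModEq.mul_left j (hR i hi)
    have h6 : ∀ i ∈ T, (j * a i) % m = g * q := fun i hi => by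
      rw [← hT2]
      exact Nat.ModEq.mul_left j (hT i hi)
    rw [Finset.sum_union hd, Finset.sum_congr rfl h5, Finset.sum_congr rfl h6, Finset.sum_const,
      Finset.sum_const, smul_eq_mul, smul_eq_mul, hu, hv, hm', ← h3]
    have h9 : (α + β) * (g * (p * x + q * y)) =
        α * (g * (p * x + q * y)) + β * (g * (p * z + q * w)) := by
      rw [h4, h3]
      ring
    rw [h9]
    ring

/-- the contribution of a pair `x, -x` -/
theorem q_pair_of_not {m c x y : ℕ} (hm : 0 < m) (hx : ¬ m ∣ c * x) (hxy : m ∣ x + y) :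
    q m c x + q m c y = m := by
  have h3 : m ∣ c * x + c * y := by rw [← mul_add]; exact hxy.mul_left c
  have h2 : ¬ m ∣ c * y := fun h => hx ((Nat.dvd_add_left h).1 h3)
  rw [q, q, if_neg hx, if_neg h2]
  have h4 : 0 < (c * x) % m := Nat.pos_of_ne_zero fun h => hx (Nat.dvd_of_mod_eq_zero h)
  have h5 : (c * x) % m < m := Nat.mod_lt _ hm
  have h6 : (c * y) % m < m := Nat.mod_lt _ hm
  have h7 : m ∣ (c * x) % m + (c * y) % m := by
    rw [Nat.dvd_iff_mod_eq_zero, ← Nat.add_mod]
    exact Nat.mod_eq_zero_of_dvd h3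
  obtain ⟨t, ht⟩ := h7
  have h8 : t < 2 := by
    by_contra h
    have : m * 2 ≤ m * t := Nat.mul_le_mul_left m (by omega)
    omega
  have h9 : 0 < t := by
    rcases Nat.eq_zero_or_pos t with rfl | h
    · omega
    · exact h
  have h10 : t = 1 := by omega
  rw [ht, h10, mul_one]

/-- **At most two values up to sign**, besides zero. -/
theorem reduce_two {m : ℕ} (hm : 0 < m) (a : ι → ℕ) (r s : ZMod m) (hr : r ≠ 0) (hs : s ≠ 0) :
    ∀ (n : ℕ) (S : Finset ι), S.card = n →
      (∀ i ∈ S, (a i : ZMod m) = 0 ∨ (a i : ZMod m) = r ∨ (a i : ZMod m) = -r ∨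
        (a i : ZMod m) = s ∨ (a i : ZMod m) = -s) → m ∣ ∑ i ∈ S, a i →
      ∃ j : ℕ, (j : ZMod m) * r ≠ 0 ∧ (j : ZMod m) * s ≠ 0 ∧
        ∃ k, Blocks m a S k ∧ k * m = ∑ i ∈ S, q m j (a i) := by
  have hm0 : NeZero m := ⟨hm.ne'⟩
  intro n
  induction n using Nat.strong_induction_on with
  | _ n ih =>
    intro S hn hS hz
    by_cases h0 : ∃ i ∈ S, (a i : ZMod m) = 0
    · obtain ⟨i, hi, hi0⟩ := h0
      have hdi : m ∣ a i := (ZMod.natCast_eq_zero_iff _ _).1 hi0
      have h1 : a i + ∑ j ∈ S.erase i, a j = ∑ j ∈ S, a j := Finset.add_sum_erase S a hi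
      have h2 : m ∣ ∑ j ∈ S.erase i, a j := (Nat.dvd_add_right hdi).1 (h1 ▸ hz)
      obtain ⟨j, hjr, hjs, k, hk, hkm⟩ := ih _ (by
        have := Finset.card_erase_lt_of_mem hi
        omega) (S.erase i) rfl (fun l hl => hS l (Finset.mem_of_mem_erase hl)) h2
      refine ⟨j, hjr, hjs, k + 1, ?_, ?_⟩
      · have h3 := Blocks.cons (T := {i}) (Finset.singleton_nonempty i)
          (Finset.disjoint_singleton_left.2 (Finset.notMem_erase i S))
          (by rw [Finset.sum_singleton]; exact hdi) hk
        rwa [← Finset.insert_eq, Finset.insert_erase hi] at h3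
      · rw [← Finset.add_sum_erase S _ hi, ← hkm, q_zero hdi]
        ring
    · push Not at h0
      by_cases hp : ∃ i ∈ S, ∃ l ∈ S, i ≠ l ∧ (a i : ZMod m) + a l = 0
      · obtain ⟨i, hi, l, hl, hil, hsum⟩ := hp
        have hdil : m ∣ a i + a l := by
          rw [← ZMod.natCast_eq_zero_iff]
          push_cast
          exact hsum
        have hl' : l ∈ S.erase i := Finset.mem_erase.2 ⟨hil.symm, hl⟩
        have h1 : a i + (a l + ∑ j ∈ (S.erase i).erase l, a j) = ∑ j ∈ S, a j := by
          rw [Finset.add_sum_erase _ a hl', Finset.add_sum_erase S a hi]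
        have h2 : m ∣ ∑ j ∈ (S.erase i).erase l, a j := by
          rw [← add_assoc] at h1
          exact (Nat.dvd_add_right hdil).1 (h1 ▸ hz)
        obtain ⟨j, hjr, hjs, k, hk, hkm⟩ := ih _ (by
          have h3 := Finset.card_erase_lt_of_mem hi
          have h4 := Finset.card_erase_lt_of_mem hl'
          omega) ((S.erase i).erase l) rfl
          (fun l' hl' => hS l' (Finset.mem_of_mem_erase (Finset.mem_of_mem_erase hl'))) h2
        have hji : ¬ m ∣ j * a i := by
          rw [← ZMod.natCast_eq_zero_iff]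
          push_cast
          rcases hS i hi with h | h | h | h | h
          · exact absurd h (h0 i hi)
          · rw [h]; exact hjr
          · rw [h, mul_neg]; exact neg_ne_zero.2 hjr
          · rw [h]; exact hjs
          · rw [h, mul_neg]; exact neg_ne_zero.2 hjs
        refine ⟨j, hjr, hjs, k + 1, ?_, ?_⟩
        · have h3 := Blocks.cons (T := {i, l}) (Finset.insert_nonempty _ _)
            (by
              rw [Finset.disjoint_left]
              intro x hx hx'
              rw [Finset.mem_insert, Finset.mem_singleton] at hx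
              rcases hx with rfl | rfl
              · exact (Finset.mem_erase.1 (Finset.mem_of_mem_erase hx')).1 rfl
              · exact (Finset.mem_erase.1 hx').1 rfl)
            (by rw [Finset.sum_pair hil]; exact hdil) hk
          have h4 : {i, l} ∪ (S.erase i).erase l = S := by
            rw [Finset.insert_union, ← Finset.insert_eq, Finset.insert_erase hl',
              Finset.insert_erase hi]
          rwa [h4] at h3
        · rw [← Finset.add_sum_erase S _ hi, ← Finset.add_sum_erase _ _ hl', ← hkm, ← add_assoc,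
            q_pair_of_not hm hji hdil]
          ring
      · -- the reduced case
        have key : ∀ t : ZMod m, t ≠ 0 → ∃ t1 : ZMod m, (t1 = t ∨ t1 = -t) ∧
            ∀ i ∈ S, ((a i : ZMod m) = t ∨ (a i : ZMod m) = -t) → (a i : ZMod m) = t1 := by
          intro t _
          by_cases h : ∃ i ∈ S, (a i : ZMod m) = t
          · obtain ⟨i0, hi0, hi0t⟩ := h
            refine ⟨t, Or.inl rfl, fun i hi hit => ?_⟩
            rcases hit with h | h
            · exact h
            · by_cases hii : i = i0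
              · rw [hii]
                exact hi0t
              · exact absurd ⟨i, hi, i0, hi0, hii, by rw [h, hi0t]; ring⟩ hp
          · refine ⟨-t, Or.inr rfl, fun i hi hit => ?_⟩
            rcases hit with h' | h'
            · exact absurd ⟨i, hi, h'⟩ h
            · exact h'
        obtain ⟨r1, hr1, hSr⟩ := key r hr
        obtain ⟨s1, hs1, hSs⟩ := key s hs
        have hr10 : r1 ≠ 0 := by
          rcases hr1 with rfl | rfl
          · exact hr
          · exact neg_ne_zero.2 hr
        have hs10 : s1 ≠ 0 := by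
          rcases hs1 with rfl | rfl
          · exact hs
          · exact neg_ne_zero.2 hs
        have hval : ∀ t : ZMod m, t ≠ 0 → ¬ m ∣ t.val := by
          intro t ht h
          apply ht
          rw [← ZMod.natCast_zmod_val t]
          exact (ZMod.natCast_eq_zero_iff _ _).2 h
        have hmod : ∀ (t : ZMod m) (x : ℕ), (x : ZMod m) = t → x ≡ t.val [MOD m] := by
          intro t x h
          rw [← ZMod.natCast_eq_natCast_iff, ZMod.natCast_zmod_val]
          exact h
        set R := S.filter fun i => (a i : ZMod m) = r1 with hRdef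
        set T := S.filter fun i => ¬ (a i : ZMod m) = r1 with hTdef
        have hRT : R ∪ T = S := Finset.filter_union_filter_not_eq _ _
        have hdRT : Disjoint R T := Finset.disjoint_filter_filter_not _ _ _
        have hTs : ∀ i ∈ T, (a i : ZMod m) = s1 := by
          intro i hi
          obtain ⟨hi1, hi2⟩ := Finset.mem_filter.1 hi
          rcases hS i hi1 with h | h | h | h | h
          · exact absurd h (h0 i hi1)
          · exact absurd (hSr i hi1 (Or.inl h)) hi2
          · exact absurd (hSr i hi1 (Or.inr h)) hi2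
          · exact hSs i hi1 (Or.inl h)
          · exact hSs i hi1 (Or.inr h)
        obtain ⟨j, hj1, hj2, k, hk, hkm⟩ := two_values hm a r1.val s1.val (hval r1 hr10)
          (hval s1 hs10) R T hdRT (fun i hi => hmod r1 _ (Finset.mem_filter.1 hi).2)
          (fun i hi => hmod s1 _ (hTs i hi)) (by rw [hRT]; exact hz)
        rw [hRT] at hk hkm
        have hjval : ∀ t : ZMod m, ¬ m ∣ j * t.val → (j : ZMod m) * t ≠ 0 := by
          intro t h h'
          apply h
          rw [← ZMod.natCast_eq_zero_iff]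
          push_cast
          rw [ZMod.natCast_zmod_val]
          exact h'
        have hj1' := hjval r1 hj1
        have hj2' := hjval s1 hj2
        refine ⟨j, ?_, ?_, k, hk, ?_⟩
        · rcases hr1 with rfl | rfl
          · exact hj1'
          · rw [mul_neg] at hj1'
            exact neg_ne_zero.1 hj1'
        · rcases hs1 with rfl | rfl
          · exact hj2'
          · rw [mul_neg] at hj2'
            exact neg_ne_zero.1 hj2'
        · rw [hkm]
          refine Finset.sum_congr rfl fun i hi => ?_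
          rw [q, if_neg]
          rw [← ZMod.natCast_eq_zero_iff]
          push_cast
          by_cases hir : (a i : ZMod m) = r1
          · rw [hir]
            exact hj1'
          · rw [hTs i (Finset.mem_filter.2 ⟨hi, hir⟩)]
            exact hj2'

/-- **Blocks for sequences with at most two values up to sign.** -/
theorem exists_blocks_two {m : ℕ} (hm : 0 < m) (a : ι → ℕ) (r s : ZMod m) (S : Finset ι)
    (hS : ∀ i ∈ S, (a i : ZMod m) = 0 ∨ (a i : ZMod m) = r ∨ (a i : ZMod m) = -r ∨
      (a i : ZMod m) = s ∨ (a i : ZMod m) = -s) (hz : m ∣ ∑ i ∈ S, a i) :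
    ∃ j k, Blocks m a S k ∧ k * m = ∑ i ∈ S, q m j (a i) := by
  by_cases hr : r = 0
  · by_cases hs : s = 0
    · refine ⟨1, S.card, Blocks.singletons S fun i hi => ?_, ?_⟩
      · rw [← ZMod.natCast_eq_zero_iff]
        rcases hS i hi with h | h | h | h | h
        · exact h
        · rw [h, hr]
        · rw [h, hr, neg_zero]
        · rw [h, hs]
        · rw [h, hs, neg_zero]
      · rw [Finset.sum_congr rfl fun i hi => q_zero (m := m) (c := 1) (x := a i) ?_,
          Finset.sum_const, smul_eq_mul]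
        rw [← ZMod.natCast_eq_zero_iff]
        rcases hS i hi with h | h | h | h | h
        · exact h
        · rw [h, hr]
        · rw [h, hr, neg_zero]
        · rw [h, hs]
        · rw [h, hs, neg_zero]
    · obtain ⟨j, -, -, k, h1, h2⟩ := reduce_two hm a s s hs hs _ S rfl (fun i hi => by
        rcases hS i hi with h | h | h | h | h
        · exact Or.inl h
        · exact Or.inl (by rw [h, hr])
        · exact Or.inl (by rw [h, hr, neg_zero])
        · exact Or.inr (Or.inl h)
        · exact Or.inr (Or.inr (Or.inl h))) hz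
      exact ⟨j, k, h1, h2⟩
  · by_cases hs : s = 0
    · obtain ⟨j, -, -, k, h1, h2⟩ := reduce_two hm a r r hr hr _ S rfl (fun i hi => by
        rcases hS i hi with h | h | h | h | h
        · exact Or.inl h
        · exact Or.inr (Or.inl h)
        · exact Or.inr (Or.inr (Or.inl h))
        · exact Or.inl (by rw [h, hs])
        · exact Or.inl (by rw [h, hs, neg_zero])) hz
      exact ⟨j, k, h1, h2⟩
    · obtain ⟨j, -, -, k, h1, h2⟩ := reduce_two hm a r s hr hs _ S rfl hS hz
      exact ⟨j, k, h1, h2⟩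

/-- the condition on the genus gives blocks (for arbitrary multipliers) -/
theorem blocks_of_sums' {m N n : ℕ} (hm : 1 ≤ m) (a : Fin N → ℕ)
    (hex : ∃ c k, Blocks m a Finset.univ k ∧ ∑ i, q m c (a i) ≤ k * m)
    (h : ∀ j : ℕ, ∑ i, (j * a i) % m ≤ n * m) (l : ℕ) (hl : 1 ≤ l)
    (hN : N = n + l) : Blocks m a Finset.univ l := by
  obtain ⟨c, k, hk, hq⟩ := hex
  have h1 : ∀ i, (c * (m - 1) * a i) % m + q m c (a i) = m := by
    intro i
    have e : c * (m - 1) * a i + c * a i = m * (c * a i) := by
      obtain ⟨m, rfl⟩ : ∃ m', m = m' + 1 := ⟨m - 1, by omega⟩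
      simp only [Nat.add_sub_cancel]
      ring
    rw [q]
    split_ifs with h2
    · have h3 : m ∣ c * (m - 1) * a i := by
        rw [mul_right_comm]
        exact h2.mul_right _
      rw [Nat.mod_eq_zero_of_dvd h3, zero_add]
    · have h4 : 0 < (c * a i) % m := Nat.pos_of_ne_zero fun h => h2 (Nat.dvd_of_mod_eq_zero h)
      have h5 : (c * a i) % m < m := Nat.mod_lt _ (by omega)
      have h6 : (c * (m - 1) * a i) % m < m := Nat.mod_lt _ (by omega)
      have h7 : m ∣ (c * (m - 1) * a i) % m + (c * a i) % m := by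
        rw [Nat.dvd_iff_mod_eq_zero, ← Nat.add_mod, e]
        exact Nat.mul_mod_right _ _
      obtain ⟨t, ht⟩ := h7
      have h8 : t < 2 := by
        by_contra h
        have : m * 2 ≤ m * t := Nat.mul_le_mul_left m (by omega)
        omega
      have h9 : 0 < t := by
        rcases Nat.eq_zero_or_pos t with rfl | h
        · omega
        · exact h
      have h10 : t = 1 := by omega
      rw [ht, h10, mul_one]
  have h2 : ∑ i, (c * (m - 1) * a i) % m + ∑ i, q m c (a i) = N * m := by
    rw [← Finset.sum_add_distrib, Finset.sum_congr rfl fun i _ => h1 i]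
    simp
  have h3 := h (c * (m - 1))
  have h5 : (n + l) * m ≤ n * m + k * m := by
    rw [← hN, ← h2]
    omega
  have h6 : l * m ≤ k * m := by
    rw [add_mul] at h5
    omega
  exact hk.reduce hl (Nat.le_of_mul_le_mul_right h6 (by omega))

end blocks

end Pool.Agent.T9h38.Cyc
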