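import Pool.Agent.T9h38.Cyc.Main
import Pool.Agent.T9h38.Cyc.Two

/-!
Rationality of cyclic covers with at most two exponents up to sign.
-/

set_option autoImplicit false
set_option linter.overlappingInstances false
set_option linter.unusedSectionVars false

open FF Pool.Agent.W602.GT
open Pool.Agent.W619.PQ (IsUniruled)
open Pool.Agent.W619.TW (IsUnirational)

namespace Pool.Agent.T9h38.Cyc

variable {k L : Type} [Field k] [Field L] [Algebra k L]

variable [IsAlgClosed k] [CharZero k] {n N m : ℕ} {c : Fin N → Fin (n + 1) → k} {a : Fin N → ℕ}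
  {x : Fin n → L} {y : L}

/-- **Cyclic covers with the exponents `0, ±r, ±s`.** -/
theorem Cover.tfae_two (h : Cover m c a x y) (hn : 1 ≤ n) (hc : GenPos c) (hm : 1 ≤ m)
    (hz : m ∣ ∑ i, a i) (r s : ZMod m)
    (ha : ∀ i, (a i : ZMod m) = 0 ∨ (a i : ZMod m) = r ∨ (a i : ZMod m) = -r ∨
      (a i : ZMod m) = s ∨ (a i : ZMod m) = -s) :
    [IsRational k L n, IsUnirational k L n, IsUniruled k L n, ¬ Psef k L n (fun _ => False),
      ¬ KodGe k L n (fun _ => False) 0, GenusZero k L n,
      ∀ j : ℕ, ∑ i, (j * a i) % m ≤ n * m].TFAE := by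
  refine h.tfae_of hn hc hm hz fun hj => h.rational_of_blocks hc hm hz fun l hl => ?_
  obtain ⟨j, k, h1, h2⟩ := exists_blocks_two hm a r s Finset.univ (fun i _ => ha i) hz
  exact blocks_of_sums' hm a ⟨j, k, h1, h2.ge⟩ hj (l + 1) (by omega) (by omega)

end Pool.Agent.T9h38.Cyc
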