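import Mathlib

/-!
Fields which are generated by monomials are purely transcendental.
-/

set_option autoImplicit false
set_option linter.unusedSectionVars false

namespace Pool.Agent.T9h38.Cyc

variable {k L : Type} [Field k] [IsAlgClosed k] [Field L] [Algebra k L]

/-- the nonzero constants -/
def constU (k L : Type) [Field k] [Field L] [Algebra k L] : Subgroup Lˣ :=
  (Units.map (algebraMap k L : k →* L)).range

/-- the nonzero functions modulo constants -/
abbrev Quo (k L : Type) [Field k] [Field L] [Algebra k L] : Type := Additive (Lˣ ⧸ constU k L)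

instance quoGroup : AddCommGroup (Quo k L) :=
  @Additive.addCommGroup _ (QuotientGroup.Quotient.commGroup (constU k L))

/-- the class of a nonzero function -/
def cls (k : Type) {L : Type} [Field k] [Field L] [Algebra k L] (g : Lˣ) : Quo k L :=
  Additive.ofMul (QuotientGroup.mk g)

theorem cls_mul (g h : Lˣ) : cls k (g * h) = cls k g + cls k h := rfl

theorem cls_zpow (g : Lˣ) (z : ℤ) : cls k (g ^ z) = z • cls k g := rfl

theorem cls_pow (g : Lˣ) (z : ℕ) : cls k (g ^ z) = z • cls k g := rfl

theorem cls_one : cls k (1 : Lˣ) = 0 := rfl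

theorem cls_prod {ι : Type} (s : Finset ι) (g : ι → Lˣ) :
    cls k (∏ i ∈ s, g i) = ∑ i ∈ s, cls k (g i) := by
  classical
  induction s using Finset.induction_on with
  | empty => simp [cls_one]
  | insert i s hi ih => rw [Finset.prod_insert hi, Finset.sum_insert hi, cls_mul, ih]

theorem cls_eq {g h : Lˣ} (e : cls k g = cls k h) : ∃ r : k, (h : L) = (g : L) * algebraMap k L r := by
  have h1 : (QuotientGroup.mk g : Lˣ ⧸ constU k L) = QuotientGroup.mk h := e
  rw [QuotientGroup.eq] at h1
  obtain ⟨r, hr⟩ := h1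
  refine ⟨r, ?_⟩
  have h2 := congrArg (fun t : Lˣ => ((g * t : Lˣ) : L)) hr
  simp only [mul_inv_cancel_left] at h2
  rw [← h2]
  rfl

theorem cls_surj (q : Quo k L) : ∃ g : Lˣ, cls k g = q := by
  induction q using Additive.rec with
  | _ q =>
    obtain ⟨g, rfl⟩ := QuotientGroup.mk_surjective q
    exact ⟨g, rfl⟩

theorem quo_torsion (q : Quo k L) (m : ℕ) (hm : 0 < m) (h : m • q = 0) : q = 0 := by
  obtain ⟨g, rfl⟩ := cls_surj q
  rw [← cls_pow] at h
  have h1 : cls k (1 : Lˣ) = cls k (g ^ m) := by rw [h, cls_one]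
  obtain ⟨r, hr⟩ := cls_eq h1
  simp only [Units.val_pow_eq_pow_val, Units.val_one, one_mul] at hr
  have h2 : IsIntegral k (g : L) := by
    refine IsIntegral.of_pow hm ?_
    rw [hr]
    exact isIntegral_algebraMap
  obtain ⟨c, hc⟩ : (g : L) ∈ (algebraMap k L).range :=
    (IsAlgClosed.algebraMap_bijective_of_isIntegral (k := k) (K := integralClosure k L)
      ).2 ⟨(g : L), h2⟩ |>.elim fun c hc => ⟨c, congrArg Subtype.val hc⟩
  have hc0 : c ≠ 0 := by
    rintro rfl
    rw [map_zero] at hc
    exact g.ne_zero hc.symm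
  have h3 : g ∈ constU k L := ⟨Units.mk0 c hc0, by
    ext
    exact hc⟩
  change Additive.ofMul (QuotientGroup.mk g : Lˣ ⧸ constU k L) = 0
  rw [(QuotientGroup.eq_one_iff g).2 h3]
  rfl

instance quo_free : Module.IsTorsionFree ℤ (Quo k L) := by
  refine Module.IsTorsionFree.of_smul_eq_zero fun z q h => ?_
  by_cases hz : z = 0
  · exact Or.inl hz
  right
  have h1 : z.natAbs • q = 0 := by
    rcases Int.natAbs_eq z with h2 | h2
    · rw [h2, natCast_zsmul] at h
      exact h
    · rw [h2, neg_smul, natCast_zsmul, neg_eq_zero] at h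
      exact h
  exact quo_torsion q _ (Int.natAbs_pos.2 hz) h1

/-- **Fields generated by monomials.** -/
theorem toric {T : Type} [Fintype T] (u : T → Lˣ) (y : Lˣ) (m : ℕ) (hm : 0 < m) (a : T → ℕ)
    (hya : y ^ m = ∏ i, u i ^ a i)
    (hgen : IntermediateField.adjoin k (insert (y : L) (Set.range fun i => (u i : L))) = ⊤) :
    ∃ t : Fin (Fintype.card T) → L, IntermediateField.adjoin k (Set.range t) = ⊤ := by
  classical
  let S : Submodule ℤ (Quo k L) :=
    Submodule.span ℤ (insert (cls k y) (Set.range fun i => cls k (u i)))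
  have hfinS : Module.Finite ℤ S :=
    Module.Finite.span_of_finite ℤ ((Set.finite_range _).insert _)
  have hfreeS : Module.Free ℤ S := Module.free_of_finite_type_torsion_free'
  let S0 : Submodule ℤ (Quo k L) := Submodule.span ℤ (Set.range fun i => cls k (u i))
  have hfinS0 : Module.Finite ℤ S0 := Module.Finite.span_of_finite ℤ (Set.finite_range _)
  have hmS : ∀ q ∈ S, (m : ℤ) • q ∈ S0 := by
    intro q hq
    induction hq using Submodule.span_induction with
    | mem q hq =>
      rcases hq with rfl | ⟨i, rfl⟩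
      · rw [← cls_zpow, zpow_natCast, hya, cls_prod]
        exact sum_mem fun i _ => by
          rw [cls_pow, ← natCast_zsmul]
          exact S0.smul_mem _ (Submodule.subset_span ⟨i, rfl⟩)
      · exact S0.smul_mem _ (Submodule.subset_span ⟨i, rfl⟩)
    | zero => rw [smul_zero]; exact zero_mem _
    | add f g _ _ hf hg => rw [smul_add]; exact add_mem hf hg
    | smul r f _ hf => rw [smul_comm]; exact S0.smul_mem _ hf
  let φ : S →ₗ[ℤ] S0 :=
    { toFun := fun q => ⟨(m : ℤ) • (q : Quo k L), hmS q q.2⟩
      map_add' := fun p q => Subtype.ext (by simp)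
      map_smul' := fun r q => Subtype.ext (by
        change (m : ℤ) • (r • (q : Quo k L)) = r • ((m : ℤ) • (q : Quo k L))
        rw [smul_comm]) }
  have hφ : Function.Injective φ := by
    rw [← LinearMap.ker_eq_bot, LinearMap.ker_eq_bot']
    intro q hq
    have h1 : (m : ℤ) • (q : Quo k L) = 0 := congrArg Subtype.val hq
    rw [natCast_zsmul] at h1
    exact Subtype.ext (quo_torsion _ m hm h1)
  have hr : Module.finrank ℤ S ≤ Fintype.card T := by
    have h1 : Module.finrank ℤ S ≤ Module.finrank ℤ S0 :=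
      LinearMap.finrank_le_finrank_of_injective hφ
    exact h1.trans (finrank_range_le_card (R := ℤ) fun i => cls k (u i))
  let b := Module.finBasis ℤ S
  have hlift : ∀ j, ∃ g : Lˣ, cls k g = (b j : Quo k L) := fun j => cls_surj _
  choose g hg using hlift
  let t : Fin (Fintype.card T) → L := fun j =>
    if h : (j : ℕ) < Module.finrank ℤ S then (g ⟨j, h⟩ : L) else 1
  refine ⟨t, ?_⟩
  have hgt : ∀ j, ((g j : Lˣ) : L) ∈ IntermediateField.adjoin k (Set.range t) := by
    intro j
    refine IntermediateField.subset_adjoin k _ ⟨⟨j, j.2.trans_le hr⟩, ?_⟩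
    simp [t]
  have hmem : ∀ h : Lˣ, cls k h ∈ S → (h : L) ∈ IntermediateField.adjoin k (Set.range t) := by
    intro h hh
    have h1 : cls k (∏ j, g j ^ (b.repr ⟨cls k h, hh⟩ j)) = cls k h := by
      rw [cls_prod]
      have h2 := congrArg (Subtype.val) (b.sum_repr ⟨cls k h, hh⟩)
      rw [Submodule.coe_sum] at h2
      refine Eq.trans ?_ h2
      refine Finset.sum_congr rfl fun j _ => ?_
      rw [cls_zpow, hg]
      rfl
    obtain ⟨r, hr⟩ := cls_eq h1
    rw [hr]
    refine mul_mem ?_ (IntermediateField.algebraMap_mem _ r)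
    rw [Units.coe_prod]
    exact prod_mem fun j _ => by
      rw [Units.val_zpow_eq_zpow_val]
      exact zpow_mem (hgt j) _
  rw [eq_top_iff, ← hgen, IntermediateField.adjoin_le_iff]
  rintro _ (rfl | ⟨i, rfl⟩)
  · exact hmem y (Submodule.subset_span (Set.mem_insert _ _))
  · exact hmem (u i) (Submodule.subset_span (Set.mem_insert_of_mem _ ⟨i, rfl⟩))

end Pool.Agent.T9h38.Cyc
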