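import Pool.Agent.T9h38.Cyc.Form
import Pool.Agent.T9h38.Cyc.Birat
import Pool.Agent.T9h38.Cyc.Toric

/-!
Cyclic covers of projective space branched along hyperplanes in general position, whose exponents
can be divided into zero-sum blocks, are rational.
-/

set_option autoImplicit false
set_option linter.unusedSectionVars false

open Pool.Agent.W602.GT

namespace Pool.Agent.T9h38.Cyc

variable {k L : Type} [Field k] [IsAlgClosed k] [Field L] [Algebra k L]

/-- the field is generated by the coordinates and a root of a product of linear forms -/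
structure Cover {n N : ℕ} (m : ℕ) (c : Fin N → Fin (n + 1) → k) (a : Fin N → ℕ) (x : Fin n → L)
    (y : L) : Prop where
  indep : AlgebraicIndependent k x
  root : y ^ m = ∏ i, lin x (c i) ^ a i
  gen : IntermediateField.adjoin k (insert y (Set.range x)) = ⊤

section

variable {n N m : ℕ} {c : Fin N → Fin (n + 1) → k} {a : Fin N → ℕ} {x : Fin n → L} {y : L}

theorem lin_mem (F : IntermediateField k L) (hF : ∀ i, x i ∈ F) (d : Fin (n + 1) → k) :
    lin x d ∈ F := by
  refine sum_mem fun j _ => ?_
  rw [Algebra.smul_def]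
  refine mul_mem (F.algebraMap_mem _) ?_
  refine Fin.cases ?_ (fun i => ?_) j
  · exact one_mem F
  · exact hF i

theorem Cover.y_ne (h : Cover m c a x y) (hc : GenPos c) (hm : 0 < m) : y ≠ 0 := by
  intro h0
  have h1 := h.root
  rw [h0, zero_pow hm.ne'] at h1
  exact (Finset.prod_ne_zero_iff.2 fun i _ => pow_ne_zero _ (lin_ne h.indep (hc.ne_zero i))) h1.symm

theorem Cover.alg (h : Cover m c a x y) (hm : 0 < m) (F : IntermediateField k L)
    (hF : ∀ i, x i ∈ F) : Algebra.IsAlgebraic F L := by
  have h1 : IsIntegral F y := by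
    refine IsIntegral.of_pow hm ?_
    rw [h.root]
    have h2 : ∏ i, lin x (c i) ^ a i ∈ F := prod_mem fun i _ => pow_mem (lin_mem F hF _) _
    have h3 : ∏ i, lin x (c i) ^ a i = algebraMap F L ⟨_, h2⟩ := rfl
    rw [h3]
    exact isIntegral_algebraMap
  have h2 : (⊤ : IntermediateField k L) ≤ (IntermediateField.adjoin F {y}).restrictScalars k := by
    rw [← h.gen, IntermediateField.adjoin_le_iff]
    rintro _ (rfl | ⟨i, rfl⟩)
    · exact IntermediateField.subset_adjoin F _ rfl
    · exact IntermediateField.algebraMap_mem (IntermediateField.adjoin F {y}) (⟨x i, hF i⟩ : F)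
  have h3 : IntermediateField.adjoin F {y} = ⊤ := by
    rw [eq_top_iff]
    intro z _
    exact h2 (show z ∈ (⊤ : IntermediateField k L) from trivial)
  have h4 := IntermediateField.isAlgebraic_adjoin_simple h1
  rw [h3] at h4
  exact (IntermediateField.topEquiv (F := F) (E := L)).isAlgebraic

theorem Cover.basis (h : Cover m c a x y) (hm : 0 < m) : IsTranscendenceBasis k x := by
  have h1 := h.alg hm (IntermediateField.adjoin k (Set.range x))
    fun i => IntermediateField.subset_adjoin k _ ⟨i, rfl⟩
  have h2 := alg_adjoin h1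
  exact h.indep.isTranscendenceBasis_iff_isAlgebraic.2 h2

theorem Cover.trdeg (h : Cover m c a x y) (hm : 0 < m) : Algebra.trdeg k L = n :=
  trdeg_of_basis (h.basis hm)

/-- a finite family of `n` elements over which everything is algebraic is a transcendence basis -/
theorem basis_of_alg {T : Type} [Fintype T] (hT : Fintype.card T = n)
    (htr : Algebra.trdeg k L = n) (z : T → L)
    (hz : Algebra.IsAlgebraic (IntermediateField.adjoin k (Set.range z)) L) :
    IsTranscendenceBasis k z := by
  have := alg_adjoin hz
  refine Algebra.IsAlgebraic.isTranscendenceBasis_of_le_trdeg_of_finite k z ?_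
  rw [htr, Cardinal.mk_fintype, hT]

/-- a field of transcendence degree `n` which is generated by `n` elements -/
theorem rational_of_gens (htr : Algebra.trdeg k L = n) (t : Fin n → L)
    (ht : IntermediateField.adjoin k (Set.range t) = ⊤) :
    Nonempty (L ≃ₐ[k] FractionRing (MvPolynomial (Fin n) k)) := by
  have h1 : IsTranscendenceBasis k t := by
    refine basis_of_alg (by simp) htr t ?_
    rw [ht]
    exact ⟨fun z => isAlgebraic_algebraMap (R := (⊤ : IntermediateField k L)) (A := L)
      ⟨z, trivial⟩⟩
  have e1 := h1.1.aevalEquivField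
  rw [ht] at e1
  exact ⟨(e1.trans IntermediateField.topEquiv).symm⟩

/-- linear forms as combinations of `n + 1` of them -/
theorem lin_div_mem (hc : GenPos c) {T : Finset (Fin N)} (hT : T.card = n + 1) {w : L}
    (F : IntermediateField k L) (hF : ∀ i ∈ T, lin x (c i) / w ∈ F) (d : Fin (n + 1) → k) :
    lin x d / w ∈ F := by
  have h1 := hc T (by omega)
  have h2 : Submodule.span k (Set.range fun i : T => c i) = ⊤ := by
    apply h1.span_eq_top_of_card_eq_finrank'
    simp [hT]
  have h3 : d ∈ Submodule.span k (Set.range fun i : T => c i) := by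
    rw [h2]
    trivial
  induction h3 using Submodule.span_induction with
  | mem d hd =>
    obtain ⟨i, rfl⟩ := hd
    exact hF i i.2
  | zero =>
    rw [lin_zero, zero_div]
    exact zero_mem F
  | add f g _ _ hf hg =>
    rw [lin_add, add_div]
    exact add_mem hf hg
  | smul r f _ hf =>
    rw [lin_smul, Algebra.smul_def, mul_div_assoc]
    exact mul_mem (F.algebraMap_mem _) hf

/-- the coordinates as quotients -/
theorem coord_mem (hc : GenPos c) {T : Finset (Fin N)} (hT : T.card = n + 1) {w : L} (hw : w ≠ 0)
    (F : IntermediateField k L) (hF : ∀ i ∈ T, lin x (c i) / w ∈ F) (j : Fin n) : x j ∈ F := by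
  have h1 := lin_div_mem hc hT F hF (Pi.single 0 1)
  have h2 := lin_div_mem hc hT F hF (Pi.single j.succ 1)
  rw [lin_single] at h1 h2
  have h3 : hom x j.succ / w / (hom x 0 / w) = x j := by
    change x j / w / (1 / w) = x j
    field_simp
  rw [← h3]
  exact div_mem h2 h1

/-- **Rationality.** If the hyperplanes can be divided into `N - n` classes on which the sum of the
exponents is divisible by `m`, then the field is generated by `n` elements. -/
theorem Cover.gens {l : ℕ} (h : Cover m c a x y) (hc : GenPos c) (hm : 0 < m)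
    (hN : N = n + (l + 1)) (f : Fin N → Fin (l + 1)) (hf : Function.Surjective f)
    (hz : ∀ b, m ∣ ∑ i ∈ Finset.univ.filter fun i => f i = b, a i) :
    ∃ t : Fin n → L, IntermediateField.adjoin k (Set.range t) = ⊤ := by
  classical
  choose β hβ using hf
  have hβinj : Function.Injective β := fun b b' hb => by rw [← hβ b, hb, hβ]
  have hlf : ∀ i, lin x (c i) ≠ 0 := fun i => lin_ne h.indep (hc.ne_zero i)
  let T : Finset (Fin N) := Finset.univ \ Finset.univ.image β
  have hTmem : ∀ i, i ∈ T ↔ ∀ b, β b ≠ i := by
    intro i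
    simp [T]
  have hTcard : T.card = n := by
    rw [Finset.card_sdiff_of_subset (Finset.subset_univ _), Finset.card_image_of_injective _ hβinj]
    simp
    omega
  have hβT : ∀ b, β b ∉ T := fun b hb => (hTmem _).1 hb b rfl
  have hTb : ∀ b, (insert (β b) T).card = n + 1 := fun b => by
    rw [Finset.card_insert_of_notMem (hβT b), hTcard]
  -- quotients by the first base form
  set w : L := lin x (c (β 0)) with hw
  have hw0 : w ≠ 0 := hlf _
  have hcoord : ∀ F : IntermediateField k L, (∀ i ∈ T, lin x (c i) / w ∈ F) → ∀ j, x j ∈ F := by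
    intro F hF
    refine coord_mem hc (hTb 0) hw0 F fun i hi => ?_
    rcases Finset.mem_insert.1 hi with rfl | hi
    · rw [← hw, div_self hw0]
      exact one_mem F
    · exact hF i hi
  let z : T → L := fun i => lin x (c i) / w
  have hzind : AlgebraicIndependent k z := by
    refine (basis_of_alg (by simpa using hTcard) (h.trdeg hm) z (h.alg hm _ ?_)).1
    exact hcoord _ fun i hi => IntermediateField.subset_adjoin k _ ⟨⟨i, hi⟩, rfl⟩
  -- the coefficients
  have hcoef : ∀ j : Fin l, ∃ (β0 : k) (βc : T → k), β0 ≠ 0 ∧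
      c (β j.succ) = β0 • c (β 0) + ∑ i, βc i • c i := by
    intro j
    have h1 := hc (insert (β 0) T) (hTb 0).le
    have h2 : Submodule.span k (Set.range fun i : (insert (β 0) T : Finset (Fin N)) => c i) = ⊤ := by
      apply h1.span_eq_top_of_card_eq_finrank'
      rw [Fintype.card_coe, hTb 0, Module.finrank_fin_fun]
    have h3 : (Set.range fun i : (insert (β 0) T : Finset (Fin N)) => c i) =
        insert (c (β 0)) (Set.range fun i : T => c i) := by
      ext d
      simp only [Set.mem_range, Set.mem_insert_iff, Subtype.exists, Finset.mem_insert]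
      constructor
      · rintro ⟨i, hi | hi, rfl⟩
        · exact Or.inl (by rw [hi])
        · exact Or.inr ⟨i, hi, rfl⟩
      · rintro (rfl | ⟨i, hi, rfl⟩)
        · exact ⟨β 0, Or.inl rfl, rfl⟩
        · exact ⟨i, Or.inr hi, rfl⟩
    have h4 : c (β j.succ) ∈ Submodule.span k (insert (c (β 0)) (Set.range fun i : T => c i)) := by
      rw [← h3, h2]
      trivial
    obtain ⟨β0, v, hv, hv2⟩ := Submodule.mem_span_insert.1 h4
    obtain ⟨βc, hβc⟩ := (Submodule.mem_span_range_iff_exists_fun k).1 hv
    refine ⟨β0, βc, ?_, by rw [hv2, hβc]⟩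
    rintro rfl
    rw [zero_smul, zero_add] at hv2
    have h5 := hc (insert (β j.succ) T) (hTb _).le
    have h6 := h5.notMem_span_image (s := {i | (i : Fin N) ∈ T})
      (x := ⟨β j.succ, Finset.mem_insert_self _ _⟩) (fun h => hβT _ h)
    apply h6
    rw [hv2]
    refine Submodule.span_mono ?_ hv
    rintro _ ⟨i, rfl⟩
    exact ⟨⟨i, Finset.mem_insert_of_mem i.2⟩, i.2, rfl⟩
  choose β0 βc hβ0 hβc using hcoef
  let s : Option (Fin l) → L := fun o => lin x (c (β ((finSuccEquiv l).symm o))) / w
  let u : T → L := fun i => lin x (c i) / lin x (c (β (f i)))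
  let F : IntermediateField k L := IntermediateField.adjoin k (Set.range u)
  have hs0 : s none = 1 := by
    change lin x (c (β ((finSuccEquiv l).symm none))) / w = 1
    rw [finSuccEquiv_symm_none, ← hw, div_self hw0]
  have hsj : ∀ j, s (some j) = algebraMap k L (β0 j) + ∑ i, algebraMap k L (βc j i) * z i := by
    intro j
    change lin x (c (β ((finSuccEquiv l).symm (some j)))) / w = _
    rw [finSuccEquiv_symm_some, hβc, lin_add, lin_smul, ← hw, add_div]
    congr 1
    · rw [Algebra.smul_def, mul_div_assoc, div_self hw0, mul_one]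
    · have h1 : ∀ s : Finset T, lin x (∑ i ∈ s, βc j i • c i) = ∑ i ∈ s, βc j i • lin x (c i) := by
        intro s
        induction s using Finset.induction_on with
        | empty => simp [lin_zero]
        | insert i s hi ih => rw [Finset.sum_insert hi, Finset.sum_insert hi, lin_add, lin_smul, ih]
      rw [h1, Finset.sum_div]
      refine Finset.sum_congr rfl fun i _ => ?_
      rw [Algebra.smul_def, mul_div_assoc]
  have hzs : ∀ i : T, z i / s (finSuccEquiv l (f i)) = u i := by
    intro i
    change lin x (c i) / w / (lin x (c (β ((finSuccEquiv l).symm (finSuccEquiv l (f i))))) / w) = _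
    rw [Equiv.symm_apply_apply, div_div_div_cancel_right₀ hw0]
  have hsF : ∀ o, s o ∈ F := by
    intro o
    cases o with
    | none =>
      rw [hs0]
      exact one_mem F
    | some j =>
      refine scale_mem hzind (fun i => finSuccEquiv l (f i)) βc β0 hβ0 s hs0 hsj F (fun i => ?_) j
      rw [hzs]
      exact IntermediateField.subset_adjoin k _ ⟨i, rfl⟩
  have hbF : ∀ b, lin x (c (β b)) / w ∈ F := by
    intro b
    have h1 := hsF (finSuccEquiv l b)
    change lin x (c (β ((finSuccEquiv l).symm (finSuccEquiv l b)))) / w ∈ F at h1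
    rwa [Equiv.symm_apply_apply] at h1
  have hxF : ∀ j, x j ∈ F := by
    refine hcoord F fun i hi => ?_
    have h1 : lin x (c i) / w = u ⟨i, hi⟩ * (lin x (c (β (f i))) / w) := by
      change _ = lin x (c i) / lin x (c (β (f i))) * (lin x (c (β (f i))) / w)
      rw [div_mul_div_cancel₀ (hlf _)]
    rw [h1]
    exact mul_mem (IntermediateField.subset_adjoin k _ ⟨⟨i, hi⟩, rfl⟩) (hbF _)
  -- the root
  choose K hK using hz
  let q : L := ∏ b, lin x (c (β b)) ^ K b
  have hq : q ≠ 0 := Finset.prod_ne_zero_iff.2 fun b _ => pow_ne_zero _ (hlf _)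
  have hyne := h.y_ne hc hm
  have hroot : (y / q) ^ m = ∏ i, u i ^ a i := by
    have h1 : ∏ i, lin x (c i) ^ a i =
        (∏ i, (lin x (c i) / lin x (c (β (f i)))) ^ a i) * ∏ i, lin x (c (β (f i))) ^ a i := by
      rw [← Finset.prod_mul_distrib]
      refine Finset.prod_congr rfl fun i _ => ?_
      rw [← mul_pow, div_mul_cancel₀ _ (hlf _)]
    have h2 : ∏ i, lin x (c (β (f i))) ^ a i = q ^ m := by
      rw [← Finset.prod_fiberwise Finset.univ f, ← Finset.prod_pow]
      refine Finset.prod_congr rfl fun b _ => ?_
      rw [← pow_mul, mul_comm (K b) m, ← hK b, ← Finset.prod_pow_eq_pow_sum]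
      refine Finset.prod_congr rfl fun i hi => ?_
      rw [(Finset.mem_filter.1 hi).2]
    have h3 : ∏ i, (lin x (c i) / lin x (c (β (f i)))) ^ a i = ∏ i : T, u i ^ a i := by
      have h4 : ∏ i ∈ T, (lin x (c i) / lin x (c (β (f i)))) ^ a i =
          ∏ i, (lin x (c i) / lin x (c (β (f i)))) ^ a i := by
        refine Finset.prod_subset (Finset.subset_univ T) fun i _ hi => ?_
        rw [hTmem] at hi
        push Not at hi
        obtain ⟨b, rfl⟩ := hi
        rw [hβ, div_self (hlf _), one_pow]
      rw [← h4, ← Finset.prod_coe_sort]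
    rw [div_pow, h.root, h1, h2, mul_div_cancel_right₀ _ (pow_ne_zero _ hq), h3]
  have hune : ∀ i, u i ≠ 0 := fun i => div_ne_zero (hlf _) (hlf _)
  obtain ⟨t, ht⟩ := toric (k := k) (fun i => Units.mk0 (u i) (hune i))
    (Units.mk0 (y / q) (div_ne_zero hyne hq)) m hm (fun i : T => a i) (by
      ext
      rw [Units.coe_prod]
      simp only [Units.val_pow_eq_pow_val, Units.val_mk0]
      exact hroot) (by
      rw [eq_top_iff, ← h.gen, IntermediateField.adjoin_le_iff]
      have hle : F ≤ IntermediateField.adjoin k (insert (y / q) (Set.range u)) :=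
        IntermediateField.adjoin.mono k _ _ (Set.subset_insert _ _)
      rintro _ (h0 | ⟨i, rfl⟩)
      · have h1 : y / q * q ∈ IntermediateField.adjoin k (insert (y / q) (Set.range u)) := by
          refine mul_mem (IntermediateField.subset_adjoin k _ (Set.mem_insert _ _)) ?_
          exact prod_mem fun b _ => pow_mem (lin_mem _ (fun j => hle (hxF j)) _) _
        rw [div_mul_cancel₀ _ hq] at h1
        rw [SetLike.mem_coe, h0]
        exact h1
      · exact hle (hxF i))
  have hcard : Fintype.card T = n := by simpa using hTcard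
  refine ⟨fun i => t (Fin.cast hcard.symm i), ?_⟩
  rw [← ht]
  congr 1
  ext g
  constructor
  · rintro ⟨i, rfl⟩
    exact ⟨_, rfl⟩
  · rintro ⟨i, rfl⟩
    exact ⟨Fin.cast hcard i, rfl⟩

end

end Pool.Agent.T9h38.Cyc
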