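import Pool.Agent.T9h38.Cyc.Comb

/-!
Partitions of sequences with sum zero modulo `7` into blocks with sum zero.
-/

set_option autoImplicit false

namespace Pool.Agent.T9h38.Cyc

variable {ι : Type} [DecidableEq ι]

omit [DecidableEq ι] in
/-- the sum over a set on which `r` has three values -/
theorem sum_three {x y z : ℕ} (hxy : x ≠ y) (hxz : x ≠ z) (hyz : y ≠ z) (r : ι → ℕ)
    (S : Finset ι) (hS : ∀ i ∈ S, r i = x ∨ r i = y ∨ r i = z) :
    ∑ i ∈ S, r i = (S.filter fun i => r i = x).card * x + (S.filter fun i => r i = y).card * y +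
      (S.filter fun i => r i = z).card * z := by
  have h1 : ∑ i ∈ S, r i = ∑ i ∈ S, ((if r i = x then x else 0) + (if r i = y then y else 0) +
      (if r i = z then z else 0)) := by
    refine Finset.sum_congr rfl fun i hi => ?_
    rcases hS i hi with h | h | h
    · rw [h, if_pos rfl, if_neg hxy, if_neg hxz, add_zero, add_zero]
    · rw [h, if_pos rfl, if_neg hxy.symm, if_neg hyz, zero_add, add_zero]
    · rw [h, if_pos rfl, if_neg hxz.symm, if_neg hyz.symm, zero_add, zero_add]
  rw [h1, Finset.sum_add_distrib, Finset.sum_add_distrib, ← Finset.sum_filter,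
    ← Finset.sum_filter, ← Finset.sum_filter, Finset.sum_const, Finset.sum_const,
    Finset.sum_const, smul_eq_mul, smul_eq_mul, smul_eq_mul]

/-- choose a block with given numbers of three residues -/
theorem pick_three {x y z : ℕ} (hxy : x ≠ y) (hxz : x ≠ z) (hyz : y ≠ z) (r : ι → ℕ)
    (S : Finset ι) (p s t : ℕ) (hp : p ≤ (S.filter fun i => r i = x).card)
    (hs : s ≤ (S.filter fun i => r i = y).card) (ht : t ≤ (S.filter fun i => r i = z).card) :
    ∃ T ⊆ S, ∑ i ∈ T, r i = p * x + s * y + t * z ∧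
      ((S \ T).filter fun i => r i = x).card + p = (S.filter fun i => r i = x).card ∧
      ((S \ T).filter fun i => r i = y).card + s = (S.filter fun i => r i = y).card ∧
      ((S \ T).filter fun i => r i = z).card + t = (S.filter fun i => r i = z).card := by
  obtain ⟨U, hU, hUc⟩ := Finset.exists_subset_card_eq hp
  obtain ⟨V, hV, hVc⟩ := Finset.exists_subset_card_eq hs
  obtain ⟨W, hW, hWc⟩ := Finset.exists_subset_card_eq ht
  have hUx : ∀ i ∈ U, i ∈ S ∧ r i = x := fun i hi => Finset.mem_filter.1 (hU hi)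
  have hVy : ∀ i ∈ V, i ∈ S ∧ r i = y := fun i hi => Finset.mem_filter.1 (hV hi)
  have hWz : ∀ i ∈ W, i ∈ S ∧ r i = z := fun i hi => Finset.mem_filter.1 (hW hi)
  have hsub : U ∪ V ∪ W ⊆ S := by
    intro i hi
    rcases Finset.mem_union.1 hi with h | h
    · rcases Finset.mem_union.1 h with h | h
      · exact (hUx i h).1
      · exact (hVy i h).1
    · exact (hWz i h).1
  have hr : ∀ i ∈ U ∪ V ∪ W, r i = x ∨ r i = y ∨ r i = z := by
    intro i hi
    rcases Finset.mem_union.1 hi with h | h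
    · rcases Finset.mem_union.1 h with h | h
      · exact Or.inl (hUx i h).2
      · exact Or.inr (Or.inl (hVy i h).2)
    · exact Or.inr (Or.inr (hWz i h).2)
  have hfx : ((U ∪ V ∪ W).filter fun i => r i = x) = U := by
    ext i
    simp only [Finset.mem_filter, Finset.mem_union]
    constructor
    · rintro ⟨(h | h) | h, hx⟩
      · exact h
      · exact absurd (hx.symm.trans (hVy i h).2) hxy
      · exact absurd (hx.symm.trans (hWz i h).2) hxz
    · intro h
      exact ⟨Or.inl (Or.inl h), (hUx i h).2⟩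
  have hfy : ((U ∪ V ∪ W).filter fun i => r i = y) = V := by
    ext i
    simp only [Finset.mem_filter, Finset.mem_union]
    constructor
    · rintro ⟨(h | h) | h, hx⟩
      · exact absurd (hx.symm.trans (hUx i h).2) hxy.symm
      · exact h
      · exact absurd (hx.symm.trans (hWz i h).2) hyz
    · intro h
      exact ⟨Or.inl (Or.inr h), (hVy i h).2⟩
  have hfz : ((U ∪ V ∪ W).filter fun i => r i = z) = W := by
    ext i
    simp only [Finset.mem_filter, Finset.mem_union]
    constructor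
    · rintro ⟨(h | h) | h, hx⟩
      · exact absurd (hx.symm.trans (hUx i h).2) hxz.symm
      · exact absurd (hx.symm.trans (hVy i h).2) hyz.symm
      · exact h
    · intro h
      exact ⟨Or.inr h, (hWz i h).2⟩
  have hcard : ∀ v : ℕ, ((S \ (U ∪ V ∪ W)).filter fun i => r i = v).card +
      ((U ∪ V ∪ W).filter fun i => r i = v).card = (S.filter fun i => r i = v).card := by
    intro v
    rw [← Finset.card_union_of_disjoint, ← Finset.filter_union,
      Finset.sdiff_union_of_subset hsub]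
    exact Finset.disjoint_filter_filter Finset.sdiff_disjoint
  refine ⟨U ∪ V ∪ W, hsub, ?_, ?_, ?_, ?_⟩
  · rw [sum_three hxy hxz hyz r _ hr, hfx, hfy, hfz, hUc, hVc, hWc]
  · rw [← hcard x, hfx, hUc]
  · rw [← hcard y, hfy, hVc]
  · rw [← hcard z, hfz, hWc]

omit [DecidableEq ι] in
theorem three_pos {x y z : ℕ} (r : ι → ℕ) (S : Finset ι)
    (hS : ∀ i ∈ S, r i = x ∨ r i = y ∨ r i = z) (hne : S.Nonempty) :
    0 < (S.filter fun i => r i = x).card + (S.filter fun i => r i = y).card +
      (S.filter fun i => r i = z).card := by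
  obtain ⟨i, hi⟩ := hne
  rcases hS i hi with h | h | h
  · have : 0 < (S.filter fun i => r i = x).card :=
      Finset.card_pos.2 ⟨i, Finset.mem_filter.2 ⟨hi, h⟩⟩
    omega
  · have : 0 < (S.filter fun i => r i = y).card :=
      Finset.card_pos.2 ⟨i, Finset.mem_filter.2 ⟨hi, h⟩⟩
    omega
  · have : 0 < (S.filter fun i => r i = z).card :=
      Finset.card_pos.2 ⟨i, Finset.mem_filter.2 ⟨hi, h⟩⟩
    omega

/-- the induction for three residues, with a condition on the numbers of the residues -/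
theorem greedy_three {m c : ℕ} (hm : 0 < m) (hc : Nat.Coprime m c) (a : ι → ℕ) {x y z : ℕ}
    (hxy : x ≠ y) (hxz : x ≠ z) (hyz : y ≠ z) (C : ℕ → ℕ → ℕ → Prop)
    (step : ∀ u v w : ℕ, C u v w → 0 < u + v + w → m ∣ u * x + v * y + w * z →
      ∃ p s t, p ≤ u ∧ s ≤ v ∧ t ≤ w ∧ p * x + s * y + t * z = m ∧ C (u - p) (v - s) (w - t))
    (S : Finset ι) (hS : ∀ i ∈ S, (c * a i) % m = x ∨ (c * a i) % m = y ∨ (c * a i) % m = z)
    (hC : C (S.filter fun i => (c * a i) % m = x).card (S.filter fun i => (c * a i) % m = y).card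
      (S.filter fun i => (c * a i) % m = z).card)
    (hz : m ∣ ∑ i ∈ S, (c * a i) % m) :
    ∃ k, Blocks m a S k ∧ k * m = ∑ i ∈ S, (c * a i) % m := by
  refine greedy hm hc a (fun S => (∀ i ∈ S, (c * a i) % m = x ∨ (c * a i) % m = y ∨
    (c * a i) % m = z) ∧ C (S.filter fun i => (c * a i) % m = x).card
      (S.filter fun i => (c * a i) % m = y).card (S.filter fun i => (c * a i) % m = z).card)
      ?_ _ S rfl ⟨hS, hC⟩ hz
  intro S hS hne hdvd
  obtain ⟨hS, hC⟩ := hS
  have h3 := sum_three hxy hxz hyz (fun i => (c * a i) % m) S hS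
  have h4 := three_pos (fun i => (c * a i) % m) S hS hne
  rw [h3] at hdvd
  obtain ⟨p, s, t, hp, hs, ht, hsum, hC'⟩ := step _ _ _ hC h4 hdvd
  obtain ⟨T, hT, hTs, hT1, hT2, hT3⟩ := pick_three hxy hxz hyz (fun i => (c * a i) % m) S p s t
    hp hs ht
  refine ⟨T, hT, hTs.trans hsum, fun i hi => hS i (Finset.mem_sdiff.1 hi).1, ?_⟩
  have e1 := Nat.eq_sub_of_add_eq hT1
  have e2 := Nat.eq_sub_of_add_eq hT2
  have e3 := Nat.eq_sub_of_add_eq hT3
  rw [e1, e2, e3]
  exact hC'

/-- residues `1`, `2`, `4` modulo `7` -/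
theorem seven_a {c : ℕ} (hc : Nat.Coprime 7 c) (a : ι → ℕ) (S : Finset ι)
    (h1 : ∀ i ∈ S, (c * a i) % 7 = 1 ∨ (c * a i) % 7 = 2 ∨ (c * a i) % 7 = 4)
    (h2 : 3 * (S.filter fun i => (c * a i) % 7 = 4).card ≤
      (S.filter fun i => (c * a i) % 7 = 1).card + 2 * (S.filter fun i => (c * a i) % 7 = 2).card)
    (h3 : (S.filter fun i => (c * a i) % 7 = 2).card +
      2 * (S.filter fun i => (c * a i) % 7 = 4).card ≤
        3 * (S.filter fun i => (c * a i) % 7 = 1).card)
    (hz : 7 ∣ ∑ i ∈ S, (c * a i) % 7) :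
    ∃ k, Blocks 7 a S k ∧ k * 7 = ∑ i ∈ S, (c * a i) % 7 := by
  refine greedy_three (by norm_num) hc a (by norm_num) (by norm_num) (by norm_num)
    (fun u v w => 3 * w ≤ u + 2 * v ∧ v + 2 * w ≤ 3 * u) ?_ S h1 ⟨h2, h3⟩ hz
  rintro u v w ⟨hC1, hC2⟩ hpos hdvd
  by_cases hw : 0 < w
  · by_cases hv : 0 < v
    · exact ⟨1, 1, 1, by omega, by omega, by omega, by norm_num, by omega, by omega⟩
    · exact ⟨3, 0, 1, by omega, by omega, by omega, by norm_num, by omega, by omega⟩
  · by_cases hv : 3 ≤ v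
    · exact ⟨1, 3, 0, by omega, by omega, by omega, by norm_num, by omega, by omega⟩
    · obtain rfl | rfl | rfl : v = 0 ∨ v = 1 ∨ v = 2 := by omega
      · exact ⟨7, 0, 0, by omega, by omega, by omega, by norm_num, by omega, by omega⟩
      · exact ⟨5, 1, 0, by omega, by omega, by omega, by norm_num, by omega, by omega⟩
      · exact ⟨3, 2, 0, by omega, by omega, by omega, by norm_num, by omega, by omega⟩

/-- residues `1`, `2`, `3` modulo `7` -/
theorem seven_b {c : ℕ} (hc : Nat.Coprime 7 c) (a : ι → ℕ) (S : Finset ι)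
    (h1 : ∀ i ∈ S, (c * a i) % 7 = 1 ∨ (c * a i) % 7 = 2 ∨ (c * a i) % 7 = 3)
    (h2 : (S.filter fun i => (c * a i) % 7 = 2).card ≤
      3 * (S.filter fun i => (c * a i) % 7 = 1).card + 2 * (S.filter fun i => (c * a i) % 7 = 3).card)
    (h3 : 2 * (S.filter fun i => (c * a i) % 7 = 3).card ≤
      4 * (S.filter fun i => (c * a i) % 7 = 1).card +
        (S.filter fun i => (c * a i) % 7 = 2).card)
    (hz : 7 ∣ ∑ i ∈ S, (c * a i) % 7) :
    ∃ k, Blocks 7 a S k ∧ k * 7 = ∑ i ∈ S, (c * a i) % 7 := by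
  refine greedy_three (by norm_num) hc a (by norm_num) (by norm_num) (by norm_num)
    (fun u v w => v ≤ 3 * u + 2 * w ∧ 2 * w ≤ 4 * u + v) ?_ S h1 ⟨h2, h3⟩ hz
  rintro u v w ⟨hC1, hC2⟩ hpos hdvd
  by_cases hw : 0 < w
  · by_cases hv : 2 ≤ v
    · exact ⟨0, 2, 1, by omega, by omega, by omega, by norm_num, by omega, by omega⟩
    · obtain rfl | rfl : v = 0 ∨ v = 1 := by omega
      · by_cases hw2 : 2 ≤ w
        · exact ⟨1, 0, 2, by omega, by omega, by omega, by norm_num, by omega, by omega⟩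
        · exact ⟨4, 0, 1, by omega, by omega, by omega, by norm_num, by omega, by omega⟩
      · by_cases hw2 : 2 ≤ w
        · exact ⟨1, 0, 2, by omega, by omega, by omega, by norm_num, by omega, by omega⟩
        · exact ⟨2, 1, 1, by omega, by omega, by omega, by norm_num, by omega, by omega⟩
  · by_cases hv : 3 ≤ v
    · exact ⟨1, 3, 0, by omega, by omega, by omega, by norm_num, by omega, by omega⟩
    · obtain rfl | rfl | rfl : v = 0 ∨ v = 1 ∨ v = 2 := by omega
      · exact ⟨7, 0, 0, by omega, by omega, by omega, by norm_num, by omega, by omega⟩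
      · exact ⟨5, 1, 0, by omega, by omega, by omega, by norm_num, by omega, by omega⟩
      · exact ⟨3, 2, 0, by omega, by omega, by omega, by norm_num, by omega, by omega⟩

/-- residues `4`, `1`, `5` modulo `7` -/
theorem seven_c {c : ℕ} (hc : Nat.Coprime 7 c) (a : ι → ℕ) (S : Finset ι)
    (h1 : ∀ i ∈ S, (c * a i) % 7 = 4 ∨ (c * a i) % 7 = 1 ∨ (c * a i) % 7 = 5)
    (h2 : 3 * (S.filter fun i => (c * a i) % 7 = 4).card +
      2 * (S.filter fun i => (c * a i) % 7 = 5).card ≤
        (S.filter fun i => (c * a i) % 7 = 1).card)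
    (hz : 7 ∣ ∑ i ∈ S, (c * a i) % 7) :
    ∃ k, Blocks 7 a S k ∧ k * 7 = ∑ i ∈ S, (c * a i) % 7 := by
  refine greedy_three (by norm_num) hc a (by norm_num) (by norm_num) (by norm_num)
    (fun u v w => 3 * u + 2 * w ≤ v) ?_ S h1 h2 hz
  rintro u v w hC1 hpos hdvd
  by_cases hw : 0 < w
  · exact ⟨0, 2, 1, by omega, by omega, by omega, by norm_num, by omega⟩
  · by_cases hu : 0 < u
    · exact ⟨1, 3, 0, by omega, by omega, by omega, by norm_num, by omega⟩
    · exact ⟨0, 7, 0, by omega, by omega, by omega, by norm_num, by omega⟩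

/-- residues `5`, `3`, `1` modulo `7` -/
theorem seven_d {c : ℕ} (hc : Nat.Coprime 7 c) (a : ι → ℕ) (S : Finset ι)
    (h1 : ∀ i ∈ S, (c * a i) % 7 = 5 ∨ (c * a i) % 7 = 3 ∨ (c * a i) % 7 = 1)
    (h2 : 4 * (S.filter fun i => (c * a i) % 7 = 5).card +
      (S.filter fun i => (c * a i) % 7 = 3).card ≤
        2 * (S.filter fun i => (c * a i) % 7 = 1).card)
    (hz : 7 ∣ ∑ i ∈ S, (c * a i) % 7) :
    ∃ k, Blocks 7 a S k ∧ k * 7 = ∑ i ∈ S, (c * a i) % 7 := by
  refine greedy_three (by norm_num) hc a (by norm_num) (by norm_num) (by norm_num)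
    (fun u v w => 4 * u + v ≤ 2 * w) ?_ S h1 h2 hz
  rintro u v w hC1 hpos hdvd
  by_cases hu : 0 < u
  · exact ⟨1, 0, 2, by omega, by omega, by omega, by norm_num, by omega⟩
  · by_cases hv : 2 ≤ v
    · exact ⟨0, 2, 1, by omega, by omega, by omega, by norm_num, by omega⟩
    · obtain rfl | rfl : v = 0 ∨ v = 1 := by omega
      · exact ⟨0, 0, 7, by omega, by omega, by omega, by norm_num, by omega⟩
      · exact ⟨0, 1, 4, by omega, by omega, by omega, by norm_num, by omega⟩

theorem key_b (a : ι → ℕ) (S : Finset ι) (hz : 7 ∣ ∑ i ∈ S, a i) (c : ℕ) (hc : Nat.Coprime 7 c)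
    (h1 : ∀ i ∈ S, (c * a i) % 7 = 1 ∨ (c * a i) % 7 = 2 ∨ (c * a i) % 7 = 3) :
    ∃ c, Nat.Coprime 7 c ∧ ∃ k, Blocks 7 a S k ∧ k * 7 = ∑ i ∈ S, (c * a i) % 7 := by
  by_cases h2 : (S.filter fun i => (c * a i) % 7 = 2).card ≤
      3 * (S.filter fun i => (c * a i) % 7 = 1).card + 2 * (S.filter fun i => (c * a i) % 7 = 3).card
  · by_cases h3 : 2 * (S.filter fun i => (c * a i) % 7 = 3).card ≤
      4 * (S.filter fun i => (c * a i) % 7 = 1).card + (S.filter fun i => (c * a i) % 7 = 2).card
    · exact ⟨c, hc, seven_b hc a S h1 h2 h3 (dvd_mod_sum c a hz)⟩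
    · have hc5 : Nat.Coprime 7 (5 * c) := Nat.Coprime.mul_right (by norm_num) hc
      have e1 : ∀ i, (5 * c * a i) % 7 = (5 * ((c * a i) % 7)) % 7 := fun i => by
        rw [mul_assoc]
        omega
      have f1 : (S.filter fun i => (5 * c * a i) % 7 = 5) = S.filter fun i => (c * a i) % 7 = 1 := by
        refine Finset.filter_congr fun i hi => ?_
        rw [e1]
        rcases h1 i hi with h | h | h <;> rw [h] <;> norm_num
      have f2 : (S.filter fun i => (5 * c * a i) % 7 = 3) = S.filter fun i => (c * a i) % 7 = 2 := by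
        refine Finset.filter_congr fun i hi => ?_
        rw [e1]
        rcases h1 i hi with h | h | h <;> rw [h] <;> norm_num
      have f3 : (S.filter fun i => (5 * c * a i) % 7 = 1) = S.filter fun i => (c * a i) % 7 = 3 := by
        refine Finset.filter_congr fun i hi => ?_
        rw [e1]
        rcases h1 i hi with h | h | h <;> rw [h] <;> norm_num
      refine ⟨5 * c, hc5, seven_d hc5 a S (fun i hi => ?_) ?_ (dvd_mod_sum _ a hz)⟩
      · rw [e1]
        rcases h1 i hi with h | h | h <;> rw [h] <;> norm_num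
      · rw [f1, f2, f3]
        omega
  · have hc4 : Nat.Coprime 7 (4 * c) := Nat.Coprime.mul_right (by norm_num) hc
    have e1 : ∀ i, (4 * c * a i) % 7 = (4 * ((c * a i) % 7)) % 7 := fun i => by
      rw [mul_assoc]
      omega
    have f1 : (S.filter fun i => (4 * c * a i) % 7 = 4) = S.filter fun i => (c * a i) % 7 = 1 := by
      refine Finset.filter_congr fun i hi => ?_
      rw [e1]
      rcases h1 i hi with h | h | h <;> rw [h] <;> norm_num
    have f2 : (S.filter fun i => (4 * c * a i) % 7 = 1) = S.filter fun i => (c * a i) % 7 = 2 := by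
      refine Finset.filter_congr fun i hi => ?_
      rw [e1]
      rcases h1 i hi with h | h | h <;> rw [h] <;> norm_num
    have f3 : (S.filter fun i => (4 * c * a i) % 7 = 5) = S.filter fun i => (c * a i) % 7 = 3 := by
      refine Finset.filter_congr fun i hi => ?_
      rw [e1]
      rcases h1 i hi with h | h | h <;> rw [h] <;> norm_num
    refine ⟨4 * c, hc4, seven_c hc4 a S (fun i hi => ?_) ?_ (dvd_mod_sum _ a hz)⟩
    · rw [e1]
      rcases h1 i hi with h | h | h <;> rw [h] <;> norm_num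
    · rw [f1, f2, f3]
      omega

theorem key_a (a : ι → ℕ) (S : Finset ι) (hz : 7 ∣ ∑ i ∈ S, a i) (c : ℕ) (hc : Nat.Coprime 7 c)
    (h1 : ∀ i ∈ S, (c * a i) % 7 = 1 ∨ (c * a i) % 7 = 2 ∨ (c * a i) % 7 = 4) :
    ∃ c, Nat.Coprime 7 c ∧ ∃ k, Blocks 7 a S k ∧ k * 7 = ∑ i ∈ S, (c * a i) % 7 := by
  have hc2 : Nat.Coprime 7 (2 * c) := Nat.Coprime.mul_right (by norm_num) hc
  have e1 : ∀ i, (2 * c * a i) % 7 = (2 * ((c * a i) % 7)) % 7 := fun i => by
    rw [mul_assoc]
    omega
  have f1 : (S.filter fun i => (2 * c * a i) % 7 = 1) = S.filter fun i => (c * a i) % 7 = 4 := by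
    refine Finset.filter_congr fun i hi => ?_
    rw [e1]
    rcases h1 i hi with h | h | h <;> rw [h] <;> norm_num
  have f2 : (S.filter fun i => (2 * c * a i) % 7 = 2) = S.filter fun i => (c * a i) % 7 = 1 := by
    refine Finset.filter_congr fun i hi => ?_
    rw [e1]
    rcases h1 i hi with h | h | h <;> rw [h] <;> norm_num
  have f3 : (S.filter fun i => (2 * c * a i) % 7 = 4) = S.filter fun i => (c * a i) % 7 = 2 := by
    refine Finset.filter_congr fun i hi => ?_
    rw [e1]
    rcases h1 i hi with h | h | h <;> rw [h] <;> norm_num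
  have hc4 : Nat.Coprime 7 (4 * c) := Nat.Coprime.mul_right (by norm_num) hc
  have e2 : ∀ i, (4 * c * a i) % 7 = (4 * ((c * a i) % 7)) % 7 := fun i => by
    rw [mul_assoc]
    omega
  have g1 : (S.filter fun i => (4 * c * a i) % 7 = 1) = S.filter fun i => (c * a i) % 7 = 2 := by
    refine Finset.filter_congr fun i hi => ?_
    rw [e2]
    rcases h1 i hi with h | h | h <;> rw [h] <;> norm_num
  have g2 : (S.filter fun i => (4 * c * a i) % 7 = 2) = S.filter fun i => (c * a i) % 7 = 4 := by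
    refine Finset.filter_congr fun i hi => ?_
    rw [e2]
    rcases h1 i hi with h | h | h <;> rw [h] <;> norm_num
  have g3 : (S.filter fun i => (4 * c * a i) % 7 = 4) = S.filter fun i => (c * a i) % 7 = 1 := by
    refine Finset.filter_congr fun i hi => ?_
    rw [e2]
    rcases h1 i hi with h | h | h <;> rw [h] <;> norm_num
  by_cases h2 : 3 * (S.filter fun i => (c * a i) % 7 = 4).card ≤
      (S.filter fun i => (c * a i) % 7 = 1).card + 2 * (S.filter fun i => (c * a i) % 7 = 2).card ∧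
      (S.filter fun i => (c * a i) % 7 = 2).card +
      2 * (S.filter fun i => (c * a i) % 7 = 4).card ≤
        3 * (S.filter fun i => (c * a i) % 7 = 1).card
  · exact ⟨c, hc, seven_a hc a S h1 h2.1 h2.2 (dvd_mod_sum c a hz)⟩
  by_cases h3 : 3 * (S.filter fun i => (c * a i) % 7 = 2).card ≤
      (S.filter fun i => (c * a i) % 7 = 4).card + 2 * (S.filter fun i => (c * a i) % 7 = 1).card ∧
      (S.filter fun i => (c * a i) % 7 = 1).card +
      2 * (S.filter fun i => (c * a i) % 7 = 2).card ≤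
        3 * (S.filter fun i => (c * a i) % 7 = 4).card
  · refine ⟨2 * c, hc2, seven_a hc2 a S (fun i hi => ?_) ?_ ?_ (dvd_mod_sum _ a hz)⟩
    · rw [e1]
      rcases h1 i hi with h | h | h <;> rw [h] <;> norm_num
    · rw [f1, f2, f3]
      exact h3.1
    · rw [f1, f2, f3]
      exact h3.2
  · refine ⟨4 * c, hc4, seven_a hc4 a S (fun i hi => ?_) ?_ ?_ (dvd_mod_sum _ a hz)⟩
    · rw [e2]
      rcases h1 i hi with h | h | h <;> rw [h] <;> norm_num
    · rw [g1, g2, g3]
      omega
    · rw [g1, g2, g3]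
      omega

theorem base_seven (a : ι → ℕ) (S : Finset ι) (hz : 7 ∣ ∑ i ∈ S, a i) (h : Red 7 a S) :
    ∃ c, Nat.Coprime 7 c ∧ ∃ k, Blocks 7 a S k ∧ k * 7 = ∑ i ∈ S, (c * a i) % 7 := by
  have h0 : ∀ i ∈ S, a i % 7 ≠ 0 := fun i hi h5 => h.1 i hi (Nat.dvd_of_mod_eq_zero h5)
  rcases red_or h 1 6 (by norm_num) (by norm_num) with h16 | h16 <;>
    rcases red_or h 2 5 (by norm_num) (by norm_num) with h25 | h25 <;>
    rcases red_or h 3 4 (by norm_num) (by norm_num) with h34 | h34
  · exact key_b a S hz 6 (by norm_num) fun i hi => by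
      have := h0 i hi
      have := h16 i hi
      have := h25 i hi
      have := h34 i hi
      have h5 : a i % 7 = 4 ∨ a i % 7 = 5 ∨ a i % 7 = 6 := by omega
      rcases h5 with h5 | h5 | h5 <;> omega
  · exact key_a a S hz 6 (by norm_num) fun i hi => by
      have := h0 i hi
      have := h16 i hi
      have := h25 i hi
      have := h34 i hi
      have h5 : a i % 7 = 3 ∨ a i % 7 = 5 ∨ a i % 7 = 6 := by omega
      rcases h5 with h5 | h5 | h5 <;> omega
  · exact key_b a S hz 4 (by norm_num) fun i hi => by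
      have := h0 i hi
      have := h16 i hi
      have := h25 i hi
      have := h34 i hi
      have h5 : a i % 7 = 4 ∨ a i % 7 = 2 ∨ a i % 7 = 6 := by omega
      rcases h5 with h5 | h5 | h5 <;> omega
  · exact key_b a S hz 5 (by norm_num) fun i hi => by
      have := h0 i hi
      have := h16 i hi
      have := h25 i hi
      have := h34 i hi
      have h5 : a i % 7 = 3 ∨ a i % 7 = 2 ∨ a i % 7 = 6 := by omega
      rcases h5 with h5 | h5 | h5 <;> omega
  · exact key_b a S hz 2 (by norm_num) fun i hi => by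
      have := h0 i hi
      have := h16 i hi
      have := h25 i hi
      have := h34 i hi
      have h5 : a i % 7 = 4 ∨ a i % 7 = 5 ∨ a i % 7 = 1 := by omega
      rcases h5 with h5 | h5 | h5 <;> omega
  · exact key_b a S hz 3 (by norm_num) fun i hi => by
      have := h0 i hi
      have := h16 i hi
      have := h25 i hi
      have := h34 i hi
      have h5 : a i % 7 = 3 ∨ a i % 7 = 5 ∨ a i % 7 = 1 := by omega
      rcases h5 with h5 | h5 | h5 <;> omega
  · exact key_a a S hz 1 (by norm_num) fun i hi => by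
      have := h0 i hi
      have := h16 i hi
      have := h25 i hi
      have := h34 i hi
      have h5 : a i % 7 = 4 ∨ a i % 7 = 2 ∨ a i % 7 = 1 := by omega
      rcases h5 with h5 | h5 | h5 <;> omega
  · exact key_b a S hz 1 (by norm_num) fun i hi => by
      have := h0 i hi
      have := h16 i hi
      have := h25 i hi
      have := h34 i hi
      have h5 : a i % 7 = 3 ∨ a i % 7 = 2 ∨ a i % 7 = 1 := by omega
      rcases h5 with h5 | h5 | h5 <;> omega

/-- **Partitions into blocks, `m = 7`.** -/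
theorem exists_blocks_seven (a : ι → ℕ) (S : Finset ι) (hz : 7 ∣ ∑ i ∈ S, a i) :
    ∃ c, Nat.Coprime 7 c ∧ ∃ k, Blocks 7 a S k ∧ ∑ i ∈ S, q 7 c (a i) ≤ k * 7 :=
  reduce_step a (fun S hz h => base_of a h.1 (base_seven a S hz h)) _ S rfl hz

end Pool.Agent.T9h38.Cyc
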