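import Pool.Agent.T9h38.Cyc.Comb

/-!
Long zero-free sequences in abelian groups (theorem of Savchev and Chen), by a short induction.
-/

set_option autoImplicit false

namespace Pool.Agent.T9h38.Cyc

section

variable {ι G : Type} [DecidableEq ι] [AddCommGroup G] [DecidableEq G] {a : ι → G} {T : Finset ι}

/-- the sums over all subsets -/
def SS (a : ι → G) (T : Finset ι) : Finset G := T.powerset.image fun U => ∑ i ∈ U, a i

/-- no nonempty subset has sum zero -/
def ZeroFree (a : ι → G) (T : Finset ι) : Prop := ∀ U ⊆ T, U.Nonempty → ∑ i ∈ U, a i ≠ 0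

omit [DecidableEq ι] in
theorem mem_SS {x : G} : x ∈ SS a T ↔ ∃ U ⊆ T, ∑ i ∈ U, a i = x := by
  simp [SS, Finset.mem_image]

theorem sum_insert_mem {i : ι} (hi : i ∈ T) {x : G} (hx : x ∈ SS a (T.erase i)) :
    ∃ U ⊆ T, i ∈ U ∧ ∑ j ∈ U, a j = x + a i := by
  obtain ⟨U, hU, rfl⟩ := mem_SS.1 hx
  have h1 : i ∉ U := fun h => (Finset.mem_erase.1 (hU h)).1 rfl
  refine ⟨insert i U, ?_, Finset.mem_insert_self i U, ?_⟩
  · exact Finset.insert_subset hi (hU.trans (Finset.erase_subset i T))
  · rw [Finset.sum_insert h1, add_comm]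

theorem SS_erase {i : ι} (hi : i ∈ T) :
    SS a T = SS a (T.erase i) ∪ (SS a (T.erase i)).image (· + a i) := by
  ext x
  rw [Finset.mem_union, Finset.mem_image]
  constructor
  · intro h
    obtain ⟨U, hU, rfl⟩ := mem_SS.1 h
    by_cases h1 : i ∈ U
    · right
      refine ⟨∑ j ∈ U.erase i, a j, mem_SS.2 ⟨U.erase i, Finset.erase_subset_erase i hU, rfl⟩, ?_⟩
      exact Finset.sum_erase_add U a h1
    · left
      exact mem_SS.2 ⟨U, fun j hj => Finset.mem_erase.2 ⟨fun h => h1 (h ▸ hj), hU hj⟩, rfl⟩
  · rintro (h | ⟨y, h, rfl⟩)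
    · obtain ⟨U, hU, rfl⟩ := mem_SS.1 h
      exact mem_SS.2 ⟨U, hU.trans (Finset.erase_subset i T), rfl⟩
    · obtain ⟨U, hU, -, h2⟩ := sum_insert_mem hi h
      exact mem_SS.2 ⟨U, hU, h2⟩

theorem SS_symm {x : G} (h : x ∈ SS a T) : ∑ i ∈ T, a i - x ∈ SS a T := by
  obtain ⟨U, hU, rfl⟩ := mem_SS.1 h
  refine mem_SS.2 ⟨T \ U, Finset.sdiff_subset, ?_⟩
  rw [← Finset.sum_sdiff hU]
  abel

theorem total_notMem (hz : ZeroFree a T) {i : ι} (hi : i ∈ T) :
    ∑ j ∈ T, a j ∉ SS a (T.erase i) := by
  intro h
  obtain ⟨U, hU, h1⟩ := mem_SS.1 h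
  have hU' : U ⊆ T := hU.trans (Finset.erase_subset i T)
  have h2 : i ∈ T \ U := Finset.mem_sdiff.2 ⟨hi, fun h => (Finset.mem_erase.1 (hU h)).1 rfl⟩
  apply hz (T \ U) Finset.sdiff_subset ⟨i, h2⟩
  have h3 := Finset.sum_sdiff (f := a) hU'
  rw [h1] at h3
  exact add_eq_right.1 h3

/-- if each term contributes only one new sum, then the sequence is constant -/
theorem const_of_small (hz : ZeroFree a T)
    (h : ∀ i ∈ T, (SS a T).card ≤ (SS a (T.erase i)).card + 1) {i j : ι} (hi : i ∈ T) (hj : j ∈ T) :
    a i = a j := by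
  set s := ∑ l ∈ T, a l with hs
  have hmemT : s ∈ SS a T := mem_SS.2 ⟨T, subset_rfl, rfl⟩
  have hsub : ∀ l ∈ T, SS a (T.erase l) ⊆ SS a T := fun l hl => by
    rw [SS_erase hl]
    exact Finset.subset_union_left
  have heq : ∀ l ∈ T, SS a (T.erase l) = (SS a T).erase s := by
    intro l hl
    refine Finset.eq_of_subset_of_card_le (fun x hx => Finset.mem_erase.2 ⟨?_, hsub l hl hx⟩) ?_
    · rintro rfl
      exact total_notMem hz hl hx
    · rw [Finset.card_erase_of_mem hmemT]
      have := h l hl
      omega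
  have hshift : ∀ l ∈ T, ∀ l' ∈ T, ∀ x ∈ (SS a T).erase s, x + (a l - a l') ∈ (SS a T).erase s := by
    intro l hl l' hl' x hx
    rw [← heq l hl] at hx
    have h1 := SS_symm hx
    rw [heq l hl, ← heq l' hl'] at h1
    have h2 := SS_symm h1
    rw [heq l' hl'] at h2
    have h3 : ∑ l₁ ∈ T.erase l, a l₁ = s - a l := by
      rw [hs, ← Finset.sum_erase_add T a hl]
      abel
    have h4 : ∑ l₁ ∈ T.erase l', a l₁ = s - a l' := by
      rw [hs, ← Finset.sum_erase_add T a hl']
      abel
    rw [h3, h4] at h2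
    have h5 : s - a l' - (s - a l - x) = x + (a l - a l') := by abel
    rwa [h5] at h2
  have hshiftT : ∀ l ∈ T, ∀ l' ∈ T, ∀ x ∈ SS a T, x + (a l - a l') ∈ SS a T := by
    intro l hl l' hl' x hx
    rw [SS_erase hl, Finset.mem_union, Finset.mem_image] at hx
    rcases hx with hx | ⟨y, hy, rfl⟩
    · rw [heq l hl] at hx
      exact Finset.erase_subset _ _ (hshift l hl l' hl' x hx)
    · rw [heq l hl] at hy
      have h1 := hshift l hl l' hl' y hy
      rw [← heq l hl] at h1
      rw [SS_erase hl, Finset.mem_union, Finset.mem_image]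
      right
      exact ⟨_, h1, by abel⟩
  have h1 := hshiftT i hi j hj s hmemT
  by_contra hne
  have h2 : s + (a i - a j) ∈ (SS a T).erase s := by
    refine Finset.mem_erase.2 ⟨fun h => hne ?_, h1⟩
    have h3 : a i - a j = 0 := add_eq_left.1 h
    exact sub_eq_zero.1 h3
  have h3 := hshift j hj i hi _ h2
  have h4 : s + (a i - a j) + (a j - a i) = s := by abel
  rw [h4] at h3
  exact (Finset.mem_erase.1 h3).1 rfl

/-- **Savchev and Chen.** A zero-free sequence with few subset sums consists of positive multiples of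
one element with small sum. -/
theorem savchev_chen (a : ι → G) (n : ℕ) : ∀ T : Finset ι, T.card = n → T.Nonempty → ZeroFree a T →
    (SS a T).card + 1 ≤ 2 * T.card →
    ∃ (g : G) (r : ι → ℕ), (∀ i ∈ T, 1 ≤ r i ∧ a i = r i • g) ∧
      (∀ j, 1 ≤ j → j ≤ ∑ i ∈ T, r i → j • g ≠ 0) ∧
      SS a T = (Finset.range (∑ i ∈ T, r i + 1)).image (· • g) := by
  induction n with
  | zero =>
    intro T h hT
    exact absurd (Finset.card_eq_zero.1 h) hT.ne_empty
  | succ n ih =>
    intro T hn hT hz hc
    by_cases hA : ∀ i ∈ T, (SS a T).card ≤ (SS a (T.erase i)).card + 1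
    · obtain ⟨i0, hi0⟩ := hT
      have hconst : ∀ i ∈ T, a i = a i0 := fun i hi => const_of_small hz hA hi hi0
      have hsum : ∀ U ⊆ T, ∑ i ∈ U, a i = U.card • a i0 := fun U hU => by
        rw [Finset.sum_congr rfl fun i hi => hconst i (hU hi), Finset.sum_const]
      refine ⟨a i0, fun _ => 1, fun i hi => ⟨le_rfl, by rw [one_smul]; exact hconst i hi⟩, ?_, ?_⟩
      · intro j hj1 hj2
        rw [Finset.sum_const, smul_eq_mul, mul_one] at hj2
        obtain ⟨U, hU, hUj⟩ := Finset.exists_subset_card_eq hj2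
        rw [← hUj, ← hsum U hU]
        exact hz U hU (Finset.card_pos.1 (by omega))
      · ext x
        rw [mem_SS, Finset.mem_image]
        simp only [Finset.mem_range, Finset.sum_const, smul_eq_mul, mul_one]
        constructor
        · rintro ⟨U, hU, rfl⟩
          exact ⟨U.card, by have := Finset.card_le_card hU; omega, (hsum U hU).symm⟩
        · rintro ⟨j, hj, rfl⟩
          obtain ⟨U, hU, hUj⟩ := Finset.exists_subset_card_eq (s := T) (n := j) (by omega)
          exact ⟨U, hU, by rw [hsum U hU, hUj]⟩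
    · push Not at hA
      obtain ⟨i, hi, hi2⟩ := hA
      have hcard : (T.erase i).card = n := by
        rw [Finset.card_erase_of_mem hi, hn]
        rfl
      have hpos : 1 ≤ (SS a (T.erase i)).card := Finset.card_pos.2 ⟨0, mem_SS.2 ⟨∅, by simp, by simp⟩⟩
      have hne : (T.erase i).Nonempty := Finset.card_pos.1 (by omega)
      obtain ⟨g, r, h1, h2, h3⟩ := ih (T.erase i) hcard hne
        (fun U hU => hz U (hU.trans (Finset.erase_subset i T))) (by omega)
      set R := ∑ j ∈ T.erase i, r j with hR
      have hinj : Set.InjOn (fun j : ℕ => j • g) (Finset.range (R + 1) : Set ℕ) := by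
        intro p hp q hq hpq
        simp only [Finset.coe_range, Set.mem_Iio] at hp hq
        by_contra hne
        rcases Nat.lt_or_gt_of_ne hne with hlt | hlt
        · apply h2 (q - p) (by omega) (by omega)
          have h4 : q • g = (q - p) • g + p • g := by rw [← add_smul]; congr 1; omega
          simp only at hpq
          rw [hpq] at h4
          exact add_eq_right.1 h4.symm
        · apply h2 (p - q) (by omega) (by omega)
          have h4 : p • g = (p - q) • g + q • g := by rw [← add_smul]; congr 1; omega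
          simp only at hpq
          rw [← hpq] at h4
          exact add_eq_right.1 h4.symm
      have hIcard : (SS a (T.erase i)).card = R + 1 := by
        rw [h3, Finset.card_image_of_injOn hinj, Finset.card_range]
      have hRn : n ≤ R := by
        rw [← hcard, hR, Finset.card_eq_sum_ones]
        exact Finset.sum_le_sum fun j hj => (h1 j hj).1
      have hmem : ∀ j ≤ R, j • g ∈ SS a (T.erase i) := fun j hj => by
        rw [h3]
        exact Finset.mem_image.2 ⟨j, Finset.mem_range.2 (by omega), rfl⟩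
      have hnd : ¬ Disjoint (SS a (T.erase i)) ((SS a (T.erase i)).image (· + a i)) := by
        intro hd
        have h4 : (SS a T).card = (R + 1) + (R + 1) := by
          rw [SS_erase hi, Finset.card_union_of_disjoint hd,
            Finset.card_image_of_injective _ (add_left_injective (a i)), hIcard]
        omega
      obtain ⟨x, hx, hx'⟩ := Finset.not_disjoint_iff.1 hnd
      obtain ⟨y, hy, hyx⟩ := Finset.mem_image.1 hx'
      rw [h3] at hx hy
      obtain ⟨p, hp, rfl⟩ := Finset.mem_image.1 hx
      obtain ⟨q, hq, rfl⟩ := Finset.mem_image.1 hy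
      rw [Finset.mem_range] at hp hq
      have hpq : q < p := by
        by_contra hle
        have h4 : q • g = (q - p) • g + p • g := by rw [← add_smul]; congr 1; omega
        obtain ⟨U, hU, hiU, hUs⟩ := sum_insert_mem hi (hmem (q - p) (by omega))
        apply hz U hU ⟨i, hiU⟩
        rw [hUs]
        rw [h4, add_right_comm] at hyx
        exact add_eq_right.1 hyx
      obtain ⟨c, rfl⟩ : ∃ c, p = q + c := ⟨p - q, by omega⟩
      have hai : a i = c • g := by
        rw [add_smul] at hyx
        exact add_left_cancel hyx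
      have hcR : c ≤ R := by omega
      have hupd : ∀ j ∈ T.erase i, Function.update r i c j = r j := fun j hj =>
        Function.update_of_ne (Finset.mem_erase.1 hj).1 _ _
      have hsumr : ∑ j ∈ T, Function.update r i c j = R + c := by
        rw [← Finset.sum_erase_add T _ hi, Function.update_self, Finset.sum_congr rfl hupd]
      refine ⟨g, Function.update r i c, ?_, ?_, ?_⟩
      · intro j hj
        by_cases hji : j = i
        · subst hji
          rw [Function.update_self]
          exact ⟨by omega, hai⟩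
        · rw [Function.update_of_ne hji]
          exact h1 j (Finset.mem_erase.2 ⟨hji, hj⟩)
      · intro j hj1 hj2
        rw [hsumr] at hj2
        rcases Nat.lt_or_ge R j with hRj | hRj
        · obtain ⟨U, hU, hiU, hUs⟩ := sum_insert_mem hi (hmem (j - c) (by omega))
          have h4 : j • g = (j - c) • g + a i := by rw [hai, ← add_smul]; congr 1; omega
          rw [h4, ← hUs]
          exact hz U hU ⟨i, hiU⟩
        · exact h2 j hj1 hRj
      · rw [hsumr, SS_erase hi, h3]
        ext x
        simp only [Finset.mem_union, Finset.mem_image, Finset.mem_range]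
        constructor
        · rintro (⟨j, hj, rfl⟩ | ⟨_, ⟨j, hj, rfl⟩, rfl⟩)
          · exact ⟨j, by omega, rfl⟩
          · exact ⟨j + c, by omega, by rw [hai, add_smul]⟩
        · rintro ⟨j, hj, rfl⟩
          rcases Nat.lt_or_ge R j with hRj | hRj
          · right
            exact ⟨(j - c) • g, ⟨j - c, by omega, rfl⟩, by
              rw [hai, ← add_smul]
              congr 1
              omega⟩
          · left
            exact ⟨j, by omega, rfl⟩

end

section

variable {ι : Type} [DecidableEq ι]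

/-- **Long minimal zero-sum sequences have index one.** -/
theorem index_one {m : ℕ} (hm : 0 < m) (a : ι → ℕ) (T : Finset ι) (hz : m ∣ ∑ i ∈ T, a i)
    (hmin : ∀ U ⊆ T, U ≠ T → U.Nonempty → ¬ m ∣ ∑ i ∈ U, a i) (hT : m / 2 + 2 ≤ T.card) :
    ∃ c, Nat.Coprime m c ∧ ∑ i ∈ T, (c * a i) % m = m := by
  classical
  have hm0 : NeZero m := ⟨hm.ne'⟩
  obtain ⟨i0, hi0⟩ : T.Nonempty := Finset.card_pos.1 (by omega)
  have hcard : (T.erase i0).card + 1 = T.card := Finset.card_erase_add_one hi0
  have hzf : ZeroFree (fun i => (a i : ZMod m)) (T.erase i0) := by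
    intro U hU hne h
    refine hmin U (hU.trans (Finset.erase_subset _ _)) ?_ hne ?_
    · rintro rfl
      exact (Finset.mem_erase.1 (hU hi0)).1 rfl
    · rw [← ZMod.natCast_eq_zero_iff]
      push_cast
      exact h
  have hSS : (SS (fun i => (a i : ZMod m)) (T.erase i0)).card ≤ m := by
    have h1 := Finset.card_le_univ (SS (fun i => (a i : ZMod m)) (T.erase i0))
    rwa [ZMod.card] at h1
  obtain ⟨g, r, h1, h2, h3⟩ := savchev_chen (fun i => (a i : ZMod m)) _ (T.erase i0) rfl
    (Finset.card_pos.1 (by omega)) hzf (by omega)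
  set R := ∑ j ∈ T.erase i0, r j with hR
  have hRn : (T.erase i0).card ≤ R := by
    rw [hR, Finset.card_eq_sum_ones]
    exact Finset.sum_le_sum fun j hj => (h1 j hj).1
  have hord : addOrderOf g = m := by
    have h4 : addOrderOf g ∣ m := by
      have := addOrderOf_dvd_card (x := g)
      rwa [ZMod.card] at this
    have h5 : 0 < addOrderOf g := addOrderOf_pos g
    have h6 : R < addOrderOf g := by
      by_contra h
      exact h2 _ h5 (by omega) (addOrderOf_nsmul_eq_zero g)
    obtain ⟨t, ht⟩ := h4
    have h7 : t = 1 := by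
      rcases Nat.lt_or_ge t 2 with h | h
      · interval_cases t
        · omega
        · rfl
      · have : addOrderOf g * 2 ≤ addOrderOf g * t := Nat.mul_le_mul_left _ h
        omega
    rw [h7, mul_one] at ht
    exact ht.symm
  have hRm : R < m := by
    by_contra h
    exact h2 m hm (by omega) (by rw [nsmul_eq_mul, ZMod.natCast_self, zero_mul])
  have hcop : Nat.Coprime g.val m := by
    have h4 : addOrderOf ((g.val : ℕ) : ZMod m) = m / m.gcd g.val := ZMod.addOrderOf_coe _ hm.ne'
    rw [ZMod.natCast_zmod_val, hord] at h4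
    have h5 : m.gcd g.val ∣ m := Nat.gcd_dvd_left _ _
    have h6 : m.gcd g.val = 1 := by
      obtain ⟨t, ht⟩ := h5
      have h7 : 0 < m.gcd g.val := Nat.gcd_pos_of_pos_left _ hm
      have h8 : m / m.gcd g.val = t := by
        rw [Nat.div_eq_iff_eq_mul_right h7 (Nat.gcd_dvd_left _ _)]
        exact ht
      rw [h8] at h4
      rw [← h4] at ht
      have h9 : m * 1 = m * m.gcd g.val := by rw [mul_one, mul_comm]; exact ht
      exact (Nat.eq_of_mul_eq_mul_left hm h9).symm
    rw [Nat.Coprime, Nat.gcd_comm]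
    exact h6
  let u : (ZMod m)ˣ := ZMod.unitOfCoprime g.val hcop
  have hu : (u : ZMod m) = g := by
    rw [ZMod.coe_unitOfCoprime, ZMod.natCast_zmod_val]
  let c : ℕ := ((u⁻¹ : (ZMod m)ˣ) : ZMod m).val
  have hc : (c : ZMod m) * g = 1 := by
    rw [show (c : ZMod m) = ((u⁻¹ : (ZMod m)ˣ) : ZMod m) from ZMod.natCast_zmod_val _, ← hu]
    exact Units.inv_mul u
  have hcc : Nat.Coprime m c := by
    rw [Nat.coprime_comm]
    exact (ZMod.val_coe_unit_coprime u⁻¹)
  refine ⟨c, hcc, ?_⟩
  have h4 : ∀ i ∈ T.erase i0, (c * a i) % m = r i := by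
    intro i hi
    have h5 : ((c * a i : ℕ) : ZMod m) = ((r i : ℕ) : ZMod m) := by
      push_cast
      rw [(h1 i hi).2, nsmul_eq_mul, mul_left_comm, hc, mul_one]
    rw [ZMod.natCast_eq_natCast_iff'] at h5
    rw [h5]
    apply Nat.mod_eq_of_lt
    refine lt_of_le_of_lt ?_ hRm
    exact Finset.single_le_sum (fun j _ => Nat.zero_le (r j)) hi
  have h5 : (c * a i0) % m = m - R := by
    have h6 : ((c * a i0 : ℕ) : ZMod m) = ((m - R : ℕ) : ZMod m) := by
      rw [Nat.cast_sub hRm.le, ZMod.natCast_self, zero_sub]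
      have h7 : ((∑ i ∈ T, a i : ℕ) : ZMod m) = 0 := (ZMod.natCast_eq_zero_iff _ _).2 hz
      rw [← Finset.sum_erase_add T a hi0] at h7
      push_cast at h7
      rw [Finset.sum_congr rfl fun i hi => (h1 i hi).2, ← Finset.sum_smul] at h7
      have h8 : (a i0 : ZMod m) = - (R • g) := by
        rw [eq_neg_iff_add_eq_zero, add_comm]
        exact h7
      push_cast
      rw [h8, nsmul_eq_mul, mul_neg, mul_left_comm, hc, mul_one]
    rw [ZMod.natCast_eq_natCast_iff'] at h6
    rw [h6]
    exact Nat.mod_eq_of_lt (by omega)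
  rw [← Finset.sum_erase_add T _ hi0, Finset.sum_congr rfl h4, h5]
  change R + (m - R) = m
  omega

end

end Pool.Agent.T9h38.Cyc
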